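import Mathlib

/-!
# Averages over finite function spaces and the blow-up inequality
-/

set_option autoImplicit false

namespace Pool.Agent.H211F52

open Finset Classical

/-- The average of a real function on a finite type. -/
noncomputable def av {α : Type} (f : α → ℝ) : ℝ := (∑ᶠ a, f a) / Nat.card α

lemma av_eq {α : Type} [Fintype α] (f : α → ℝ) : av f = (∑ a, f a) / Fintype.card α := by
  unfold av
  rw [finsum_eq_sum_of_fintype, Nat.card_eq_fintype_card]

section av

variable {α β : Type} [Fintype α] [Fintype β]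

lemma av_mono {f g : α → ℝ} (h : ∀ a, f a ≤ g a) : av f ≤ av g := by
  simp only [av_eq]
  exact div_le_div_of_nonneg_right (Finset.sum_le_sum fun a _ => h a) (Nat.cast_nonneg _)

omit [Fintype α] in
lemma av_nonneg {f : α → ℝ} (h : ∀ a, 0 ≤ f a) : 0 ≤ av f :=
  div_nonneg (finsum_nonneg h) (Nat.cast_nonneg _)

lemma av_const [Nonempty α] (c : ℝ) : av (fun _ : α => c) = c := by
  simp only [av_eq]
  have : (Fintype.card α : ℝ) ≠ 0 := by exact_mod_cast Fintype.card_ne_zero
  rw [Finset.sum_const, Finset.card_univ, nsmul_eq_mul]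
  field_simp

lemma av_le_one [Nonempty α] {f : α → ℝ} (h : ∀ a, f a ≤ 1) : av f ≤ 1 := by
  calc av f ≤ av (fun _ : α => (1 : ℝ)) := av_mono h
    _ = 1 := av_const 1

lemma av_mul_left (c : ℝ) (f : α → ℝ) : av (fun a => c * f a) = c * av f := by
  simp only [av_eq]
  rw [← Finset.mul_sum, mul_div_assoc]

lemma av_mul_right (c : ℝ) (f : α → ℝ) : av (fun a => f a * c) = av f * c := by
  simp only [av_eq]
  rw [← Finset.sum_mul]; ring

lemma av_sum {ι : Type} (s : Finset ι) (f : ι → α → ℝ) : av (fun a => ∑ i ∈ s, f i a) = ∑ i ∈ s, av (f i) := by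
  simp only [av_eq]
  rw [Finset.sum_comm, Finset.sum_div]

lemma av_equiv (e : α ≃ β) (f : β → ℝ) : av (fun a => f (e a)) = av f := by
  simp only [av_eq]
  rw [Equiv.sum_comp e f, Fintype.card_congr e]

lemma av_prod (f : α × β → ℝ) : av f = av (fun a => av (fun b => f (a, b))) := by
  simp only [av_eq]
  rw [Fintype.sum_prod_type, Fintype.card_prod, ← Finset.sum_div]
  push_cast
  rw [div_div, mul_comm (Fintype.card β : ℝ)]

lemma av_comm (f : α → β → ℝ) : av (fun a => av (fun b => f a b)) = av (fun b => av (fun a => f a b)) := by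
  rw [← av_prod (fun p : α × β => f p.1 p.2), ← av_prod (fun p : β × α => f p.2 p.1)]
  exact av_equiv (Equiv.prodComm α β) (fun p : β × α => f p.2 p.1)

/-- Jensen's inequality for powers. -/
lemma av_pow_le [Nonempty α] {f : α → ℝ} (h : ∀ a, 0 ≤ f a) (n : ℕ) : (av f) ^ n ≤ av (fun a => f a ^ n) := by
  have hc : (Fintype.card α : ℝ) ≠ 0 := by exact_mod_cast Fintype.card_ne_zero
  have := Real.pow_arith_mean_le_arith_mean_pow (Finset.univ : Finset α) (fun _ => (Fintype.card α : ℝ)⁻¹) f
    (fun _ _ => by positivity) (by rw [Finset.sum_const, Finset.card_univ, nsmul_eq_mul]; field_simp)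
    (fun a _ => h a) n
  simp only [av_eq]
  rw [← Finset.mul_sum, ← Finset.mul_sum] at this
  rw [div_eq_inv_mul, div_eq_inv_mul]
  exact this

/-- The average of a product of functions of independent coordinates. -/
lemma av_pi {J : Type} [Fintype J] {T : J → Type} [∀ j, Fintype (T j)] (g : ∀ j, T j → ℝ) :
    av (fun y : ∀ j, T j => ∏ j, g j (y j)) = ∏ j, av (g j) := by
  simp only [av_eq]
  rw [Finset.prod_div_distrib]
  congr 1
  · rw [Finset.prod_univ_sum]
    rw [Fintype.piFinset_univ]
  · rw [Fintype.card_pi]; push_cast; rfl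

lemma av_fin_pow (b : ℕ) (f : α → ℝ) : av (fun z : Fin b → α => ∏ j, f (z j)) = (av f) ^ b := by
  have h := av_pi (J := Fin b) (fun _ : Fin b => f)
  rw [Finset.prod_const, Finset.card_univ, Fintype.card_fin] at h
  exact h

end av

/-- Sums over functions on a sum type. -/
lemma av_sum_type {A B Ω : Type} [Fintype A] [Fintype B] [Fintype Ω] (f : (A ⊕ B → Ω) → ℝ) :
    av f = av (fun x : A → Ω => av (fun y : B → Ω => f (Sum.elim x y))) := by
  rw [← av_prod (fun p : (A → Ω) × (B → Ω) => f (Sum.elim p.1 p.2)), ← av_equiv (Equiv.sumArrowEquivProdArrow A B Ω)]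
  congr 1
  funext x
  congr 1
  funext i
  rcases i with i | i <;> rfl

/-- Marginals: the average of a function of the coordinates in the image of an injection. -/
lemma av_comp_injective {A B Ω : Type} [Fintype A] [Fintype B] [Fintype Ω] [Nonempty Ω] (ι : A → B)
    (hι : Function.Injective ι) (f : (A → Ω) → ℝ) : av (fun Z : B → Ω => f (Z ∘ ι)) = av f := by
  -- split `B` into the range of `ι` and the complement
  let p : B → Prop := fun b => b ∈ Set.range ι
  let e := Equiv.piEquivPiSubtypeProd p (fun _ => Ω)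
  have h1 : av (fun Z : B → Ω => f (Z ∘ ι)) =
      av (fun q : ({b // p b} → Ω) × ({b // ¬ p b} → Ω) => f (fun a => q.1 ⟨ι a, a, rfl⟩)) := by
    rw [← av_equiv e]
    rfl
  rw [h1, av_prod]
  have h2 : ∀ x : {b // p b} → Ω, av (fun _ : {b // ¬ p b} → Ω => f (fun a => x ⟨ι a, a, rfl⟩)) =
      f (fun a => x ⟨ι a, a, rfl⟩) := fun x => av_const _
  simp only [h2]
  let e' : A ≃ {b // p b} := Equiv.ofInjective ι hι
  have h3 := av_equiv (Equiv.arrowCongr e' (Equiv.refl Ω)).symm f
  rw [← h3]
  rfl

section fin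

variable {T : Type} [Fintype T]

lemma av_fin_succ {n : ℕ} (f : (Fin (n + 1) → T) → ℝ) :
    av f = av (fun a : T => av (fun y : Fin n → T => f (Fin.cons a y))) := by
  rw [← av_prod (fun p : T × (Fin n → T) => f (Fin.cons p.1 p.2))]
  exact (av_equiv (Fin.consEquiv (fun _ => T)) f).symm

end fin

lemma prod_fin_succ {T : Type} [Fintype T] {n : ℕ} (f : (Fin (n + 1) → T) → ℝ) :
    ∏ σ : Fin (n + 1) → T, f σ = ∏ a : T, ∏ σ : Fin n → T, f (Fin.cons a σ) := by
  rw [← Fintype.prod_prod_type (fun p : T × (Fin n → T) => f (Fin.cons p.1 p.2))]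
  exact ((Fin.consEquiv (fun _ => T)).prod_comp f).symm

/-- The blow-up inequality for functions on `Ω^n`. -/
lemma blowup_fin {Ω : Type} [Fintype Ω] [Nonempty Ω] (b : ℕ) : ∀ (n : ℕ) (g : (Fin n → Ω) → ℝ), (∀ y, 0 ≤ g y) →
    (av g) ^ (b ^ n) ≤ av (fun z : Fin n → Fin b → Ω => ∏ σ : Fin n → Fin b, g (fun i => z i (σ i))) := by
  intro n
  induction n with
  | zero =>
    intro g hg
    have h1 : av g = g (fun i => i.elim0) := by
      simp only [av_eq]
      rw [Fintype.sum_eq_single (fun i : Fin 0 => i.elim0) (fun y hy => absurd (funext fun i => i.elim0) hy)]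
      simp
    have h2 : (fun z : Fin 0 → Fin b → Ω => ∏ σ : Fin 0 → Fin b, g (fun i => z i (σ i))) =
        fun _ => g (fun i => i.elim0) := by
      funext z
      rw [Fintype.prod_eq_single (fun i : Fin 0 => i.elim0) (fun y hy => absurd (funext fun i => i.elim0) hy)]
      congr 1
      funext i
      exact i.elim0
    rw [h2, av_const, h1, pow_zero, pow_one]
  | succ n ih =>
    intro g hg
    -- right hand side
    have hR : av (fun z : Fin (n + 1) → Fin b → Ω => ∏ σ : Fin (n + 1) → Fin b, g (fun i => z i (σ i))) =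
        av (fun z0 : Fin b → Ω => av (fun z' : Fin n → Fin b → Ω =>
          ∏ σ' : Fin n → Fin b, ∏ j : Fin b, g (Fin.cons (z0 j) (fun i => z' i (σ' i))))) := by
      rw [av_fin_succ]
      congr 1
      funext z0
      congr 1
      funext z'
      rw [prod_fin_succ, Finset.prod_comm]
      refine Finset.prod_congr rfl fun σ' _ => Finset.prod_congr rfl fun j _ => ?_
      congr 1
      funext i
      refine Fin.cases ?_ (fun i => ?_) i
      · simp
      · simp
    rw [hR]
    have hstep : ∀ z0 : Fin b → Ω, (av (fun y' : Fin n → Ω => ∏ j : Fin b, g (Fin.cons (z0 j) y'))) ^ (b ^ n) ≤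
        av (fun z' : Fin n → Fin b → Ω =>
          ∏ σ' : Fin n → Fin b, ∏ j : Fin b, g (Fin.cons (z0 j) (fun i => z' i (σ' i)))) := fun z0 =>
      ih (fun y' => ∏ j : Fin b, g (Fin.cons (z0 j) y')) (fun y' => Finset.prod_nonneg fun j _ => hg _)
    refine le_trans ?_ (av_mono hstep)
    refine le_trans ?_ (av_pow_le (fun z0 => av_nonneg fun y' => Finset.prod_nonneg fun j _ => hg _) _)
    rw [av_comm]
    have h1 : (fun y' : Fin n → Ω => av (fun z0 : Fin b → Ω => ∏ j : Fin b, g (Fin.cons (z0 j) y'))) =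
        fun y' => (av (fun a : Ω => g (Fin.cons a y'))) ^ b := by
      funext y'
      exact av_fin_pow b (fun a : Ω => g (Fin.cons a y'))
    rw [h1]
    have h2 : (av g) ^ b ≤ av (fun y' : Fin n → Ω => (av (fun a : Ω => g (Fin.cons a y'))) ^ b) := by
      refine le_trans ?_ (av_pow_le (fun y' => av_nonneg fun a => hg _) b)
      rw [av_comm, ← av_fin_succ]
    rw [pow_succ, mul_comm, pow_mul]
    exact pow_le_pow_left₀ (pow_nonneg (av_nonneg hg) _) h2 _

/-- The blow-up inequality. -/
lemma blowup {Ω U : Type} [Fintype Ω] [Nonempty Ω] [Fintype U] (b : ℕ) (g : (U → Ω) → ℝ) (hg : ∀ y, 0 ≤ g y) :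
    (av g) ^ (b ^ Fintype.card U) ≤
      av (fun z : U → Fin b → Ω => ∏ σ : U → Fin b, g (fun i => z i (σ i))) := by
  let e := Fintype.equivFin U
  have h := blowup_fin b (Fintype.card U) (fun y : Fin (Fintype.card U) → Ω => g (y ∘ e)) (fun y => hg _)
  have h1 : av (fun y : Fin (Fintype.card U) → Ω => g (y ∘ e)) = av g :=
    av_equiv (Equiv.arrowCongr e.symm (Equiv.refl Ω)) g
  rw [h1] at h
  refine h.trans (le_of_eq ?_)
  rw [← av_equiv (Equiv.arrowCongr e.symm (Equiv.refl (Fin b → Ω)))]
  congr 1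
  funext z
  rw [← Equiv.prod_comp (Equiv.arrowCongr e.symm (Equiv.refl (Fin b)))]
  refine Finset.prod_congr rfl fun σ _ => ?_
  rfl

/-- The blow-up inequality for a collapsed pattern: if `π : F → U` and `G z` holds as soon as `g` holds for
all the selections, then the density of `G` is at least a power of the density of `g`. -/
lemma collapse {Ω U F : Type} [Fintype Ω] [Nonempty Ω] [Fintype U] [Fintype F] (π : F → U) (m : ℕ)
    (hF : Fintype.card F ≤ m) (g : (U → Ω) → Prop) (G : (F → Ω) → Prop)
    (hG : ∀ z : U → Fin m → Ω, ∀ e : F → Fin m, Function.Injective e →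
      (∀ σ : U → Fin m, g (fun i => z i (σ i))) → G (fun f => z (π f) (e f))) :
    (av (fun y : U → Ω => if g y then (1 : ℝ) else 0)) ^ (m ^ Fintype.card U) ≤
      av (fun z : F → Ω => if G z then (1 : ℝ) else 0) := by
  obtain ⟨e, he⟩ : ∃ e : F → Fin m, Function.Injective e :=
    ⟨fun f => Fin.castLE hF (Fintype.equivFin F f), fun a b hab =>
      (Fintype.equivFin F).injective (Fin.castLE_injective hF hab)⟩
  refine (blowup m (fun y : U → Ω => if g y then (1 : ℝ) else 0) (fun y => by positivity)).trans ?_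
  have hinj : Function.Injective (fun f : F => ((π f, e f) : U × Fin m)) := by
    intro a b hab
    exact he (Prod.mk.inj hab).2
  have hcur := av_equiv (Equiv.curry U (Fin m) Ω) (fun z : U → Fin m → Ω =>
    ∏ σ : U → Fin m, if g (fun i => z i (σ i)) then (1 : ℝ) else 0)
  have hmarg := av_comp_injective (Ω := Ω) _ hinj (fun z : F → Ω => if G z then (1 : ℝ) else 0)
  rw [← hcur, ← hmarg]
  apply av_mono
  intro Z
  by_cases hall : ∀ σ : U → Fin m, g (fun i => (Equiv.curry U (Fin m) Ω) Z i (σ i))
  · have := hG _ e he hall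
    have h2 : G (Z ∘ fun f => (π f, e f)) := this
    rw [if_pos h2]
    apply Finset.prod_le_one
    · intro σ _; positivity
    · intro σ _; split_ifs <;> norm_num
  · push Not at hall
    obtain ⟨σ, hσ⟩ := hall
    rw [Finset.prod_eq_zero (Finset.mem_univ σ) (by rw [if_neg hσ])]
    positivity

end Pool.Agent.H211F52
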