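import Mathlib

/-!
# A kernel lemma for families of functions

For a family `F` of functions `V → X` (`V` finite) there is a set `S` of bounded size such that every member of
`F`, restricted to a suitable part of `V` which it maps into `S`, is the kernel of a large sunflower of members
of `F` whose petals avoid `S`.
-/

set_option autoImplicit false

namespace Pool.Agent.H211F52

open Finset Classical

section Kernel

variable {V : Type} {X : Type}

/-- `ψ` has a restriction with values in `S` which is the kernel of a sunflower with `D` petals in `F`,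
the petals avoiding `S`. -/
def Good (F : Set (V → X)) (S : Finset X) (D : ℕ) (ψ : V → X) : Prop :=
  ∃ A : Finset V, (∀ a ∈ A, ψ a ∈ S) ∧ ∃ Ψ : Fin D → V → X,
    (∀ j, Ψ j ∈ F) ∧ (∀ j, ∀ a ∈ A, Ψ j a = ψ a) ∧ (∀ j, ∀ f ∉ A, Ψ j f ∉ S) ∧
    (∀ j j', j ≠ j' → ∀ f ∉ A, ∀ f' ∉ A, Ψ j f ≠ Ψ j' f')

/-- Among functions with pairwise disjoint petals, all but `|Z|` have petals that avoid `Z`. -/
lemma exists_avoiding {D0 D : ℕ} (P : V → Prop) (Ψ : Fin D0 → V → X)
    (h : ∀ j j', j ≠ j' → ∀ f, P f → ∀ f', P f' → Ψ j f ≠ Ψ j' f') (Z : Finset X)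
    (hD : D + Z.card ≤ D0) : ∃ e : Fin D ↪ Fin D0, ∀ j, ∀ f, P f → Ψ (e j) f ∉ Z := by
  set bad : Finset (Fin D0) := univ.filter (fun j => ∃ f, P f ∧ Ψ j f ∈ Z) with hbad
  have hb : bad.card ≤ Z.card := by
    rcases isEmpty_or_nonempty V with hV | hV
    · have : bad = ∅ := by
        rw [hbad]
        exact Finset.filter_eq_empty_iff.mpr (fun j _ ⟨f, _⟩ => hV.elim f)
      rw [this]; simp
    have hex : ∀ j ∈ bad, ∃ f, P f ∧ Ψ j f ∈ Z := by
      intro j hj; simpa [hbad] using hj
    choose! g hg using hex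
    refine Finset.card_le_card_of_injOn (fun j => Ψ j (g j)) (fun j hj => (hg j hj).2) ?_
    intro j hj j' hj' heq
    by_contra hne
    exact h j j' hne _ (hg j hj).1 _ (hg j' hj').1 heq
  have hgood : D ≤ (univ \ bad).card := by
    have := Finset.card_sdiff_add_card_eq_card (Finset.subset_univ bad)
    simp only [Finset.card_univ, Fintype.card_fin] at this
    omega
  obtain ⟨T, hT, hTc⟩ := Finset.exists_subset_card_eq hgood
  refine ⟨(T.orderEmbOfFin hTc).toEmbedding, fun j f hf hmem => ?_⟩
  have h1 : T.orderEmbOfFin hTc j ∈ T := Finset.orderEmbOfFin_mem T hTc j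
  have h2 := hT h1
  simp only [hbad, Finset.mem_sdiff, Finset.mem_univ, true_and, Finset.mem_filter, not_exists, not_and] at h2
  exact h2 f hf hmem

lemma Good.mono {F : Set (V → X)} {S : Finset X} {D D' : ℕ} {ψ : V → X} (h : Good F S D ψ) (hD : D' ≤ D) :
    Good F S D' ψ := by
  obtain ⟨A, hA, Ψ, h1, h2, h3, h4⟩ := h
  refine ⟨A, hA, fun j => Ψ (Fin.castLE hD j), fun j => h1 _, fun j => h2 _, fun j => h3 _, ?_⟩
  intro j j' hne
  exact h4 _ _ (fun hh => hne (Fin.castLE_injective hD hh))

lemma Good.enlarge {F : Set (V → X)} {S S' : Finset X} {D : ℕ} {ψ : V → X}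
    (h : Good F S (D + S'.card) ψ) (hS : S ⊆ S') : Good F S' D ψ := by
  obtain ⟨A, hA, Ψ, h1, h2, h3, h4⟩ := h
  obtain ⟨e, he⟩ := exists_avoiding (D := D) (fun f => f ∉ A) Ψ (fun j j' hne f hf f' hf' => h4 j j' hne f hf f' hf')
    S' le_rfl
  refine ⟨A, fun a ha => hS (hA a ha), fun j => Ψ (e j), fun j => h1 _, fun j => h2 _, fun j f hf => he j f hf, ?_⟩
  intro j j' hne
  exact h4 _ _ (fun hh => hne (e.injective hh))

/-- The members `ψ` of `F` that take the values prescribed by `α` and leave `S0` elsewhere. -/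
def Mem (F : Set (V → X)) (S0 : Finset X) (α : V → Option S0) (ψ : V → X) : Prop :=
  ψ ∈ F ∧ ∀ v, (∀ s, α v = some s → ψ v = s) ∧ (α v = none → ψ v ∉ S0)

/-- There are `c` such members with pairwise disjoint petals. -/
def Ab (F : Set (V → X)) (S0 : Finset X) (α : V → Option S0) (c : ℕ) : Prop :=
  ∃ Ψ : Fin c → V → X, (∀ j, Mem F S0 α (Ψ j)) ∧
    ∀ j j', j ≠ j' → ∀ f, α f = none → ∀ f', α f' = none → Ψ j f ≠ Ψ j' f'

lemma Ab.mono {F : Set (V → X)} {S0 : Finset X} {α : V → Option S0} {c c' : ℕ} (h : Ab F S0 α c) (hc : c' ≤ c) :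
    Ab F S0 α c' := by
  obtain ⟨Ψ, h1, h2⟩ := h
  exact ⟨fun j => Ψ (Fin.castLE hc j), fun j => h1 _, fun j j' hne =>
    h2 _ _ (fun hh => hne (Fin.castLE_injective hc hh))⟩

/-- The restriction of `ψ` to the preimage of `S0`. -/
noncomputable def restr (S0 : Finset X) (ψ : V → X) : V → Option S0 :=
  fun v => if h : ψ v ∈ S0 then some ⟨ψ v, h⟩ else none

lemma mem_restr {F : Set (V → X)} {S0 : Finset X} {ψ : V → X} (h : ψ ∈ F) : Mem F S0 (restr S0 ψ) ψ := by
  refine ⟨h, fun v => ⟨fun s hs => ?_, fun hn => ?_⟩⟩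
  · unfold restr at hs
    split_ifs at hs with h1
    · simp only [Option.some.injEq] at hs
      rw [← hs]
  · unfold restr at hn
    split_ifs at hn with h1
    exact h1

lemma Ab.good [Fintype V] {F : Set (V → X)} {S0 : Finset X} {ψ : V → X} {c : ℕ}
    (h : Ab F S0 (restr S0 ψ) c) : Good F S0 c ψ := by
  obtain ⟨Ψ, h1, h2⟩ := h
  have hr : ∀ v, restr S0 ψ v = none ↔ ψ v ∉ S0 := by
    intro v; unfold restr; split_ifs with h <;> simp [h]
  refine ⟨univ.filter (fun v => ψ v ∈ S0), fun a ha => (Finset.mem_filter.mp ha).2, Ψ, fun j => (h1 j).1, ?_, ?_, ?_⟩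
  · intro j a ha
    have ha' := (Finset.mem_filter.mp ha).2
    have : restr S0 ψ a = some ⟨ψ a, ha'⟩ := by unfold restr; rw [dif_pos ha']
    exact ((h1 j).2 a).1 _ this
  · intro j f hf
    have hf' : ψ f ∉ S0 := fun hh => hf (Finset.mem_filter.mpr ⟨Finset.mem_univ _, hh⟩)
    exact ((h1 j).2 f).2 ((hr f).mpr hf')
  · intro j j' hne f hf f' hf'
    have hf1 : ψ f ∉ S0 := fun hh => hf (Finset.mem_filter.mpr ⟨Finset.mem_univ _, hh⟩)
    have hf2 : ψ f' ∉ S0 := fun hh => hf' (Finset.mem_filter.mpr ⟨Finset.mem_univ _, hh⟩)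
    exact h2 j j' hne f ((hr f).mpr hf1) f' ((hr f').mpr hf2)

/-- If `α` is rare there is a small set that meets every nonempty petal. -/
lemma exists_hitting [Fintype V] {F : Set (V → X)} {S0 : Finset X} {α : V → Option S0} {c : ℕ}
    (h : ¬ Ab F S0 α c) : ∃ P : Finset X, P.card ≤ c * Fintype.card V ∧
      ∀ ψ, Mem F S0 α ψ → (∃ f, α f = none) → ∃ f, α f = none ∧ ψ f ∈ P := by
  have h0 : Ab F S0 α 0 := ⟨fun j => j.elim0, fun j => j.elim0, fun j => j.elim0⟩
  have hex : ∃ c', ¬ Ab F S0 α c' := ⟨c, h⟩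
  set c1 := Nat.find hex with hc1
  have hc1' : ¬ Ab F S0 α c1 := Nat.find_spec hex
  have hle : c1 ≤ c := Nat.find_min' hex h
  obtain ⟨c2, hc2⟩ : ∃ c2, c1 = c2 + 1 := by
    cases hcc : c1 with
    | zero => rw [hcc] at hc1'; exact absurd h0 hc1'
    | succ n => exact ⟨n, rfl⟩
  have hAb : Ab F S0 α c2 := by
    by_contra hcon
    have := Nat.find_min' hex hcon
    omega
  obtain ⟨Ψ, h1, h2⟩ := hAb
  refine ⟨(univ : Finset (Fin c2 × V)).image (fun p => Ψ p.1 p.2), ?_, ?_⟩
  · refine le_trans Finset.card_image_le ?_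
    simp only [Finset.card_univ, Fintype.card_prod, Fintype.card_fin]
    exact Nat.mul_le_mul_right _ (by omega)
  · intro ψ hψ hne
    by_contra hcon
    push Not at hcon
    apply hc1'
    rw [hc2]
    refine ⟨Fin.cons ψ Ψ, ?_, ?_⟩
    · intro j
      refine Fin.cases ?_ (fun i => ?_) j
      · simpa using hψ
      · simpa using h1 i
    · intro j j'
      refine Fin.cases ?_ (fun i => ?_) j
      · refine Fin.cases ?_ (fun i' => ?_) j'
        · intro hh; exact absurd rfl hh
        · intro _ f hf f' hf' heq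
          simp only [Fin.cons_zero, Fin.cons_succ] at heq
          exact hcon f hf (Finset.mem_image.mpr ⟨(i', f'), Finset.mem_univ _, heq.symm⟩)
      · refine Fin.cases ?_ (fun i' => ?_) j'
        · intro _ f hf f' hf' heq
          simp only [Fin.cons_zero, Fin.cons_succ] at heq
          exact hcon f' hf' (Finset.mem_image.mpr ⟨(i, f), Finset.mem_univ _, heq⟩)
        · intro hh f hf f' hf'
          simp only [Fin.cons_succ]
          exact h2 i i' (fun h => hh (by rw [h])) f hf f' hf'

/-- Pigeonhole for monotone predicates: some interval of a chain of thresholds contains no threshold of `α`. -/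
lemma exists_gap {ι : Type} [Fintype ι] (Q : ι → ℕ → Prop) (hQ : ∀ a c c', Q a c → c' ≤ c → Q a c')
    (c : ℕ → ℕ) (hc : Monotone c) (N : ℕ) (hN : Fintype.card ι ≤ N) :
    ∃ j ≤ N, ∀ a, Q a (c j) → Q a (c (j + 1)) := by
  by_contra hcon
  push Not at hcon
  choose f hf1 hf2 using hcon
  have hle : ∀ j : Fin (N + 1), (j : ℕ) ≤ N := fun j => by omega
  have hinj : Function.Injective (fun j : Fin (N + 1) => f j (hle j)) := by
    intro j j' heq
    by_contra hne
    rcases lt_or_gt_of_ne hne with hlt | hlt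
    · have h1 := hf1 j' (hle j')
      have h2 := hf2 j (hle j)
      simp only at heq
      rw [← heq] at h1
      exact h2 (hQ _ _ _ h1 (hc (by omega)))
    · have h1 := hf1 j (hle j)
      have h2 := hf2 j' (hle j')
      simp only at heq
      rw [heq] at h1
      exact h2 (hQ _ _ _ h1 (hc (by omega)))
  have := Fintype.card_le_of_injective _ hinj
  simp only [Fintype.card_fin] at this
  omega

theorem kernel_lemma_aux (V : Type) [Fintype V] (Θ : ℕ → ℕ) : ∀ k s : ℕ, ∃ B D : ℕ,
    ∀ (X : Type) (F : Set (V → X)) (S0 : Finset X), S0.card ≤ s →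
      (∀ ψ ∈ F, (univ.filter (fun v => ψ v ∉ S0)).card ≤ k ∨ Good F S0 D ψ) →
      ∃ S : Finset X, S0 ⊆ S ∧ S.card ≤ B ∧ ∀ ψ ∈ F, Good F S (Θ S.card) ψ := by
  intro k
  induction k with
  | zero =>
    intro s
    refine ⟨s, (Finset.range (s + 1)).sup Θ, ?_⟩
    intro X F S0 hS0 hF
    refine ⟨S0, le_rfl, hS0, fun ψ hψ => ?_⟩
    have hle : Θ S0.card ≤ (Finset.range (s + 1)).sup Θ :=
      Finset.le_sup (f := Θ) (Finset.mem_range.mpr (by omega))
    rcases hF ψ hψ with h | h
    · have h0 : ∀ v, ψ v ∈ S0 := by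
        intro v
        by_contra hv
        have : v ∈ univ.filter (fun v => ψ v ∉ S0) := by simp [hv]
        have := Finset.card_pos.mpr ⟨v, this⟩
        omega
      exact ⟨univ, fun a _ => h0 a, fun _ => ψ, fun _ => hψ, fun _ _ _ => rfl,
        fun _ f hf => absurd (Finset.mem_univ f) hf, fun _ _ _ f hf => absurd (Finset.mem_univ f) hf⟩
    · exact h.mono hle
  | succ k ih =>
    intro s
    choose BB DD hBD using ih
    set m := Fintype.card V with hm
    set N := (s + 1) ^ m with hN
    -- `g c` bounds the size of the enlarged set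
    set g : ℕ → ℕ := fun c => s + N * (c * m) with hg
    -- thresholds
    let c : ℕ → ℕ := fun j => Nat.rec 0 (fun _ x => (DD (g x) + g x) + x) j
    have hc_succ : ∀ j, c (j + 1) = (DD (g (c j)) + g (c j)) + c j := fun j => rfl
    have hc_mono : Monotone c := monotone_nat_of_le_succ (fun j => by rw [hc_succ]; omega)
    refine ⟨(Finset.range (N + 1)).sup (fun j => BB (g (c j))), c (N + 1), ?_⟩
    intro X F S0 hS0 hF
    have hcard : Fintype.card (V → Option S0) ≤ N := by
      rw [Fintype.card_fun, Fintype.card_option, Fintype.card_coe, hN]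
      exact Nat.pow_le_pow_left (by omega) _
    obtain ⟨j, hjN, hj⟩ := exists_gap (fun α : V → Option S0 => Ab F S0 α) (fun α c c' h hc => h.mono hc) c hc_mono N
      hcard
    -- hitting sets
    have hhit : ∀ α : V → Option S0, ∃ P : Finset X, P.card ≤ c j * m ∧
        (¬ Ab F S0 α (c j) → ∀ ψ, Mem F S0 α ψ → (∃ f, α f = none) → ∃ f, α f = none ∧ ψ f ∈ P) := by
      intro α
      by_cases h : Ab F S0 α (c j)
      · exact ⟨∅, by simp, fun hh => absurd h hh⟩
      · obtain ⟨P, hP1, hP2⟩ := exists_hitting h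
        exact ⟨P, hP1, fun _ => hP2⟩
    choose P hP1 hP2 using hhit
    set S1 : Finset X := S0 ∪ univ.biUnion P with hS1
    have hS1card : S1.card ≤ g (c j) := by
      calc S1.card ≤ S0.card + (univ.biUnion P).card := Finset.card_union_le _ _
        _ ≤ s + ∑ α : V → Option S0, (P α).card := Nat.add_le_add hS0 Finset.card_biUnion_le
        _ ≤ s + ∑ α : V → Option S0, c j * m := Nat.add_le_add_left (Finset.sum_le_sum fun α _ => hP1 α) _
        _ = s + Fintype.card (V → Option S0) * (c j * m) := by rw [Finset.sum_const, Finset.card_univ, smul_eq_mul]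
        _ ≤ s + N * (c j * m) := Nat.add_le_add_left (Nat.mul_le_mul_right _ hcard) _
    have hS01 : S0 ⊆ S1 := Finset.subset_union_left
    have hcond : ∀ ψ ∈ F, (univ.filter (fun v => ψ v ∉ S1)).card ≤ k ∨ Good F S1 (DD (g (c j))) ψ := by
      intro ψ hψ
      have key : Good F S0 (c (j + 1)) ψ → Good F S1 (DD (g (c j))) ψ := by
        intro h
        apply Good.enlarge (S := S0) _ hS01
        apply h.mono
        rw [hc_succ]
        omega
      rcases hF ψ hψ with h | h
      · by_cases hab : Ab F S0 (restr S0 ψ) (c j)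
        · right
          exact key (hj _ hab).good
        · left
          by_cases hne : ∃ f, restr S0 ψ f = none
          · obtain ⟨f, hf1, hf2⟩ := hP2 _ hab ψ (mem_restr hψ) hne
            have hfS0 : ψ f ∉ S0 := ((mem_restr (S0 := S0) hψ).2 f).2 hf1
            have hfS1 : ψ f ∈ S1 := Finset.mem_union_right _ (Finset.mem_biUnion.mpr ⟨_, Finset.mem_univ _, hf2⟩)
            have hlt : (univ.filter (fun v => ψ v ∉ S1)).card < (univ.filter (fun v => ψ v ∉ S0)).card := by
              apply Finset.card_lt_card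
              refine ⟨fun v hv => ?_, fun hsub => ?_⟩
              · simp only [Finset.mem_filter, Finset.mem_univ, true_and] at hv ⊢
                exact fun hh => hv (hS01 hh)
              · have : f ∈ univ.filter (fun v => ψ v ∉ S0) := by simp [hfS0]
                have := hsub this
                simp only [Finset.mem_filter, Finset.mem_univ, true_and] at this
                exact this hfS1
            omega
          · push Not at hne
            have : univ.filter (fun v => ψ v ∉ S1) = ∅ := by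
              apply Finset.filter_eq_empty_iff.mpr
              intro v _ hv
              have h1 := hne v
              have : ψ v ∈ S0 := by
                by_contra hcon
                apply h1
                unfold restr
                rw [dif_neg hcon]
              exact hv (hS01 this)
            rw [this]
            simp
      · right
        have hj1 : j + 1 ≤ N + 1 := by omega
        exact key (h.mono (hc_mono hj1))
    obtain ⟨S, hS1S, hScard, hS⟩ := hBD (g (c j)) X F S1 hS1card hcond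
    refine ⟨S, hS01.trans hS1S, hScard.trans ?_, hS⟩
    exact Finset.le_sup (f := fun j => BB (g (c j))) (Finset.mem_range.mpr (by omega))

/-- **Kernel lemma.** -/
theorem kernel_lemma (V : Type) [Fintype V] (Θ : ℕ → ℕ) : ∃ B : ℕ, ∀ (X : Type) (F : Set (V → X)),
    ∃ S : Finset X, S.card ≤ B ∧ ∀ ψ ∈ F, Good F S (Θ S.card) ψ := by
  obtain ⟨B, D, h⟩ := kernel_lemma_aux V Θ (Fintype.card V) 0
  refine ⟨B, fun X F => ?_⟩
  obtain ⟨S, _, hS1, hS2⟩ := h X F ∅ (by simp) (fun ψ _ => Or.inl (Finset.card_le_univ _))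
  exact ⟨S, hS1, hS2⟩

end Kernel

end Pool.Agent.H211F52
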