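import Mathlib
import Pool.Agent.H211F52.Kernel
import Pool.Agent.H211F52.Blow

/-!
# The bounded kernel theorem for pure binomial inequalities

For a fixed graph `G1`, every graph `G2` with `t(G1, W) ≥ t(G2, W)` for all `W` has a subgraph of bounded size
with the same property.
-/

set_option autoImplicit false

namespace Pool.Agent.H211F52

open Finset Classical

/-- `f` is a homomorphism from `G` to `W`. -/
def IsHom {V Ω : Type} (G : SimpleGraph V) (W : SimpleGraph Ω) (f : V → Ω) : Prop :=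
  ∀ i j, G.Adj i j → W.Adj (f i) (f j)

/-- The indicator of a proposition. -/
noncomputable def ind (p : Prop) : ℝ := if p then 1 else 0

lemma ind_nonneg (p : Prop) : 0 ≤ ind p := by unfold ind; split_ifs <;> norm_num
lemma ind_le_one (p : Prop) : ind p ≤ 1 := by unfold ind; split_ifs <;> norm_num
lemma ind_mono {p q : Prop} (h : p → q) : ind p ≤ ind q := by
  unfold ind; split_ifs with h1 h2
  · exact le_rfl
  · exact absurd (h h1) h2
  · norm_num
  · exact le_rfl
lemma ind_true {p : Prop} (h : p) : ind p = 1 := by unfold ind; rw [if_pos h]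
lemma ind_false {p : Prop} (h : ¬ p) : ind p = 0 := by unfold ind; rw [if_neg h]
lemma ind_and (p q : Prop) : ind (p ∧ q) = ind p * ind q := by
  unfold ind; by_cases h1 : p <;> by_cases h2 : q <;> simp [h1, h2]
lemma ind_congr {p q : Prop} (h : p ↔ q) : ind p = ind q := by rw [propext h]
lemma ind_forall {ι : Type} [Fintype ι] (p : ι → Prop) : ind (∀ i, p i) = ∏ i, ind (p i) := by
  by_cases h : ∀ i, p i
  · rw [ind_true h, Finset.prod_eq_one (fun i _ => ind_true (h i))]
  · rw [ind_false h]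
    push Not at h
    obtain ⟨i, hi⟩ := h
    rw [Finset.prod_eq_zero (Finset.mem_univ i) (ind_false hi)]

/-- The homomorphism density. -/
noncomputable def t {V Ω : Type} (G : SimpleGraph V) (W : SimpleGraph Ω) : ℝ :=
  av (fun f : V → Ω => ind (IsHom G W f))

/-- `G1 - G2 ≥ 0` is a valid inequality. -/
def Valid {V X : Type} (G1 : SimpleGraph V) (G2 : SimpleGraph X) : Prop :=
  ∀ (k : ℕ) (W : SimpleGraph (Fin (k + 1))), t G2 W ≤ t G1 W

section basics

variable {V X Ω : Type} [Fintype V] [Fintype X] [Fintype Ω]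

lemma t_nonneg (G : SimpleGraph V) (W : SimpleGraph Ω) : 0 ≤ t G W := av_nonneg fun _ => ind_nonneg _

lemma t_le_one [Nonempty Ω] (G : SimpleGraph V) (W : SimpleGraph Ω) : t G W ≤ 1 := av_le_one fun _ => ind_le_one _

lemma t_target_iso {Ω' : Type} [Fintype Ω'] (G : SimpleGraph V) (W : SimpleGraph Ω) (e : Ω' ≃ Ω) :
    t G (W.comap e) = t G W := by
  unfold t
  rw [← av_equiv (Equiv.arrowCongr (Equiv.refl V) e)]
  rfl

lemma Valid.le {G1 : SimpleGraph V} {G2 : SimpleGraph X} (h : Valid G1 G2) [Nonempty Ω] (W : SimpleGraph Ω) :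
    t G2 W ≤ t G1 W := by
  obtain ⟨k, hk⟩ : ∃ k, Fintype.card Ω = k + 1 := ⟨Fintype.card Ω - 1, by have := Fintype.card_pos (α := Ω); omega⟩
  let e : Fin (k + 1) ≃ Ω := (Fintype.equivFinOfCardEq hk).symm
  have := h k (W.comap e)
  rwa [t_target_iso, t_target_iso] at this

/-- Tensor powers. -/
def pw (W : SimpleGraph Ω) (k : ℕ) : SimpleGraph (Fin (k + 1) → Ω) where
  Adj x y := ∀ i, W.Adj (x i) (y i)
  symm := ⟨fun _ _ h i => (h i).symm⟩
  loopless := ⟨fun _ h => (h 0).ne rfl⟩

lemma av_swap {I T : Type} [Fintype I] [Fintype T] (F : (I → V → T) → ℝ) :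
    av (fun f : V → I → T => F (fun i v => f v i)) = av F := by
  exact av_equiv (Equiv.piComm (fun (_ : V) (_ : I) => T)) F

lemma t_pw (G : SimpleGraph V) (W : SimpleGraph Ω) (k : ℕ) : t G (pw W k) = t G W ^ (k + 1) := by
  unfold t
  rw [← av_fin_pow, ← av_swap]
  congr 1
  funext f
  rw [← ind_forall]
  apply ind_congr
  constructor
  · intro h i a b hab
    exact h a b hab i
  · intro h a b hab i
    exact h i a b hab

lemma le_of_pow_le {a b C : ℝ} (ha : 0 ≤ a) (hb : 0 ≤ b) (h : ∀ k : ℕ, a ^ (k + 1) ≤ C * b ^ (k + 1)) :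
    a ≤ b := by
  by_contra hlt
  push Not at hlt
  have ha' : 0 < a := lt_of_le_of_lt hb hlt
  have hr1 : b / a < 1 := (div_lt_one ha').mpr hlt
  have hr0 : 0 ≤ b / a := div_nonneg hb ha
  have hlim : Filter.Tendsto (fun k : ℕ => C * (b / a) ^ (k + 1)) Filter.atTop (nhds (C * 0)) :=
    ((tendsto_pow_atTop_nhds_zero_of_lt_one hr0 hr1).comp (Filter.tendsto_add_atTop_nat 1)).const_mul C
  rw [mul_zero] at hlim
  have h1 : ∀ k : ℕ, (1 : ℝ) ≤ C * (b / a) ^ (k + 1) := by
    intro k
    have := h k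
    rw [div_pow, ← mul_div_assoc, le_div_iff₀ (pow_pos ha' _), one_mul]
    exact this
  have := ge_of_tendsto' hlim h1
  linarith

lemma valid_of_le {G1 : SimpleGraph V} {G : SimpleGraph X} (C : ℝ)
    (h : ∀ (Ω : Type) [Fintype Ω] [Nonempty Ω] (W : SimpleGraph Ω), t G W ≤ C * t G1 W) : Valid G1 G := by
  intro n W
  apply le_of_pow_le (C := C) (t_nonneg _ _) (t_nonneg _ _)
  intro k
  have := h _ (pw W k)
  rwa [t_pw, t_pw] at this

end basics

/-! ### The structure over `G2` -/

section pull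

variable {V X Ω : Type} [Fintype V] [Fintype X] [Fintype Ω]

/-- The graph on `X × Ω^k` built from `G2`, `W` and the sets `Vs`. -/
def big (G2 : SimpleGraph X) (W : SimpleGraph Ω) (S : Finset X) (Vs : X → Set Ω) (k : ℕ) :
    SimpleGraph (X × (Fin k → Ω)) where
  Adj p q := G2.Adj p.1 q.1 ∧ (p.1 ∈ S → ∀ i, p.2 i ∈ Vs p.1) ∧ (q.1 ∈ S → ∀ i, q.2 i ∈ Vs q.1) ∧
    (p.1 ∈ S → q.1 ∈ S → ∀ i, W.Adj (p.2 i) (q.2 i))
  symm := ⟨fun _ _ h => ⟨h.1.symm, h.2.2.1, h.2.1, fun a b i => (h.2.2.2 b a i).symm⟩⟩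
  loopless := ⟨fun _ h => h.1.ne rfl⟩

/-- Constraint on the part of `G2` in `S`. -/
def C0 (G2 : SimpleGraph X) (W : SimpleGraph Ω) (S : Finset X) (x : X → Ω) : Prop :=
  ∀ s ∈ S, ∀ s' ∈ S, G2.Adj s s' → W.Adj (x s) (x s')

/-- Constraint on the part of `G1` on which `κ` is defined. -/
def MC {S : Finset X} (G1 : SimpleGraph V) (W : SimpleGraph Ω) (Vs : X → Set Ω) (κ : V → Option S)
    (x : V → Ω) : Prop :=
  (∀ a s b, κ a = some s → G1.Adj a b → x a ∈ Vs s) ∧
    ∀ a a', κ a ≠ none → κ a' ≠ none → G1.Adj a a' → W.Adj (x a) (x a')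

lemma av_pair {A B T : Type} [Fintype A] [Fintype B] [Fintype T] (F : (A → B) → (A → T) → ℝ) :
    av (fun φ : A → B × T => F (fun a => (φ a).1) (fun a => (φ a).2)) = av (fun τ => av (fun x => F τ x)) := by
  rw [← av_prod (fun p : (A → B) × (A → T) => F p.1 p.2)]
  exact av_equiv (Equiv.arrowProdEquivProdArrow A (fun _ => B) (fun _ => T))
    (fun p : (A → B) × (A → T) => F p.1 p.2)

lemma single_le_av {α : Type} [Fintype α] {f : α → ℝ} (h : ∀ a, 0 ≤ f a) (a : α) :
    f a / Fintype.card α ≤ av f := by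
  rw [av_eq]
  exact div_le_div_of_nonneg_right (Finset.single_le_sum (f := f) (fun b _ => h b) (Finset.mem_univ a))
    (Nat.cast_nonneg _)

theorem pull {J : Type} [Fintype J] [Nonempty X] [Nonempty Ω] {G1 : SimpleGraph V} {G2 : SimpleGraph X}
    (hv : Valid G1 G2) (W : SimpleGraph Ω) (S : Finset X) (Vs : X → Set Ω) (κ : J → V → Option S)
    (hκ : ∀ ψ, IsHom G1 G2 ψ → ∃ j, ∀ v s, κ j v = some s → ψ v = s) :
    av (fun x : X → Ω => ind (C0 G2 W S x ∧ ∀ s ∈ S, x s ∈ Vs s)) ≤
      ∑ j, av (fun x : V → Ω => ind (MC G1 W Vs (κ j) x)) := by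
  set N := av (fun x : X → Ω => ind (C0 G2 W S x ∧ ∀ s ∈ S, x s ∈ Vs s)) with hN
  set M : J → ℝ := fun j => av (fun x : V → Ω => ind (MC G1 W Vs (κ j) x)) with hM
  have hM0 : ∀ j, 0 ≤ M j := fun j => av_nonneg fun _ => ind_nonneg _
  have hR0 : 0 ≤ ∑ j, M j := Finset.sum_nonneg fun j _ => hM0 j
  have hN0 : 0 ≤ N := av_nonneg fun _ => ind_nonneg _
  set C : ℝ := (Fintype.card (X → X) : ℝ) with hC
  have hCpos : 0 < C := by
    rw [hC]; exact_mod_cast Fintype.card_pos
  apply le_of_pow_le (C := C) hN0 hR0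
  intro k
  have hval := hv.le (big G2 W S Vs (k + 1))
  -- lower bound for `G2`
  have hlow : N ^ (k + 1) / C ≤ t G2 (big G2 W S Vs (k + 1)) := by
    have h1 : t G2 (big G2 W S Vs (k + 1)) = av (fun τ : X → X => av (fun x : X → Fin (k + 1) → Ω =>
        ind (IsHom G2 (big G2 W S Vs (k + 1)) (fun v => (τ v, x v))))) :=
      av_pair (fun (τ : X → X) (x : X → Fin (k + 1) → Ω) =>
        ind (IsHom G2 (big G2 W S Vs (k + 1)) (fun v => (τ v, x v))))
    rw [h1]
    refine le_trans ?_ (single_le_av (fun τ => av_nonneg fun _ => ind_nonneg _) id)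
    apply div_le_div_of_nonneg_right _ hCpos.le
    rw [hN, ← av_fin_pow, ← av_swap]
    apply av_mono
    intro f
    rw [← ind_forall]
    apply ind_mono
    intro h v w hvw
    refine ⟨hvw, fun hs i => (h i).2 v hs, fun hs i => (h i).2 w hs, fun hs hs' i => (h i).1 v hs w hs' hvw⟩
  -- upper bound for `G1`
  have hup : t G1 (big G2 W S Vs (k + 1)) ≤ (∑ j, M j) ^ (k + 1) := by
    have h1 : t G1 (big G2 W S Vs (k + 1)) = av (fun ψ : V → X => av (fun x : V → Fin (k + 1) → Ω =>
        ind (IsHom G1 (big G2 W S Vs (k + 1)) (fun v => (ψ v, x v))))) :=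
      av_pair (fun (ψ : V → X) (x : V → Fin (k + 1) → Ω) =>
        ind (IsHom G1 (big G2 W S Vs (k + 1)) (fun v => (ψ v, x v))))
    rw [h1]
    have h2 : ∀ ψ : V → X, av (fun x : V → Fin (k + 1) → Ω =>
        ind (IsHom G1 (big G2 W S Vs (k + 1)) (fun v => (ψ v, x v)))) ≤ (∑ j, M j) ^ (k + 1) := by
      intro ψ
      by_cases hψ : IsHom G1 G2 ψ
      · obtain ⟨j, hj⟩ := hκ ψ hψ
        have h3 : av (fun x : V → Fin (k + 1) → Ω =>
            ind (IsHom G1 (big G2 W S Vs (k + 1)) (fun v => (ψ v, x v)))) ≤ M j ^ (k + 1) := by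
          rw [hM]
          simp only
          rw [← av_fin_pow, ← av_swap]
          apply av_mono
          intro f
          rw [← ind_forall]
          apply ind_mono
          intro h i
          refine ⟨fun a s b ha hab => ?_, fun a a' ha ha' haa' => ?_⟩
          · have h4 := (h a b hab).2.1
            simp only at h4
            rw [hj a s ha] at h4
            exact h4 s.2 i
          · obtain ⟨s, hs⟩ := Option.ne_none_iff_exists'.mp ha
            obtain ⟨s', hs'⟩ := Option.ne_none_iff_exists'.mp ha'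
            have h4 := (h a a' haa').2.2.2
            simp only at h4
            rw [hj a s hs, hj a' s' hs'] at h4
            exact h4 s.2 s'.2 i
        exact h3.trans (pow_le_pow_left₀ (hM0 j) (Finset.single_le_sum (f := M) (fun j _ => hM0 j) (Finset.mem_univ j)) _)
      · have h3 : ∀ x : V → Fin (k + 1) → Ω,
            ind (IsHom G1 (big G2 W S Vs (k + 1)) (fun v => (ψ v, x v))) = 0 := by
          intro x
          apply ind_false
          intro h
          exact hψ fun a b hab => (h a b hab).1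
        simp only [h3]
        rw [av_const]
        positivity
    calc av (fun ψ : V → X => av (fun x : V → Fin (k + 1) → Ω =>
        ind (IsHom G1 (big G2 W S Vs (k + 1)) (fun v => (ψ v, x v))))) ≤ av (fun _ : V → X => (∑ j, M j) ^ (k + 1)) :=
          av_mono h2
      _ = (∑ j, M j) ^ (k + 1) := av_const _
  have h5 : N ^ (k + 1) / C ≤ (∑ j, M j) ^ (k + 1) := hlow.trans (hval.trans hup)
  rw [div_le_iff₀ hCpos] at h5
  linarith

end pull

end Pool.Agent.H211F52
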