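import Mathlib
import Pool.Agent.H211F52.Main

/-!
# The averaged form of the pull-back inequality
-/

set_option autoImplicit false

namespace Pool.Agent.H211F52

open Finset Classical

section

variable {V X Ω : Type} [Fintype V] [Fintype X] [Fintype Ω]

lemma av_eval {J T : Type} [Fintype J] [Fintype T] [Nonempty T] (j : J) (h : T → ℝ) :
    av (fun Z : J → T => h (Z j)) = av h := by
  have h1 := av_comp_injective (Ω := T) (A := Unit) (B := J) (fun _ => j) (fun _ _ _ => rfl)
    (fun z : Unit → T => h (z ()))
  have h2 : av (fun z : Unit → T => h (z ())) = av h :=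
    av_equiv (Equiv.funUnique Unit T) h
  rw [← h2, ← h1]
  rfl

/-- Independent choices merge. -/
lemma av_merge [Nonempty Ω] (p : V → Prop) [DecidablePred p] (h : (V → Ω) → ℝ) :
    av (fun z : V → Ω => av (fun x : V → Ω => h (fun v => if p v then z v else x v))) = av h := by
  let ι : V → V ⊕ V := fun v => if p v then Sum.inl v else Sum.inr v
  have hι : Function.Injective ι := by
    intro a b hab
    simp only [ι] at hab
    split_ifs at hab with h1 h2 h2
    · exact Sum.inl_injective hab
    · exact Sum.inr_injective hab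
  rw [← av_comp_injective ι hι h, av_sum_type]
  congr 1
  funext z
  congr 1
  funext x
  congr 1
  funext v
  simp only [ι, Function.comp]
  split_ifs <;> rfl

/-- The sets on which the vertices of `S` have to live. -/
def VS {J : Type} {S : Finset X} (G1 : SimpleGraph V) (W : SimpleGraph Ω) (κ : J → V → Option S)
    (z : J → V → Ω) (x : X) : Set Ω :=
  {w | ∀ j a f s, κ j a = some s → (s : X) = x → κ j f = none → G1.Adj a f → W.Adj w (z j f)}

/-- The edges inside the part where `κ` is undefined. -/
def IC {S : Finset X} (G1 : SimpleGraph V) (W : SimpleGraph Ω) (κ : V → Option S) (z : V → Ω) : Prop :=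
  ∀ f f', κ f = none → κ f' = none → G1.Adj f f' → W.Adj (z f) (z f')

/-- The edges between the two parts. -/
def BC {S : Finset X} (G1 : SimpleGraph V) (W : SimpleGraph Ω) (κ : V → Option S) (x : X → Ω) (z : V → Ω) : Prop :=
  ∀ a f s, κ a = some s → κ f = none → G1.Adj a f → W.Adj (x s) (z f)

/-- The density of petals over `x`. -/
noncomputable def qq {S : Finset X} (G1 : SimpleGraph V) (W : SimpleGraph Ω) (κ : V → Option S) (x : X → Ω) : ℝ :=
  av (fun z : V → Ω => ind (IC G1 W κ z ∧ BC G1 W κ x z))

theorem pullA {J : Type} [Fintype J] [Nonempty X] [Nonempty Ω] {G1 : SimpleGraph V} {G2 : SimpleGraph X}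
    (hv : Valid G1 G2) (W : SimpleGraph Ω) (S : Finset X) (κ : J → V → Option S)
    (hκ : ∀ ψ, IsHom G1 G2 ψ → ∃ j, ∀ v s, κ j v = some s → ψ v = s) :
    av (fun x : X → Ω => ind (C0 G2 W S x) * ∏ j, qq G1 W (κ j) x) ≤ Fintype.card J * t G1 W := by
  have hpull := fun z : J → V → Ω => pull hv W S (VS G1 W κ z) κ hκ
  have hmul : ∀ z : J → V → Ω,
      (∏ j, ind (IC G1 W (κ j) (z j))) *
        av (fun x : X → Ω => ind (C0 G2 W S x ∧ ∀ s ∈ S, x s ∈ VS G1 W κ z s)) ≤
      (∏ j, ind (IC G1 W (κ j) (z j))) *
        ∑ j, av (fun x : V → Ω => ind (MC G1 W (VS G1 W κ z) (κ j) x)) := fun z =>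
    mul_le_mul_of_nonneg_left (hpull z) (Finset.prod_nonneg fun j _ => ind_nonneg _)
  have hav := av_mono hmul
  -- the left hand side
  have hL : av (fun x : X → Ω => ind (C0 G2 W S x) * ∏ j, qq G1 W (κ j) x) =
      av (fun z : J → V → Ω => (∏ j, ind (IC G1 W (κ j) (z j))) *
        av (fun x : X → Ω => ind (C0 G2 W S x ∧ ∀ s ∈ S, x s ∈ VS G1 W κ z s))) := by
    have h1 : ∀ x : X → Ω, ∏ j, qq G1 W (κ j) x =
        av (fun z : J → V → Ω => ∏ j, ind (IC G1 W (κ j) (z j) ∧ BC G1 W (κ j) x (z j))) := by
      intro x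
      exact (av_pi (fun j (z : V → Ω) => ind (IC G1 W (κ j) z ∧ BC G1 W (κ j) x z))).symm
    simp only [h1, ← av_mul_left]
    rw [av_comm]
    congr 1
    funext z
    congr 1
    funext x
    rw [← ind_forall, ← ind_forall, ← ind_and, ← ind_and]
    apply ind_congr
    constructor
    · rintro ⟨h2, h3⟩
      refine ⟨fun j => (h3 j).1, h2, fun s hs j a f s' h4 h5 h6 h7 => ?_⟩
      have := (h3 j).2 a f s' h4 h6 h7
      rwa [h5] at this
    · rintro ⟨h2, h3, h4⟩
      refine ⟨h3, fun j => ⟨h2 j, fun a f s h5 h6 h7 => ?_⟩⟩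
      exact h4 s s.2 j a f s h5 rfl h6 h7
  -- the right hand side
  have hR : av (fun z : J → V → Ω => (∏ j, ind (IC G1 W (κ j) (z j))) *
        ∑ j, av (fun x : V → Ω => ind (MC G1 W (VS G1 W κ z) (κ j) x))) ≤ Fintype.card J * t G1 W := by
    have h1 : ∀ z : J → V → Ω, (∏ j, ind (IC G1 W (κ j) (z j))) *
        ∑ j, av (fun x : V → Ω => ind (MC G1 W (VS G1 W κ z) (κ j) x)) ≤
        ∑ j, av (fun x : V → Ω => ind (IsHom G1 W (fun v => if κ j v = none then z j v else x v))) := by
      intro z
      rw [Finset.mul_sum]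
      apply Finset.sum_le_sum
      intro j _
      rw [← ind_forall, ← av_mul_left]
      apply av_mono
      intro x
      rw [← ind_and]
      apply ind_mono
      rintro ⟨h2, h3, h4⟩
      intro a b hab
      by_cases ha : κ j a = none
      · by_cases hb : κ j b = none
        · simp only [ha, hb, if_true]
          exact h2 j a b ha hb hab
        · simp only [ha, hb, if_true, if_false]
          obtain ⟨s, hs⟩ := Option.ne_none_iff_exists'.mp hb
          exact ((h3 b s a hs hab.symm) j b a s hs rfl ha hab.symm).symm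
      · by_cases hb : κ j b = none
        · simp only [ha, hb, if_true, if_false]
          obtain ⟨s, hs⟩ := Option.ne_none_iff_exists'.mp ha
          exact (h3 a s b hs hab) j a b s hs rfl hb hab
        · simp only [ha, hb, if_false]
          exact h4 a b ha hb hab
    refine (av_mono h1).trans (le_of_eq ?_)
    rw [av_sum]
    have h2 : ∀ j, av (fun z : J → V → Ω =>
        av (fun x : V → Ω => ind (IsHom G1 W (fun v => if κ j v = none then z j v else x v)))) = t G1 W := by
      intro j
      rw [av_eval j (fun z : V → Ω => av (fun x : V → Ω =>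
        ind (IsHom G1 W (fun v => if κ j v = none then z v else x v))))]
      exact av_merge (fun v => κ j v = none) (fun x => ind (IsHom G1 W x))
    rw [Finset.sum_congr rfl (fun j _ => h2 j), Finset.sum_const, Finset.card_univ, nsmul_eq_mul]
  rw [hL]
  exact hav.trans hR

end

end Pool.Agent.H211F52
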