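import Mathlib
import Pool.Agent.H211F52.KerA

/-!
# Choosing disjoint petals and the subgraph on their union
-/

set_option autoImplicit false

namespace Pool.Agent.H211F52

open Finset Classical

/-- Greedy choice of `K` petals for each member of a finite family of sunflowers. -/
lemma select {V X J : Type} [Fintype V] [Fintype J] (K D : ℕ) (nn : J → V → Prop) (Ψ : J → Fin D → V → X)
    (hdis : ∀ κ j j', j ≠ j' → ∀ f, nn κ f → ∀ f', nn κ f' → Ψ κ j f ≠ Ψ κ j' f')
    (hD : K + Fintype.card J * (K * Fintype.card V) ≤ D) (T : Finset J) :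
    ∃ e : J → Fin K → Fin D, ∀ κ ∈ T, ∀ κ' ∈ T, ∀ i i', (κ, i) ≠ (κ', i') →
      ∀ f, nn κ f → ∀ f', nn κ' f' → Ψ κ (e κ i) f ≠ Ψ κ' (e κ' i') f' := by
  induction T using Finset.induction_on with
  | empty =>
    exact ⟨fun _ i => Fin.castLE (by omega) i, fun κ hκ => absurd hκ (Finset.notMem_empty _)⟩
  | insert κ T hκ ih =>
    obtain ⟨e, he⟩ := ih
    set Z : Finset X := (T ×ˢ (univ : Finset (Fin K × V))).image (fun p => Ψ p.1 (e p.1 p.2.1) p.2.2) with hZ
    have hZc : Z.card ≤ Fintype.card J * (K * Fintype.card V) := by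
      refine le_trans Finset.card_image_le ?_
      rw [Finset.card_product, Finset.card_univ, Fintype.card_prod, Fintype.card_fin]
      exact Nat.mul_le_mul_right _ (Finset.card_le_univ _)
    obtain ⟨e', he'⟩ := exists_avoiding (D := K) (nn κ) (Ψ κ) (hdis κ) Z (by omega)
    have hmem : ∀ κ' ∈ T, ∀ i' f', Ψ κ' (e κ' i') f' ∈ Z := fun κ' h i' f' =>
      Finset.mem_image.mpr ⟨(κ', i', f'), by simp [h], rfl⟩
    have hup1 : Function.update e κ e' κ = e' := Function.update_self _ _ _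
    have hup2 : ∀ κ' ∈ T, Function.update e κ e' κ' = e κ' := by
      intro κ' h
      apply Function.update_of_ne
      intro hh
      rw [hh] at h
      exact hκ h
    refine ⟨Function.update e κ e', ?_⟩
    intro κ1 h1 κ2 h2 i1 i2 hne f hf f' hf'
    rcases Finset.mem_insert.mp h1 with h1 | h1
    · subst h1
      rcases Finset.mem_insert.mp h2 with h2 | h2
      · subst h2
        rw [hup1]
        have hii : i1 ≠ i2 := fun h => hne (by rw [h])
        exact hdis _ _ _ (fun h => hii (e'.injective h)) f hf f' hf'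
      · rw [hup1, hup2 _ h2]
        intro heq
        apply he' i1 f hf
        rw [heq]
        exact hmem _ h2 _ _
    · rcases Finset.mem_insert.mp h2 with h2 | h2
      · subst h2
        rw [hup1, hup2 κ1 (by assumption)]
        intro heq
        apply he' i2 f' hf'
        rw [← heq]
        exact hmem κ1 (by assumption) _ _
      · rw [hup2 _ h1, hup2 _ h2]
        exact he _ h1 _ h2 i1 i2 hne f hf f' hf'

section

variable {V X Ω : Type} [Fintype V] [Fintype X] [Fintype Ω]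

/-- The petal of `Ψ`. -/
def Pet {S : Finset X} (κ : V → Option S) (Ψ : V → X) : Type := {u : X // ∃ f, κ f = none ∧ Ψ f = u}

noncomputable instance {S : Finset X} (κ : V → Option S) (Ψ : V → X) : Fintype (Pet κ Ψ) :=
  inferInstanceAs (Fintype {u : X // ∃ f, κ f = none ∧ Ψ f = u})

/-- The constraints on a petal. -/
def PC {S : Finset X} (G2 : SimpleGraph X) (W : SimpleGraph Ω) (κ : V → Option S) (Ψ : V → X) (x : X → Ω)
    (y : Pet κ Ψ → Ω) : Prop :=
  (∀ u u' : Pet κ Ψ, G2.Adj u.1 u'.1 → W.Adj (y u) (y u')) ∧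
    ∀ (u : Pet κ Ψ) (s : S), G2.Adj s u.1 → W.Adj (x s) (y u)

lemma card_Pet {S : Finset X} (κ : V → Option S) (Ψ : V → X) : Fintype.card (Pet κ Ψ) ≤ Fintype.card V := by
  have h : ∀ u : Pet κ Ψ, ∃ f, Ψ f = u.1 := fun u => by
    obtain ⟨f, _, h⟩ := u.2
    exact ⟨f, h⟩
  choose g hg using h
  exact Fintype.card_le_of_injective g (fun a b hab => Subtype.ext (by rw [← hg a, ← hg b, hab]))

lemma petal_le [Nonempty Ω] {G1 : SimpleGraph V} {G2 : SimpleGraph X} (W : SimpleGraph Ω) {S : Finset X}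
    (κ : V → Option S) (Ψ : V → X) (hΨ : IsHom G1 G2 Ψ) (hs : ∀ a s, κ a = some s → Ψ a = s) (x : X → Ω) :
    (av (fun y : Pet κ Ψ → Ω => ind (PC G2 W κ Ψ x y))) ^ ((Fintype.card V) ^ (Fintype.card V)) ≤
      qq G1 W κ x := by
  set m := Fintype.card V with hm
  let F := {f : V // κ f = none}
  let π : F → Pet κ Ψ := fun f => ⟨Ψ f.1, f.1, f.2, rfl⟩
  have hF : Fintype.card F ≤ m := Fintype.card_subtype_le _
  let G : (F → Ω) → Prop := fun z => (∀ f f' : F, G1.Adj f.1 f'.1 → W.Adj (z f) (z f')) ∧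
    ∀ (a : V) (f : F) (s : S), κ a = some s → G1.Adj a f.1 → W.Adj (x s) (z f)
  have hcol := collapse (Ω := Ω) π m hF (PC G2 W κ Ψ x) G (by
    intro z e he hσ
    refine ⟨fun f f' hff' => ?_, fun a f s ha haf => ?_⟩
    · have h1 : G2.Adj (Ψ f.1) (Ψ f'.1) := hΨ _ _ hff'
      have hne : π f ≠ π f' := fun h => h1.ne (Subtype.ext_iff.mp h)
      have h2 := (hσ (fun u => if u = π f then e f else e f')).1 (π f) (π f') h1
      simp only [if_true, if_neg hne.symm] at h2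
      exact h2
    · have h1 : G2.Adj (Ψ a) (Ψ f.1) := hΨ _ _ haf
      rw [hs a s ha] at h1
      exact (hσ (fun _ => e f)).2 (π f) s h1)
  have h1 : av (fun z : F → Ω => if G z then (1 : ℝ) else 0) = qq G1 W κ x := by
    unfold qq
    have h0 : av (fun z : F → Ω => if G z then (1 : ℝ) else 0) = av (fun z : F → Ω => ind (G z)) := by
      congr 1
      funext z
      unfold ind
      split_ifs <;> rfl
    rw [h0, ← av_comp_injective (Ω := Ω) (Subtype.val : F → V) Subtype.val_injective]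
    congr 1
    funext z
    apply ind_congr
    constructor
    · rintro ⟨h2, h3⟩
      exact ⟨fun f f' hf hf' hff' => h2 ⟨f, hf⟩ ⟨f', hf'⟩ hff', fun a f s ha hf haf => h3 a ⟨f, hf⟩ s ha haf⟩
    · rintro ⟨h2, h3⟩
      exact ⟨fun f f' hff' => h2 f.1 f'.1 f.2 f'.2 hff', fun a f s ha haf => h3 a f.1 s ha f.2 haf⟩
  rw [← h1]
  refine le_trans ?_ (hcol.trans (le_of_eq (by congr 1; funext z; split_ifs <;> rfl)))
  have h0 : 0 ≤ av (fun y : Pet κ Ψ → Ω => ind (PC G2 W κ Ψ x y)) := av_nonneg fun _ => ind_nonneg _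
  have h01 : av (fun y : Pet κ Ψ → Ω => ind (PC G2 W κ Ψ x y)) ≤ 1 := av_le_one fun _ => ind_le_one _
  have hexp : m ^ Fintype.card (Pet κ Ψ) ≤ m ^ m := by
    rcases Nat.eq_zero_or_pos m with h | h
    · have : Fintype.card (Pet κ Ψ) = 0 := by have := card_Pet κ Ψ; omega
      rw [this, h]
    · exact Nat.pow_le_pow_right h (card_Pet κ Ψ)
  exact pow_le_pow_of_le_one h0 h01 hexp

lemma av_piCurry {P : Type} [Fintype P] {T : P → Type} [∀ p, Fintype (T p)] [Nonempty Ω]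
    (g : ∀ p, (T p → Ω) → ℝ) :
    av (fun w : (Σ p, T p) → Ω => ∏ p, g p (fun u => w ⟨p, u⟩)) = ∏ p, av (g p) := by
  rw [← av_pi]
  exact av_equiv (Equiv.piCurry (fun (p : P) (_ : T p) => Ω)) (fun y : (∀ p, T p → Ω) => ∏ p, g p (y p))

theorem sub_le [Nonempty Ω] {J : Type} [Fintype J] {K : ℕ} {G2 : SimpleGraph X} (W : SimpleGraph Ω)
    (S : Finset X) (κ : J → V → Option S) (Ψ : J → Fin K → V → X)
    (hout : ∀ j i f, κ j f = none → Ψ j i f ∉ S)
    (hdis : ∀ j j' i i', (j, i) ≠ (j', i') → ∀ f, κ j f = none → ∀ f', κ j' f' = none → Ψ j i f ≠ Ψ j' i' f')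
    (Y : Finset X) (hY : ∀ x, x ∈ Y ↔ (x ∈ S ∨ ∃ j i f, κ j f = none ∧ Ψ j i f = x)) :
    t (G2.comap (Subtype.val : Y → X)) W ≤ av (fun x : X → Ω => ind (C0 G2 W S x) *
      ∏ p : J × Fin K, av (fun y : Pet (κ p.1) (Ψ p.1 p.2) → Ω => ind (PC G2 W (κ p.1) (Ψ p.1 p.2) x y))) := by
  -- the injection
  have hex : ∀ y : Y, ∃ q : X ⊕ (Σ p : J × Fin K, Pet (κ p.1) (Ψ p.1 p.2)),
      (y.1 ∈ S → q = Sum.inl y.1) ∧ (y.1 ∉ S → ∃ p h, q = Sum.inr ⟨p, ⟨y.1, h⟩⟩) := by
    intro y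
    by_cases hy : y.1 ∈ S
    · exact ⟨Sum.inl y.1, fun _ => rfl, fun h => absurd hy h⟩
    · rcases (hY y.1).mp y.2 with h | ⟨j, i, f, hf1, hf2⟩
      · exact absurd h hy
      · exact ⟨Sum.inr ⟨(j, i), ⟨y.1, f, hf1, hf2⟩⟩, fun h => absurd h hy, fun _ => ⟨(j, i), ⟨f, hf1, hf2⟩, rfl⟩⟩
  choose ι hι1 hι2 using hex
  have hinj : Function.Injective ι := by
    intro a b hab
    by_cases ha : a.1 ∈ S
    · by_cases hb : b.1 ∈ S
      · rw [hι1 a ha, hι1 b hb] at hab
        exact Subtype.ext (Sum.inl_injective hab)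
      · obtain ⟨p, h, hp⟩ := hι2 b hb
        rw [hι1 a ha, hp] at hab
        exact absurd hab (by simp)
    · obtain ⟨p, h, hp⟩ := hι2 a ha
      by_cases hb : b.1 ∈ S
      · rw [hι1 b hb, hp] at hab
        exact absurd hab (by simp)
      · obtain ⟨p', h', hp'⟩ := hι2 b hb
        rw [hp, hp'] at hab
        have h3 := Sum.inr_injective hab
        have h4 : ((⟨p, ⟨a.1, h⟩⟩ : Σ p : J × Fin K, Pet (κ p.1) (Ψ p.1 p.2))).2.1 = 
          ((⟨p', ⟨b.1, h'⟩⟩ : Σ p : J × Fin K, Pet (κ p.1) (Ψ p.1 p.2))).2.1 := by rw [h3]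
        exact Subtype.ext h4
  have hιp : ∀ (p : J × Fin K) (u : Pet (κ p.1) (Ψ p.1 p.2)) (hu : u.1 ∈ Y), ι ⟨u.1, hu⟩ = Sum.inr ⟨p, u⟩ := by
    intro p u hu
    obtain ⟨f, hf1, hf2⟩ := u.2
    have hnS : u.1 ∉ S := by rw [← hf2]; exact hout _ _ _ hf1
    obtain ⟨p', ⟨f', hf1', hf2'⟩, hp'⟩ := hι2 ⟨u.1, hu⟩ hnS
    have hpp : p = p' := by
      by_contra hne
      exact hdis p.1 p'.1 p.2 p'.2 hne f hf1 f' hf1' (by rw [hf2, hf2'])
    subst hpp
    exact hp'
  unfold t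
  rw [← av_comp_injective ι hinj, av_sum_type]
  apply av_mono
  intro x
  rw [← av_piCurry (fun (p : J × Fin K) (y : Pet (κ p.1) (Ψ p.1 p.2) → Ω) =>
    ind (PC G2 W (κ p.1) (Ψ p.1 p.2) x y)), ← av_mul_left]
  apply av_mono
  intro w
  rw [← ind_forall, ← ind_and]
  apply ind_mono
  intro h
  have hSY : ∀ s, s ∈ S → s ∈ Y := fun s hs => (hY s).mpr (Or.inl hs)
  have hUY : ∀ (p : J × Fin K) (u : Pet (κ p.1) (Ψ p.1 p.2)), u.1 ∈ Y := fun p u => by
    obtain ⟨f, hf1, hf2⟩ := u.2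
    exact (hY _).mpr (Or.inr ⟨p.1, p.2, f, hf1, hf2⟩)
  refine ⟨fun s hs s' hs' hss' => ?_, fun p => ⟨fun u u' huu' => ?_, fun u s hsu => ?_⟩⟩
  · have h1 := h ⟨s, hSY s hs⟩ ⟨s', hSY s' hs'⟩ hss'
    simp only [Function.comp] at h1
    rw [hι1 _ hs, hι1 _ hs'] at h1
    exact h1
  · have h1 := h ⟨u.1, hUY p u⟩ ⟨u'.1, hUY p u'⟩ huu'
    simp only [Function.comp] at h1
    rw [hιp, hιp] at h1
    exact h1
  · have h1 := h ⟨s.1, hSY s.1 s.2⟩ ⟨u.1, hUY p u⟩ hsu
    simp only [Function.comp] at h1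
    rw [hι1 _ s.2, hιp] at h1
    exact h1

end

/-- Assembling the estimates. -/
theorem core {V X J : Type} [Fintype V] [Fintype X] [Fintype J] [Nonempty X] {G1 : SimpleGraph V}
    {G2 : SimpleGraph X} (hv : Valid G1 G2) (S : Finset X) (κ : J → V → Option S)
    (hκ : ∀ ψ, IsHom G1 G2 ψ → ∃ j, ∀ v s, κ j v = some s → ψ v = s) (m K : ℕ) (hm : m = Fintype.card V)
    (hK : K = m ^ m) (Ψ : J → Fin K → V → X)
    (hhom : ∀ j i, IsHom G1 G2 (Ψ j i)) (hin : ∀ j i a s, κ j a = some s → Ψ j i a = s)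
    (hout : ∀ j i f, κ j f = none → Ψ j i f ∉ S)
    (hdis : ∀ j j' i i', (j, i) ≠ (j', i') → ∀ f, κ j f = none → ∀ f', κ j' f' = none → Ψ j i f ≠ Ψ j' i' f') :
    ∃ Y : Finset X, Y.card ≤ S.card + Fintype.card J * (K * m) ∧
      Valid G1 (G2.comap (Subtype.val : Y → X)) := by
  have hK1 : 1 ≤ K := by
    rcases Nat.eq_zero_or_pos m with h | h
    · rw [hK, h]; norm_num
    · rw [hK]; exact Nat.one_le_pow _ _ h
  set Y : Finset X := S ∪ (univ : Finset (J × Fin K × V)).image (fun p => if κ p.1 p.2.2 = none then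
    Ψ p.1 p.2.1 p.2.2 else (if h : S.Nonempty then h.choose else Ψ p.1 p.2.1 p.2.2)) with hYdef
  have hYcard : Y.card ≤ S.card + Fintype.card J * (K * m) := by
    refine (Finset.card_union_le _ _).trans (Nat.add_le_add_left ?_ _)
    refine Finset.card_image_le.trans ?_
    rw [Finset.card_univ, Fintype.card_prod, Fintype.card_prod, Fintype.card_fin, hm]
  have hY : ∀ x, x ∈ Y ↔ (x ∈ S ∨ ∃ j i f, κ j f = none ∧ Ψ j i f = x) := by
    intro x
    rw [hYdef, Finset.mem_union]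
    constructor
    · rintro (h | h)
      · exact Or.inl h
      · obtain ⟨⟨j, i, f⟩, _, h⟩ := Finset.mem_image.mp h
        simp only at h
        split_ifs at h with h1 h2
        · exact Or.inr ⟨j, i, f, h1, h⟩
        · left; rw [← h]; exact h2.choose_spec
        · exfalso
          obtain ⟨s, hs⟩ := Option.ne_none_iff_exists'.mp h1
          exact h2 ⟨s, s.2⟩
    · rintro (h | ⟨j, i, f, hf, h⟩)
      · exact Or.inl h
      · right
        refine Finset.mem_image.mpr ⟨(j, i, f), Finset.mem_univ _, ?_⟩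
        simp only [hf, if_true]
        exact h
  refine ⟨Y, hYcard, ?_⟩
  apply valid_of_le (Fintype.card J : ℝ)
  intro Ω _ _ W
  refine le_trans ?_ (pullA hv W S κ hκ)
  refine (sub_le (G2 := G2) W S κ Ψ hout hdis Y hY).trans ?_
  apply av_mono
  intro x
  apply mul_le_mul_of_nonneg_left _ (ind_nonneg _)
  rw [Fintype.prod_prod_type]
  apply Finset.prod_le_prod
  · intro j _
    exact Finset.prod_nonneg fun i _ => av_nonneg fun _ => ind_nonneg _
  intro j _
  have hq0 : 0 ≤ qq G1 W (κ j) x := av_nonneg fun _ => ind_nonneg _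
  have h5 : ∀ i : Fin K, (av (fun y : Pet (κ j) (Ψ j i) → Ω => ind (PC G2 W (κ j) (Ψ j i) x y))) ^ K ≤
      qq G1 W (κ j) x := fun i => by
    have := petal_le W (κ j) (Ψ j i) (hhom j i) (fun a s ha => hin j i a s ha) x
    rwa [← hm, ← hK] at this
  have h6 : (∏ i : Fin K, av (fun y : Pet (κ j) (Ψ j i) → Ω => ind (PC G2 W (κ j) (Ψ j i) x y))) ^ K ≤
      (qq G1 W (κ j) x) ^ K := by
    rw [← Finset.prod_pow]
    calc _ ≤ ∏ i : Fin K, qq G1 W (κ j) x := by
          apply Finset.prod_le_prod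
          · intro i _; exact pow_nonneg (av_nonneg fun _ => ind_nonneg _) _
          · intro i _; exact h5 i
      _ = _ := by rw [Finset.prod_const, Finset.card_univ, Fintype.card_fin]
  exact le_of_pow_le_pow_left₀ (by omega) hq0 h6

lemma t_eq_one {V Ω : Type} [Fintype V] [Fintype Ω] [Nonempty Ω] (G : SimpleGraph V) (W : SimpleGraph Ω)
    (h : ∀ a b, ¬ G.Adj a b) : t G W = 1 := by
  unfold t
  rw [← av_const (α := V → Ω) 1]
  congr 1
  funext f
  exact ind_true (fun a b hab => absurd hab (h a b))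

/-- A graph that is valid against a graph with an edge has a vertex. -/
lemma nonempty_of_valid {V X : Type} [Fintype V] [Fintype X] {G1 : SimpleGraph V} {G2 : SimpleGraph X}
    (hv : Valid G1 G2) {a b : V} (hab : G1.Adj a b) : Nonempty X := by
  by_contra hX
  rw [not_nonempty_iff] at hX
  have h1 := hv 0 ⊥
  have h2 : t G1 (⊥ : SimpleGraph (Fin 1)) = 0 := by
    unfold t
    rw [← av_const (α := V → Fin 1) 0]
    congr 1
    funext f
    exact ind_false (fun h => (h a b hab))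
  have h3 : t G2 (⊥ : SimpleGraph (Fin 1)) = 1 := t_eq_one _ _ (fun a => (hX.false a).elim)
  rw [h2, h3] at h1
  norm_num at h1

/-- **The bounded kernel theorem.** -/
theorem kernel_theorem (V : Type) [Fintype V] : ∃ B : ℕ, ∀ (G1 : SimpleGraph V) (X : Type) [Fintype X]
    (G2 : SimpleGraph X), Valid G1 G2 →
      ∃ Y : Finset X, Y.card ≤ B ∧ Valid G1 (G2.comap (Subtype.val : Y → X)) := by
  set m := Fintype.card V with hm
  set K := m ^ m with hK
  obtain ⟨B, hB⟩ := kernel_lemma V (fun s => K + (s + 1) ^ m * (K * m))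
  refine ⟨B + (B + 1) ^ m * (K * m), ?_⟩
  intro G1 X _ G2 hv
  by_cases hedge : ∃ a b, G1.Adj a b
  swap
  · refine ⟨∅, by simp, ?_⟩
    intro n W
    rw [t_eq_one G1 W (fun a b hab => hedge ⟨a, b, hab⟩)]
    exact t_le_one _ _
  obtain ⟨a, b, hab⟩ := hedge
  have : Nonempty X := nonempty_of_valid hv hab
  obtain ⟨S, hSB, hS⟩ := hB X {ψ | IsHom G1 G2 ψ}
  set D := K + (S.card + 1) ^ m * (K * m) with hD
  -- the index type
  let P : (V → Option S) → (Fin D → V → X) → Prop := fun κ Ψ =>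
    (∀ j, IsHom G1 G2 (Ψ j)) ∧ (∀ j a s, κ a = some s → Ψ j a = s) ∧ (∀ j f, κ f = none → Ψ j f ∉ S) ∧
      ∀ j j', j ≠ j' → ∀ f, κ f = none → ∀ f', κ f' = none → Ψ j f ≠ Ψ j' f'
  let Q : (V → Option S) → Prop := fun κ => ∃ Ψ, P κ Ψ
  have hJcard : Fintype.card {κ // Q κ} ≤ (S.card + 1) ^ m := by
    refine (Fintype.card_subtype_le _).trans ?_
    rw [Fintype.card_fun, Fintype.card_option, Fintype.card_coe]
  have hex : ∀ κ : {κ // Q κ}, ∃ Ψ, P κ.1 Ψ := fun κ => κ.2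
  choose Ψ hΨ using hex
  obtain ⟨e, he⟩ := select K D (fun (κ : {κ // Q κ}) f => κ.1 f = none) Ψ (fun κ => (hΨ κ).2.2.2)
    (Nat.add_le_add_left (Nat.mul_le_mul_right _ hJcard) _) (univ : Finset {κ // Q κ})
  have hκ : ∀ ψ, IsHom G1 G2 ψ → ∃ j : {κ // Q κ}, ∀ v s, j.1 v = some s → ψ v = s := by
    intro ψ hψ
    obtain ⟨A, hA, Φ, h1, h2, h3, h4⟩ := hS ψ hψ
    let κ : V → Option S := fun v => if h : v ∈ A then some ⟨ψ v, hA v h⟩ else none
    have hκsome : ∀ v s, κ v = some s → v ∈ A ∧ ψ v = s := by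
      intro v s h
      simp only [κ] at h
      split_ifs at h with h5
      · simp only [Option.some.injEq] at h
        exact ⟨h5, by rw [← h]⟩
    have hκnone : ∀ v, κ v = none → v ∉ A := by
      intro v h
      simp only [κ] at h
      split_ifs at h with h5
      exact h5
    refine ⟨⟨κ, Φ, h1, ?_, ?_, ?_⟩, fun v s h => (hκsome v s h).2⟩
    · intro j a s ha
      obtain ⟨h5, h6⟩ := hκsome a s ha
      rw [h2 j a h5, h6]
    · intro j f hf
      exact h3 j f (hκnone f hf)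
    · intro j j' hne f hf f' hf'
      exact h4 j j' hne f (hκnone f hf) f' (hκnone f' hf')
  obtain ⟨Y, hY1, hY2⟩ := core hv S (fun (κ : {κ // Q κ}) => κ.1) hκ m K hm hK (fun κ i => Ψ κ (e κ i))
    (fun j i => (hΨ j).1 _) (fun j i a s ha => (hΨ j).2.1 _ a s ha) (fun j i f hf => (hΨ j).2.2.1 _ f hf)
    (fun j j' i i' hne f hf f' hf' => he j (Finset.mem_univ _) j' (Finset.mem_univ _) i i' hne f hf f' hf')
  refine ⟨Y, hY1.trans ?_, hY2⟩
  exact Nat.add_le_add hSB (Nat.mul_le_mul_right _ (hJcard.trans (Nat.pow_le_pow_left (by omega) _)))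

end Pool.Agent.H211F52
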