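import Mathlib
import Pool.Agent.H211F52.KerB

/-!
# Decidability when one of the two graphs has bounded size
-/

set_option autoImplicit false

namespace Pool.Agent.H211F52

open Finset Classical

/-! ### Monotonicity and isolated vertices -/

section struct

variable {V X A Ω : Type} [Fintype V] [Fintype X] [Fintype A] [Fintype Ω]

lemma t_le_of_embed [Nonempty Ω] {H : SimpleGraph A} {G : SimpleGraph X} (W : SimpleGraph Ω) (f : A → X)
    (hf : Function.Injective f) (h : ∀ a b, H.Adj a b → G.Adj (f a) (f b)) : t G W ≤ t H W := by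
  unfold t
  rw [← av_comp_injective f hf (fun g => ind (IsHom H W g))]
  apply av_mono
  intro g
  apply ind_mono
  intro hg a b hab
  exact hg _ _ (h a b hab)

lemma t_eq_of_embed [Nonempty Ω] {H : SimpleGraph A} {G : SimpleGraph X} (W : SimpleGraph Ω) (f : A → X)
    (hf : Function.Injective f) (h : ∀ a b, H.Adj a b ↔ G.Adj (f a) (f b))
    (hr : ∀ x y, G.Adj x y → x ∈ Set.range f) : t G W = t H W := by
  unfold t
  rw [← av_comp_injective f hf (fun g => ind (IsHom H W g))]
  congr 1
  funext g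
  apply ind_congr
  constructor
  · intro hg a b hab
    exact hg _ _ ((h a b).mp hab)
  · intro hg x y hxy
    obtain ⟨a, rfl⟩ := hr x y hxy
    obtain ⟨b, rfl⟩ := hr y _ hxy.symm
    exact hg a b ((h a b).mpr hxy)

/-- `G` and `n` isolated vertices. -/
def addIso (G : SimpleGraph X) (n : ℕ) : SimpleGraph (X ⊕ Fin n) where
  Adj p q := ∃ x y, p = Sum.inl x ∧ q = Sum.inl y ∧ G.Adj x y
  symm := ⟨fun _ _ ⟨x, y, h1, h2, h3⟩ => ⟨y, x, h2, h1, h3.symm⟩⟩
  loopless := ⟨fun p ⟨x, y, h1, h2, h3⟩ => by
    rw [h1] at h2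
    exact h3.ne (Sum.inl_injective h2)⟩

/-- The graph `G1` of a valid inequality has at most as many non-isolated vertices as `G2`. -/
lemma card_nonisolated_le {G1 : SimpleGraph V} {G2 : SimpleGraph X} (hv : Valid G1 G2) :
    (univ.filter (fun v => ∃ u, G1.Adj v u)).card ≤ Fintype.card X := by
  set N := univ.filter (fun v => ∃ u, G1.Adj v u) with hN
  set b := Fintype.card X with hb
  by_contra hcon
  push Not at hcon
  set n := b ^ N.card + 1 with hn
  have : Nonempty (X ⊕ Fin n) := ⟨Sum.inr ⟨0, by omega⟩⟩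
  have hle := hv.le (addIso G2 n)
  have hc : (Fintype.card (X ⊕ Fin n) : ℝ) = b + n := by
    rw [Fintype.card_sum, Fintype.card_fin]; push_cast; rfl
  have hpos : (0 : ℝ) < b + n := by
    have : (0 : ℝ) < n := by rw [hn]; push_cast; positivity
    positivity
  -- lower bound
  have hlow : 1 / ((b : ℝ) + n) ^ b ≤ t G2 (addIso G2 n) := by
    have h1 := single_le_av (f := fun f : X → X ⊕ Fin n => ind (IsHom G2 (addIso G2 n) f))
      (fun _ => ind_nonneg _) Sum.inl
    have h2 : ind (IsHom G2 (addIso G2 n) (Sum.inl : X → X ⊕ Fin n)) = 1 :=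
      ind_true (fun x y hxy => ⟨x, y, rfl, rfl, hxy⟩)
    simp only [h2] at h1
    rw [Fintype.card_fun] at h1
    push_cast at h1
    rw [hc] at h1
    exact h1
  -- upper bound
  have hup : t G1 (addIso G2 n) ≤ ((b : ℝ) / (b + n)) ^ N.card := by
    have h1 : t G1 (addIso G2 n) ≤ av (fun f : V → X ⊕ Fin n => ∏ v, (fun (v : V) (q : X ⊕ Fin n) =>
        if v ∈ N then (if q.isLeft then (1 : ℝ) else 0) else 1) v (f v)) := by
      apply av_mono
      intro f
      by_cases hf : IsHom G1 (addIso G2 n) f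
      · rw [ind_true hf]
        apply le_of_eq
        symm
        apply Finset.prod_eq_one
        intro v _
        simp only
        by_cases hvN : v ∈ N
        · obtain ⟨u, hu⟩ := (Finset.mem_filter.mp hvN).2
          obtain ⟨x, y, h2, _, _⟩ := hf v u hu
          rw [if_pos hvN, h2]
          simp
        · rw [if_neg hvN]
      · rw [ind_false hf]
        apply Finset.prod_nonneg
        intro v _
        simp only
        split_ifs <;> norm_num
    refine h1.trans (le_of_eq ?_)
    rw [av_pi (fun (v : V) (q : X ⊕ Fin n) => if v ∈ N then (if q.isLeft then (1 : ℝ) else 0) else 1)]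
    have h2 : ∀ v : V, av (fun q : X ⊕ Fin n => if v ∈ N then (if q.isLeft then (1 : ℝ) else 0) else 1) =
        if v ∈ N then (b : ℝ) / (b + n) else 1 := by
      intro v
      by_cases hvN : v ∈ N
      · simp only [if_pos hvN]
        rw [av_eq, hc, Fintype.sum_sum_type]
        simp [hb]
      · simp only [if_neg hvN]
        exact av_const 1
    rw [Finset.prod_congr rfl (fun v _ => h2 v), Finset.prod_ite_mem, Finset.univ_inter, Finset.prod_const]
  have h3 : 1 / ((b : ℝ) + n) ^ b ≤ ((b : ℝ) / (b + n)) ^ N.card := hlow.trans (hle.trans hup)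
  rw [div_pow, div_le_div_iff₀ (by positivity) (by positivity), one_mul] at h3
  -- (b+n)^N ≤ b^N (b+n)^b
  have h4 : ((b : ℝ) + n) ^ N.card = (b + n) ^ b * (b + n) ^ (N.card - b) := by
    rw [← pow_add]; congr 1; omega
  rw [h4, mul_comm ((b : ℝ) ^ N.card)] at h3
  have h5 : ((b : ℝ) + n) ^ (N.card - b) ≤ (b : ℝ) ^ N.card := le_of_mul_le_mul_left h3 (by positivity)
  have h6 : ((b : ℝ) + n) ≤ ((b : ℝ) + n) ^ (N.card - b) := by
    apply le_self_pow₀ _ (by omega)
    have : (1 : ℝ) ≤ n := by rw [hn]; push_cast; linarith [pow_nonneg (Nat.cast_nonneg (α := ℝ) b) N.card]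
    have : (0 : ℝ) ≤ b := Nat.cast_nonneg _
    linarith
  have h7 : (n : ℝ) = (b : ℝ) ^ N.card + 1 := by rw [hn]; push_cast; rfl
  have h8 : (0 : ℝ) ≤ b := Nat.cast_nonneg _
  linarith

end struct

/-! ### Coded graphs -/

/-- The graph with code `p`. -/
def gr (p : ℕ × List (ℕ × ℕ)) : SimpleGraph (Fin p.1) :=
  SimpleGraph.fromRel (fun a b : Fin p.1 => (a.val, b.val) ∈ p.2)

/-- Adjacency of numbers. -/
def adj (p : ℕ × List (ℕ × ℕ)) (u v : ℕ) : Prop := u ≠ v ∧ ((u, v) ∈ p.2 ∨ (v, u) ∈ p.2)

lemma gr_adj (p : ℕ × List (ℕ × ℕ)) (u v : Fin p.1) : (gr p).Adj u v ↔ adj p u v := by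
  unfold gr adj
  rw [SimpleGraph.fromRel_adj]
  constructor
  · rintro ⟨h1, h2⟩
    exact ⟨fun h => h1 (Fin.ext h), h2⟩
  · rintro ⟨h1, h2⟩
    exact ⟨fun h => h1 (by rw [h]), h2⟩

/-- The frozen predicate. -/
def Fro (p : (ℕ × List (ℕ × ℕ)) × (ℕ × List (ℕ × ℕ))) : Prop :=
    ∀ (k : ℕ) (H : SimpleGraph (Fin (k + 1))),
      ((Finset.univ.filter (fun f : Fin p.2.1 → Fin (k + 1) =>
          ∀ i j : Fin p.2.1,
            (SimpleGraph.fromRel (fun a b : Fin p.2.1 => (a.val, b.val) ∈ p.2.2)).Adj i j →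
              H.Adj (f i) (f j))).card : ℝ) / (((k + 1 : ℕ) : ℝ) ^ p.2.1)
      ≤
      ((Finset.univ.filter (fun f : Fin p.1.1 → Fin (k + 1) =>
          ∀ i j : Fin p.1.1,
            (SimpleGraph.fromRel (fun a b : Fin p.1.1 => (a.val, b.val) ∈ p.1.2)).Adj i j →
              H.Adj (f i) (f j))).card : ℝ) / (((k + 1 : ℕ) : ℝ) ^ p.1.1)

lemma t_formula (p : ℕ × List (ℕ × ℕ)) (k : ℕ) (H : SimpleGraph (Fin (k + 1))) :
    ((Finset.univ.filter (fun f : Fin p.1 → Fin (k + 1) =>
          ∀ i j : Fin p.1,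
            (SimpleGraph.fromRel (fun a b : Fin p.1 => (a.val, b.val) ∈ p.2)).Adj i j →
              H.Adj (f i) (f j))).card : ℝ) / (((k + 1 : ℕ) : ℝ) ^ p.1) = t (gr p) H := by
  unfold t
  rw [av_eq, Fintype.card_fun, Fintype.card_fin, Fintype.card_fin]
  congr 1
  · rw [Finset.card_filter]
    push_cast
    refine Finset.sum_congr rfl fun f _ => ?_
    unfold ind IsHom gr
    split_ifs <;> rfl
  · push_cast
    rfl

lemma fro_iff (p : (ℕ × List (ℕ × ℕ)) × (ℕ × List (ℕ × ℕ))) : Fro p ↔ Valid (gr p.1) (gr p.2) := by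
  unfold Fro Valid
  refine forall_congr' fun k => forall_congr' fun H => ?_
  rw [t_formula, t_formula]

/-! ### Primitive recursive predicates -/

lemma primrec_fin_forall {α : Type} [Primcodable α] {ι : Type} (s : Finset ι) (P : ι → α → Prop)
    (h : ∀ i, PrimrecPred (P i)) : PrimrecPred (fun a => ∀ i ∈ s, P i a) := by
  induction s using Finset.induction_on with
  | empty =>
    refine PrimrecPred.of_eq (p := fun _ => (0 : ℕ) = 0) ?_ (fun a => by simp)
    exact Primrec.eq.comp (Primrec.const 0) (Primrec.const 0)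
  | insert i s his ih =>
    refine PrimrecPred.of_eq ((h i).and ih) (fun a => by simp)

lemma primrec_fin_exists {α : Type} [Primcodable α] {ι : Type} (s : Finset ι) (P : ι → α → Prop)
    (h : ∀ i, PrimrecPred (P i)) : PrimrecPred (fun a => ∃ i ∈ s, P i a) := by
  induction s using Finset.induction_on with
  | empty =>
    refine PrimrecPred.of_eq (p := fun _ => (0 : ℕ) = 1) ?_ (fun a => by simp)
    exact Primrec.eq.comp (Primrec.const 0) (Primrec.const 1)
  | insert i s his ih =>
    refine PrimrecPred.of_eq ((h i).or ih) (fun a => by simp)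

lemma primrec_univ_forall {α : Type} [Primcodable α] {ι : Type} [Fintype ι] (P : ι → α → Prop)
    (h : ∀ i, PrimrecPred (P i)) : PrimrecPred (fun a => ∀ i, P i a) :=
  PrimrecPred.of_eq (primrec_fin_forall univ P h) (fun a => by simp)

lemma primrec_univ_exists {α : Type} [Primcodable α] {ι : Type} [Fintype ι] (P : ι → α → Prop)
    (h : ∀ i, PrimrecPred (P i)) : PrimrecPred (fun a => ∃ i, P i a) :=
  PrimrecPred.of_eq (primrec_fin_exists univ P h) (fun a => by simp)

lemma primrec_const {α : Type} [Primcodable α] (p : Prop) : PrimrecPred (fun _ : α => p) := by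
  by_cases h : p
  · refine PrimrecPred.of_eq (p := fun _ => (0 : ℕ) = 0) ?_ (fun a => by simp [h])
    exact Primrec.eq.comp (Primrec.const 0) (Primrec.const 0)
  · refine PrimrecPred.of_eq (p := fun _ => (0 : ℕ) = 1) ?_ (fun a => by simp [h])
    exact Primrec.eq.comp (Primrec.const 0) (Primrec.const 1)

lemma primrec_imp {α : Type} [Primcodable α] {P Q : α → Prop} (hP : PrimrecPred P) (hQ : PrimrecPred Q) :
    PrimrecPred (fun a => P a → Q a) :=
  PrimrecPred.of_eq (hP.not.or hQ) (fun a => by tauto)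

lemma primrec_iff {α : Type} [Primcodable α] {P Q : α → Prop} (hP : PrimrecPred P) (hQ : PrimrecPred Q) :
    PrimrecPred (fun a => P a ↔ Q a) :=
  PrimrecPred.of_eq ((primrec_imp hP hQ).and (primrec_imp hQ hP)) (fun a => by tauto)

lemma primrec_mem {α : Type} [Primcodable α] {f : α → ℕ × ℕ} {L : α → List (ℕ × ℕ)} (hf : Primrec f)
    (hL : Primrec L) : PrimrecPred (fun a => f a ∈ L a) := by
  have h : PrimrecRel (fun (x : ℕ × ℕ) (y : ℕ × ℕ) => x = y) := Primrec.eq
  have h1 := PrimrecRel.exists_mem_list h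
  refine PrimrecPred.of_eq (h1.comp hL hf) (fun a => ?_)
  constructor
  · rintro ⟨b, hb, rfl⟩
    exact hb
  · intro h
    exact ⟨_, h, rfl⟩

lemma primrec_adj {α : Type} [Primcodable α] {p : α → ℕ × List (ℕ × ℕ)} {u v : α → ℕ} (hp : Primrec p)
    (hu : Primrec u) (hv : Primrec v) : PrimrecPred (fun a => adj (p a) (u a) (v a)) := by
  unfold adj
  have h1 : PrimrecPred (fun a => (u a, v a) ∈ (p a).2) := primrec_mem (hu.pair hv) (Primrec.snd.comp hp)
  have h2 : PrimrecPred (fun a => (v a, u a) ∈ (p a).2) := primrec_mem (hv.pair hu) (Primrec.snd.comp hp)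
  have h3 : PrimrecPred (fun a => u a = v a) := Primrec.eq.comp hu hv
  exact PrimrecPred.of_eq (h3.not.and (h1.or h2)) (fun a => Iff.rfl)

/-- Bounded search for a list. -/
lemma primrec_exists_list {α : Type} [Primcodable α] (n : α → ℕ) (hn : Primrec n) (r : ℕ) :
    ∀ P : List ℕ × α → Prop, PrimrecPred P → PrimrecPred (fun q : List ℕ × α =>
      ∃ w : List ℕ, w.length = r ∧ (∀ x ∈ w, x < n q.2) ∧ P (w ++ q.1, q.2)) := by
  induction r with
  | zero =>
    intro P hP
    refine PrimrecPred.of_eq hP (fun q => ?_)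
    constructor
    · intro h
      exact ⟨[], rfl, by simp, h⟩
    · rintro ⟨w, hw, _, h⟩
      rw [List.length_eq_zero_iff] at hw
      rw [hw] at h
      exact h
  | succ r ih =>
    intro P hP
    have hT := ih P hP
    -- relation in `x`
    have h1 : PrimrecRel (fun (x : ℕ) (q : List ℕ × α) =>
        ∃ w : List ℕ, w.length = r ∧ (∀ x ∈ w, x < n q.2) ∧ P (w ++ (x :: q.1), q.2)) := by
      have hc : Primrec (fun s : ℕ × (List ℕ × α) => ((s.1 :: s.2.1, s.2.2) : List ℕ × α)) :=
        Primrec.pair (Primrec.list_cons.comp Primrec.fst (Primrec.fst.comp Primrec.snd))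
          (Primrec.snd.comp Primrec.snd)
      exact hT.comp hc
    have h2 := PrimrecRel.exists_mem_list h1
    have h3 := h2.comp (Primrec.list_range.comp (hn.comp Primrec.snd)) (Primrec.id (α := List ℕ × α))
    refine PrimrecPred.of_eq h3 (fun q => ?_)
    constructor
    · rintro ⟨x, hx, w, hw, hwn, hP⟩
      refine ⟨w ++ [x], by simp [hw], ?_, by simpa using hP⟩
      intro y hy
      rcases List.mem_append.mp hy with h | h
      · exact hwn y h
      · simp only [List.mem_singleton] at h
        rw [h]; exact List.mem_range.mp hx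
    · rintro ⟨w, hw, hwn, hP⟩
      have hne : w ≠ [] := by
        intro h; rw [h] at hw; simp at hw
      refine ⟨w.getLast hne, List.mem_range.mpr (hwn _ (List.getLast_mem hne)), w.dropLast, ?_, ?_, ?_⟩
      · rw [List.length_dropLast, hw]; rfl
      · intro x hx
        exact hwn x (List.dropLast_subset _ hx)
      · simp only [id]
        have : w.dropLast ++ (w.getLast hne :: q.1) = w ++ q.1 := by
          conv_rhs => rw [← List.dropLast_append_getLast hne]
          simp
        rw [this]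
        exact hP

lemma primrec_exists_list' {α : Type} [Primcodable α] (n : α → ℕ) (hn : Primrec n) (r : ℕ)
    (P : List ℕ → α → Prop) (hP : PrimrecRel P) : PrimrecPred (fun a : α =>
      ∃ w : List ℕ, w.length = r ∧ (∀ x ∈ w, x < n a) ∧ P w a) := by
  have h1 := primrec_exists_list n hn r (fun q => P q.1 q.2) hP
  have hc : Primrec (fun a : α => (([] : List ℕ), a)) := Primrec.pair (Primrec.const []) Primrec.id
  refine PrimrecPred.of_eq (h1.comp hc) (fun a => ?_)
  simp only [List.append_nil]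

end Pool.Agent.H211F52
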