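import Mathlib

/-!
# Entropies of functions on finite uniform spaces, in terms of class sizes

For `f : Ω → α` on a finite type, `cs f ω` is the number of points with the same value as `ω`, and `sl f` is the
sum of the logarithms of these numbers. The entropy of `f` for the uniform distribution is
`log |Ω| - sl f / |Ω|`.
-/

set_option autoImplicit false

namespace Pool.Agent.H211F52

open Finset Classical

section

variable {Ω α β γ : Type} [Fintype Ω]

/-- The size of the class of `ω`. -/
noncomputable def cs (f : Ω → α) (ω : Ω) : ℕ := (univ.filter (fun ω' => f ω' = f ω)).card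

/-- The sum of the logarithms of the class sizes. -/
noncomputable def sl (f : Ω → α) : ℝ := ∑ ω, Real.log (cs f ω)

lemma cs_pos (f : Ω → α) (ω : Ω) : 0 < cs f ω :=
  Finset.card_pos.mpr ⟨ω, by simp⟩

lemma cs_pos' (f : Ω → α) (ω : Ω) : (0 : ℝ) < cs f ω := by exact_mod_cast cs_pos f ω

lemma cs_congr {f : Ω → α} {g : Ω → β} (h : ∀ ω ω', f ω' = f ω ↔ g ω' = g ω) (ω : Ω) : cs f ω = cs g ω := by
  unfold cs
  congr 1
  ext ω'
  simp [h ω ω']

lemma sl_congr {f : Ω → α} {g : Ω → β} (h : ∀ ω ω', f ω' = f ω ↔ g ω' = g ω) : sl f = sl g := by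
  unfold sl
  exact Finset.sum_congr rfl fun ω _ => by rw [cs_congr h]

lemma cs_mono {f : Ω → α} {g : Ω → β} (h : ∀ ω ω', f ω' = f ω → g ω' = g ω) (ω : Ω) : cs f ω ≤ cs g ω := by
  apply Finset.card_le_card
  intro ω' hω'
  simp only [Finset.mem_filter, Finset.mem_univ, true_and] at hω' ⊢
  exact h ω ω' hω'

lemma sl_mono {f : Ω → α} {g : Ω → β} (h : ∀ ω ω', f ω' = f ω → g ω' = g ω) : sl f ≤ sl g := by
  unfold sl
  apply Finset.sum_le_sum
  intro ω _
  apply Real.log_le_log (cs_pos' f ω)
  exact_mod_cast cs_mono h ω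

lemma cs_same {f : Ω → α} {ω ω' : Ω} (h : f ω' = f ω) : cs f ω' = cs f ω := by
  unfold cs
  rw [h]

lemma sl_nonneg (f : Ω → α) : 0 ≤ sl f :=
  Finset.sum_nonneg fun ω _ => Real.log_nonneg (by exact_mod_cast cs_pos f ω)

/-- Jensen's inequality for the logarithm. -/
lemma jensen (a : Ω → ℝ) (ha : ∀ ω, 0 < a ω) (C : ℝ) (hC : 0 < C) (h : ∑ ω, a ω ≤ Fintype.card Ω * C) :
    ∑ ω, Real.log (a ω) ≤ Fintype.card Ω * Real.log C := by
  have h1 : ∀ ω, Real.log (a ω) ≤ Real.log C + (a ω / C - 1) := by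
    intro ω
    have := Real.log_le_sub_one_of_pos (div_pos (ha ω) hC)
    rw [Real.log_div (ha ω).ne' hC.ne'] at this
    linarith
  calc ∑ ω, Real.log (a ω) ≤ ∑ ω, (Real.log C + (a ω / C - 1)) := Finset.sum_le_sum fun ω _ => h1 ω
    _ = Fintype.card Ω * Real.log C + ((∑ ω, a ω) / C - Fintype.card Ω) := by
        rw [Finset.sum_add_distrib, Finset.sum_sub_distrib, Finset.sum_const, Finset.sum_const, ← Finset.sum_div,
          Finset.card_univ, nsmul_eq_mul, nsmul_eq_mul, mul_one]
    _ ≤ Fintype.card Ω * Real.log C := by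
        have : (∑ ω, a ω) / C ≤ Fintype.card Ω := by
          rw [div_le_iff₀ hC]; exact h
        linarith

/-- The number of classes. -/
lemma sum_inv_cs (f : Ω → α) : ∑ ω, (1 : ℝ) / cs f ω = (univ.image f).card := by
  rw [← Finset.sum_fiberwise_of_maps_to (s := univ) (t := univ.image f) (g := f)
    (fun ω _ => Finset.mem_image_of_mem f (Finset.mem_univ ω))]
  rw [Finset.card_eq_sum_ones]
  push_cast
  refine Finset.sum_congr rfl fun a ha => ?_
  obtain ⟨ω0, _, rfl⟩ := Finset.mem_image.mp ha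
  have h1 : ∀ ω ∈ univ.filter (fun ω => f ω = f ω0), (1 : ℝ) / cs f ω = 1 / cs f ω0 := by
    intro ω hω
    rw [cs_same (Finset.mem_filter.mp hω).2]
  rw [Finset.sum_congr rfl h1, Finset.sum_const, nsmul_eq_mul]
  have h2 : ((univ.filter (fun ω => f ω = f ω0)).card : ℝ) = cs f ω0 := by
    unfold cs
    rfl
  rw [h2]
  exact mul_one_div_cancel (cs_pos' f ω0).ne'

/-- The entropy is at most the logarithm of the number of values. -/
lemma sl_ge [Nonempty Ω] (f : Ω → α) (N : ℝ) (hN0 : (Nat.card (Set.range f) : ℝ) ≤ N) :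
    Fintype.card Ω * Real.log (Fintype.card Ω) - sl f ≤ Fintype.card Ω * Real.log N := by
  have hN : ((univ.image f).card : ℝ) ≤ N := by
    have : Nat.card (Set.range f) = (univ.image f).card := by
      rw [Nat.card_eq_fintype_card, ← Set.toFinset_card, Set.toFinset_range]
    rwa [this] at hN0
  have hpos : (0 : ℝ) < Fintype.card Ω := by exact_mod_cast Fintype.card_pos
  have himg : (0 : ℝ) < (univ.image f).card := by
    have : (univ.image f).Nonempty := Finset.univ_nonempty.image f
    exact_mod_cast Finset.card_pos.mpr this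
  have h := jensen (fun ω => (Fintype.card Ω : ℝ) / cs f ω) (fun ω => div_pos hpos (cs_pos' f ω)) N
    (lt_of_lt_of_le himg hN) (by
      have : ∑ ω, (Fintype.card Ω : ℝ) / cs f ω = Fintype.card Ω * ∑ ω, (1 : ℝ) / cs f ω := by
        rw [Finset.mul_sum]
        exact Finset.sum_congr rfl fun ω _ => by ring
      rw [this, sum_inv_cs]
      exact mul_le_mul_of_nonneg_left hN hpos.le)
  have h2 : ∑ ω, Real.log ((Fintype.card Ω : ℝ) / cs f ω) = Fintype.card Ω * Real.log (Fintype.card Ω) - sl f := by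
    unfold sl
    have : ∀ ω, Real.log ((Fintype.card Ω : ℝ) / cs f ω) = Real.log (Fintype.card Ω) - Real.log (cs f ω) :=
      fun ω => Real.log_div hpos.ne' (cs_pos' f ω).ne'
    simp only [this]
    rw [Finset.sum_sub_distrib, Finset.sum_const, Finset.card_univ, nsmul_eq_mul]
  rw [h2] at h
  exact h

lemma sl_le (f : Ω → α) (C : ℝ) (hC : 0 < C) (h : ∑ ω, (cs f ω : ℝ) ≤ Fintype.card Ω * C) :
    sl f ≤ Fintype.card Ω * Real.log C :=
  jensen (fun ω => (cs f ω : ℝ)) (fun ω => cs_pos' f ω) C hC h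

/-- Submodularity. -/
lemma sl_submod (f : Ω → α) (g : Ω → β) (h : Ω → γ) (hg : ∀ ω ω', g ω' = g ω → f ω' = f ω)
    (hh : ∀ ω ω', h ω' = h ω → f ω' = f ω) :
    sl g + sl h ≤ sl f + sl (fun ω => (g ω, h ω)) := by
  set k : Ω → β × γ := fun ω => (g ω, h ω) with hk
  have key : ∑ ω, ((cs g ω : ℝ) * cs h ω / (cs f ω * cs k ω)) ≤ Fintype.card Ω * 1 := by
    -- rewrite as a sum over pairs
    have h1 : ∀ ω, ((cs g ω : ℝ) * cs h ω / (cs f ω * cs k ω)) =
        ∑ ω1, ∑ ω2, if g ω1 = g ω ∧ h ω2 = h ω then (1 : ℝ) / (cs f ω * cs k ω) else 0 := by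
      intro ω
      have h2 : ∀ ω1, (∑ ω2, if g ω1 = g ω ∧ h ω2 = h ω then (1 : ℝ) / (cs f ω * cs k ω) else 0) =
          if g ω1 = g ω then (cs h ω : ℝ) * (1 / (cs f ω * cs k ω)) else 0 := by
        intro ω1
        by_cases hc : g ω1 = g ω
        · simp only [hc, true_and, if_true]
          rw [← Finset.sum_filter, Finset.sum_const, nsmul_eq_mul]
          rfl
        · simp [hc]
      simp only [h2]
      rw [← Finset.sum_filter, Finset.sum_const, nsmul_eq_mul]
      have : ((univ.filter (fun ω1 => g ω1 = g ω)).card : ℝ) = cs g ω := rfl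
      rw [this]
      ring
    simp only [h1]
    rw [Finset.sum_comm]
    have h3 : ∀ ω1, (∑ ω, ∑ ω2, if g ω1 = g ω ∧ h ω2 = h ω then (1 : ℝ) / (cs f ω * cs k ω) else 0) ≤ 1 := by
      intro ω1
      rw [Finset.sum_comm]
      have h4 : ∀ ω2, (∑ ω, if g ω1 = g ω ∧ h ω2 = h ω then (1 : ℝ) / (cs f ω * cs k ω) else 0) ≤
          if f ω2 = f ω1 then (1 : ℝ) / cs f ω1 else 0 := by
        intro ω2
        by_cases hex : ∃ ω0, g ω1 = g ω0 ∧ h ω2 = h ω0
        · obtain ⟨ω0, h5, h6⟩ := hex
          have hf1 : f ω1 = f ω0 := hg ω0 ω1 h5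
          have hf2 : f ω2 = f ω0 := hh ω0 ω2 h6
          rw [if_pos (by rw [hf1, hf2]), ← Finset.sum_filter]
          have h7 : ∀ ω ∈ univ.filter (fun ω => g ω1 = g ω ∧ h ω2 = h ω),
              (1 : ℝ) / (cs f ω * cs k ω) = 1 / (cs f ω0 * cs k ω0) := by
            intro ω hω
            have h8 := (Finset.mem_filter.mp hω).2
            have h9 : k ω = k ω0 := by
              simp only [hk]
              rw [← h8.1, ← h8.2, h5, h6]
            have h10 : f ω = f ω0 := hg ω0 ω (by rw [← h8.1, h5])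
            rw [cs_same h9, cs_same h10]
          rw [Finset.sum_congr rfl h7, Finset.sum_const, nsmul_eq_mul]
          have h11 : ((univ.filter (fun ω => g ω1 = g ω ∧ h ω2 = h ω)).card : ℝ) = cs k ω0 := by
            unfold cs
            congr 2
            ext ω
            simp only [hk, Prod.mk.injEq, h5, h6, Finset.mem_filter, Finset.mem_univ, true_and]
            exact ⟨fun hh => ⟨hh.1.symm, hh.2.symm⟩, fun hh => ⟨hh.1.symm, hh.2.symm⟩⟩
          rw [h11, cs_same hf1]
          have := cs_pos' k ω0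
          have := cs_pos' f ω0
          apply le_of_eq
          field_simp
        · push Not at hex
          have : ∀ ω ∈ (univ : Finset Ω), (if g ω1 = g ω ∧ h ω2 = h ω then (1 : ℝ) / (cs f ω * cs k ω) else 0) = 0 := by
            intro ω _
            rw [if_neg]
            rintro ⟨h5, h6⟩
            exact hex ω h5 h6
          rw [Finset.sum_eq_zero this]
          positivity
      refine (Finset.sum_le_sum fun ω2 _ => h4 ω2).trans ?_
      rw [← Finset.sum_filter, Finset.sum_const, nsmul_eq_mul]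
      have : ((univ.filter (fun ω2 => f ω2 = f ω1)).card : ℝ) = cs f ω1 := rfl
      rw [this]
      exact le_of_eq (mul_one_div_cancel (cs_pos' f ω1).ne')
    refine (Finset.sum_le_sum fun ω1 _ => h3 ω1).trans ?_
    rw [Finset.sum_const, Finset.card_univ, nsmul_eq_mul]
  have hj := jensen _ (fun ω => by
    have := cs_pos' f ω; have := cs_pos' g ω; have := cs_pos' h ω; have := cs_pos' k ω
    positivity) 1 one_pos key
  rw [Real.log_one, mul_zero] at hj
  have h2 : ∀ ω, Real.log ((cs g ω : ℝ) * cs h ω / (cs f ω * cs k ω)) =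
      Real.log (cs g ω) + Real.log (cs h ω) - (Real.log (cs f ω) + Real.log (cs k ω)) := by
    intro ω
    have h3 := cs_pos' f ω
    have h4 := cs_pos' g ω
    have h5 := cs_pos' h ω
    have h6 := cs_pos' k ω
    rw [Real.log_div (by positivity) (by positivity), Real.log_mul h4.ne' h5.ne', Real.log_mul h3.ne' h6.ne']
  simp only [h2] at hj
  rw [Finset.sum_sub_distrib, Finset.sum_add_distrib, Finset.sum_add_distrib] at hj
  unfold sl
  linarith

end

/-! ### Information inequalities for uniform spaces -/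

/-- The tuple of the variables in `S`. -/
def tup {Ω β : Type} {n : ℕ} (X : Fin n → Ω → β) (S : Finset (Fin n)) (ω : Ω) : S → β := fun i => X i ω

lemma tup_eq {Ω β : Type} {n : ℕ} (X : Fin n → Ω → β) (S : Finset (Fin n)) (ω ω' : Ω) :
    tup X S ω' = tup X S ω ↔ ∀ i ∈ S, X i ω' = X i ω := by
  unfold tup
  constructor
  · intro h i hi
    exact congrFun h ⟨i, hi⟩
  · intro h
    funext i
    exact h i i.2

/-- The inequality `∑ H(X_{S j}) ≥ ∑ H(X_{T j})` is valid for uniform distributions. -/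
def UValid {ℓ n : ℕ} (S T : Fin ℓ → Finset (Fin n)) : Prop :=
  ∀ (Ω : Type) [Fintype Ω] (X : Fin n → Ω → ℕ), ∑ j, sl (tup X (S j)) ≤ ∑ j, sl (tup X (T j))

/-- Functions with values in any type can be replaced by functions with values in `ℕ`. -/
lemma exists_nat_valued {Ω β : Type} [Finite Ω] {n : ℕ} (X : Fin n → Ω → β) :
    ∃ X' : Fin n → Ω → ℕ, ∀ i ω ω', X' i ω' = X' i ω ↔ X i ω' = X i ω := by
  have := Fintype.ofFinite Ω
  rcases isEmpty_or_nonempty Ω with hΩ | hΩ
  · exact ⟨fun _ _ => 0, fun i ω => hΩ.elim ω⟩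
  refine ⟨fun i ω => Fintype.equivFin Ω (Function.invFun (X i) (X i ω)), fun i ω ω' => ?_⟩
  constructor
  · intro h
    have h1 := (Fintype.equivFin Ω).injective (Fin.ext h)
    have h2 := congrArg (X i) h1
    have h3 : X i (Function.invFun (X i) (X i ω')) = X i ω' := Function.invFun_eq ⟨ω', rfl⟩
    have h4 : X i (Function.invFun (X i) (X i ω)) = X i ω := Function.invFun_eq ⟨ω, rfl⟩
    rw [← h3, ← h4]
    exact h2
  · intro h
    simp only [h]

lemma UValid.gen {ℓ n : ℕ} {S T : Fin ℓ → Finset (Fin n)} (h : UValid S T) {Ω β : Type} [Fintype Ω]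
    (X : Fin n → Ω → β) : ∑ j, sl (tup X (S j)) ≤ ∑ j, sl (tup X (T j)) := by
  obtain ⟨X', hX'⟩ := exists_nat_valued X
  have h1 := h Ω X'
  have h2 : ∀ U : Finset (Fin n), sl (tup X' U) = sl (tup X U) := fun U =>
    sl_congr fun ω ω' => by
      rw [tup_eq, tup_eq]
      exact forall_congr' fun i => forall_congr' fun _ => hX' i ω ω'
  simpa only [h2] using h1

/-- Conditional form. -/
lemma UValid.cond {ℓ n : ℕ} {S T : Fin ℓ → Finset (Fin n)} (h : UValid S T) {Ω β δ : Type} [Fintype Ω]
    (Q : Ω → δ) (X : Fin n → Ω → β) :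
    ∑ j, sl (fun ω => (Q ω, tup X (S j) ω)) ≤ ∑ j, sl (fun ω => (Q ω, tup X (T j) ω)) := by
  -- split according to the value of `Q`
  have key : ∀ U : Finset (Fin n), sl (fun ω => (Q ω, tup X U ω)) =
      ∑ q ∈ univ.image Q, sl (Ω := {ω // Q ω = q}) (tup (fun i (ω : {ω // Q ω = q}) => X i ω.1) U) := by
    intro U
    unfold sl
    rw [← Finset.sum_fiberwise_of_maps_to (s := univ) (t := univ.image Q) (g := Q)
      (fun ω _ => Finset.mem_image_of_mem Q (Finset.mem_univ ω))]
    refine Finset.sum_congr rfl fun q _ => ?_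
    rw [Finset.sum_subtype (p := fun ω => Q ω = q) (univ.filter (fun ω => Q ω = q)) (fun ω => by simp)
      (fun ω => Real.log (cs (fun ω => (Q ω, tup X U ω)) ω))]
    refine Finset.sum_congr rfl fun ω _ => ?_
    congr 2
    unfold cs
    symm
    refine Finset.card_bij (fun a _ => a.1) ?_ ?_ ?_
    · intro a ha
      simp only [Finset.mem_filter, Finset.mem_univ, true_and, Prod.mk.injEq] at ha ⊢
      exact ⟨a.2.trans ω.2.symm, ha⟩
    · intro a _ b _ hab
      exact Subtype.ext hab
    · intro b hb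
      simp only [Finset.mem_filter, Finset.mem_univ, true_and, Prod.mk.injEq] at hb
      exact ⟨⟨b, hb.1.trans ω.2⟩, by simp only [Finset.mem_filter, Finset.mem_univ, true_and]; exact hb.2, rfl⟩
  simp only [key]
  rw [Finset.sum_comm, Finset.sum_comm (s := univ) (t := univ.image Q)]
  apply Finset.sum_le_sum
  intro q _
  exact h.gen _

end Pool.Agent.H211F52
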