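import Mathlib
import Pool.Agent.H211F52.Comp
import Pool.Agent.H211F52.Ent

/-!
# The pair of graphs attached to an information inequality
-/

set_option autoImplicit false

namespace Pool.Agent.H211F52

open Finset Classical

/-! ### Disjoint unions -/

section sigma

variable {ι : Type} {V : ι → Type}

/-- Adjacency in a disjoint union. -/
inductive SAdj (G : ∀ k, SimpleGraph (V k)) : (Σ k, V k) → (Σ k, V k) → Prop
  | mk (k : ι) (a b : V k) (h : (G k).Adj a b) : SAdj G ⟨k, a⟩ ⟨k, b⟩

/-- The disjoint union of a family of graphs. -/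
def sg (G : ∀ k, SimpleGraph (V k)) : SimpleGraph (Σ k, V k) where
  Adj := SAdj G
  symm := ⟨fun _ _ h => by
    cases h with
    | mk k a b h => exact SAdj.mk k b a h.symm⟩
  loopless := ⟨fun a h => by
    cases h with
    | mk k a b h => exact h.ne rfl⟩

lemma sg_adj (G : ∀ k, SimpleGraph (V k)) (k : ι) (a b : V k) : (sg G).Adj ⟨k, a⟩ ⟨k, b⟩ ↔ (G k).Adj a b := by
  constructor
  · intro h
    cases h with
    | mk k a b h => exact h
  · exact fun h => SAdj.mk k a b h

lemma sg_fst (G : ∀ k, SimpleGraph (V k)) {a b : Σ k, V k} (h : (sg G).Adj a b) : a.1 = b.1 := by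
  cases h with
  | mk k a b h => rfl

lemma t_sg [Fintype ι] [∀ k, Fintype (V k)] {Ω : Type} [Fintype Ω] [Nonempty Ω] (G : ∀ k, SimpleGraph (V k))
    (W : SimpleGraph Ω) : t (sg G) W = ∏ k, t (G k) W := by
  unfold t
  rw [← av_piCurry (fun k y => ind (IsHom (G k) W y))]
  congr 1
  funext w
  rw [← ind_forall]
  apply ind_congr
  constructor
  · intro h k a b hab
    exact h ⟨k, a⟩ ⟨k, b⟩ (SAdj.mk k a b hab)
  · intro h a b hab
    cases hab with
    | mk k a b hab => exact h k a b hab

end sigma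

/-! ### Homomorphism counts -/

/-- The number of homomorphisms. -/
noncomputable def hc {V Y : Type} (G : SimpleGraph V) (W : SimpleGraph Y) : ℕ :=
  Nat.card {f : V → Y // IsHom G W f}

lemma t_eq_hc {V Y : Type} [Fintype V] [Fintype Y] (G : SimpleGraph V) (W : SimpleGraph Y) :
    t G W = hc G W / (Fintype.card Y : ℝ) ^ Fintype.card V := by
  unfold t hc
  rw [av_eq, Fintype.card_fun]
  push_cast
  congr 1
  rw [Nat.card_eq_fintype_card, Fintype.card_subtype, Finset.card_filter]
  push_cast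
  refine Finset.sum_congr rfl fun f _ => ?_
  unfold ind
  split_ifs <;> rfl

/-! ### The graphs -/

/-- Labels: `inl none` is the vertex for the whole tuple, `inl (some j)` the vertex for the tuple `S j`, and
`inr i` the vertex for the `i`-th variable. -/
abbrev Lab (ℓ n : ℕ) : Type := Option (Fin ℓ) ⊕ Fin n

/-- Ranks of labels. -/
def rk {ℓ n : ℕ} : Lab ℓ n → ℕ
  | Sum.inl none => 0
  | Sum.inl (some j) => 1 + j
  | Sum.inr i => 1 + ℓ + i

lemma rk_injective {ℓ n : ℕ} : Function.Injective (rk (ℓ := ℓ) (n := n)) := by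
  intro a b h
  rcases a with (_ | a) | a <;> rcases b with (_ | b) | b <;> simp only [rk] at h <;>
    first
    | rfl
    | (exfalso; omega)
    | (congr 2; exact Fin.ext (by omega))

lemma rk_lt {ℓ n : ℕ} (v : Lab ℓ n) : rk v < 1 + ℓ + n := by
  rcases v with (_ | v) | v <;> simp only [rk] <;> omega

/-- The vertices of the main pattern: a clique and the labels. -/
abbrev PV (ℓ n : ℕ) : Type := Fin (ℓ + n + 4) ⊕ Lab ℓ n

/-- Adjacency in the main pattern. -/
def padj {ℓ n : ℕ} (S : Fin ℓ → Finset (Fin n)) : PV ℓ n → PV ℓ n → Prop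
  | Sum.inl u, Sum.inl u' => u ≠ u'
  | Sum.inl u, Sum.inr v => rk v + 3 ≤ u
  | Sum.inr v, Sum.inl u => rk v + 3 ≤ u
  | Sum.inr (Sum.inr i), Sum.inr (Sum.inl o) => ∀ j, o = some j → i ∈ S j
  | Sum.inr (Sum.inl o), Sum.inr (Sum.inr i) => ∀ j, o = some j → i ∈ S j
  | Sum.inr (Sum.inr _), Sum.inr (Sum.inr _) => False
  | Sum.inr (Sum.inl _), Sum.inr (Sum.inl _) => False

lemma padj_symm {ℓ n : ℕ} (S : Fin ℓ → Finset (Fin n)) (p q : PV ℓ n) (h : padj S p q) : padj S q p := by
  rcases p with u | (o | i) <;> rcases q with u' | (o' | i') <;> simp only [padj] at h ⊢ <;>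
    first
    | exact h
    | exact Ne.symm h

lemma padj_irrefl {ℓ n : ℕ} (S : Fin ℓ → Finset (Fin n)) (p : PV ℓ n) : ¬ padj S p p := by
  rcases p with u | (o | i) <;> simp [padj]

/-- The main pattern. -/
def PG {ℓ n : ℕ} (S : Fin ℓ → Finset (Fin n)) : SimpleGraph (PV ℓ n) where
  Adj := padj S
  symm := ⟨fun p q h => padj_symm S p q h⟩
  loopless := ⟨fun p h => padj_irrefl S p h⟩

/-- The clique and the vertices of the variables in `U`. -/
def zs {ℓ n : ℕ} (U : Finset (Fin n)) : PV ℓ n → Prop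
  | Sum.inl _ => True
  | Sum.inr (Sum.inl _) => False
  | Sum.inr (Sum.inr i) => i ∈ U

/-- The vertices of the components: `r = 0` is the clique with the tuple `S j`, `r = 1` is the main pattern
without the vertex of the tuple `S j`, `r = 2` is two copies of the main pattern glued along `T j`. -/
def pres {ℓ n : ℕ} (S T : Fin ℓ → Finset (Fin n)) (k : Fin ℓ × Fin 3) (q : PV ℓ n × Bool) : Prop :=
  (k.2 = 0 ∧ q.2 = false ∧ (zs (S k.1) q.1 ∨ q.1 = Sum.inr (Sum.inl (some k.1)))) ∨
  (k.2 = 1 ∧ q.2 = false ∧ q.1 ≠ Sum.inr (Sum.inl (some k.1))) ∨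
  (k.2 = 2 ∧ (q.2 = false ∨ ¬ zs (T k.1) q.1))

/-- A subgraph of two copies of `G` glued along `Z`. -/
def dbl {α : Type} (G : SimpleGraph α) (Z : α → Prop) (pr : α × Bool → Prop) : SimpleGraph {q : α × Bool // pr q} where
  Adj q q' := G.Adj q.1.1 q'.1.1 ∧ (q.1.2 = q'.1.2 ∨ Z q.1.1 ∨ Z q'.1.1)
  symm := ⟨fun _ _ h => ⟨h.1.symm, h.2.elim (fun h => Or.inl h.symm) (fun h => Or.inr h.symm)⟩⟩
  loopless := ⟨fun _ h => h.1.ne rfl⟩

/-- The components of the first graph. -/
def CG {ℓ n : ℕ} (S T : Fin ℓ → Finset (Fin n)) (k : Fin ℓ × Fin 3) : SimpleGraph {q : PV ℓ n × Bool // pres S T k q} :=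
  dbl (PG S) (zs (T k.1)) (pres S T k)

/-- The first graph. -/
def G1 {ℓ n : ℕ} (S T : Fin ℓ → Finset (Fin n)) : SimpleGraph (Σ k : Fin ℓ × Fin 3, {q : PV ℓ n × Bool // pres S T k q}) :=
  sg (CG S T)

/-- The second graph. -/
def G2 {ℓ n : ℕ} (S : Fin ℓ → Finset (Fin n)) : SimpleGraph (Σ _ : Fin ℓ × Fin 3, PV ℓ n) :=
  sg (fun _ => PG S)

/-- Each variable occurs equally often in both lists. -/
def Bal {ℓ n : ℕ} (S T : Fin ℓ → Finset (Fin n)) : Prop :=
  ∀ i, (univ.filter (fun j => i ∈ S j)).card = (univ.filter (fun j => i ∈ T j)).card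

/-- Every label occurs equally often in the two graphs. -/
lemma label_balance {ℓ n : ℕ} {S T : Fin ℓ → Finset (Fin n)} (hb : Bal S T) (δ : PV ℓ n → ℝ) :
    ∏ k : Fin ℓ × Fin 3, ∏ q : {q : PV ℓ n × Bool // pres S T k q}, δ q.1.1 =
      ∏ _k : Fin ℓ × Fin 3, ∏ p, δ p := by
  have hsub : ∀ k : Fin ℓ × Fin 3, ∏ q : {q : PV ℓ n × Bool // pres S T k q}, δ q.1.1 =
      (∏ p, if pres S T k (p, false) then δ p else 1) * ∏ p, if pres S T k (p, true) then δ p else 1 := by
    intro k
    rw [← Finset.prod_subtype (univ.filter (fun q => pres S T k q)) (fun q => by simp)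
      (fun q : PV ℓ n × Bool => δ q.1), Finset.prod_filter, Fintype.prod_prod_type, ← Finset.prod_mul_distrib]
    refine Finset.prod_congr rfl fun p _ => ?_
    rw [Fintype.prod_bool, mul_comm]
  set D := ∏ p, δ p with hD
  set A : Finset (Fin n) → ℝ := fun U => ∏ p, if zs (ℓ := ℓ) U p then δ p else 1 with hA
  set A' : Finset (Fin n) → ℝ := fun U => ∏ p, if ¬ zs (ℓ := ℓ) U p then δ p else 1 with hA'
  have hAA' : ∀ U, A U * A' U = D := by
    intro U
    rw [hA, hA', hD]
    simp only
    rw [← Finset.prod_mul_distrib]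
    refine Finset.prod_congr rfl fun p _ => ?_
    by_cases h : zs (ℓ := ℓ) U p <;> simp [h]
  set B : Fin ℓ → ℝ := fun j => ∏ p, if p ≠ (Sum.inr (Sum.inl (some j)) : PV ℓ n) then δ p else 1 with hB
  have hBD : ∀ j, δ (Sum.inr (Sum.inl (some j))) * B j = D := by
    intro j
    rw [hB, hD]
    simp only
    rw [← Finset.mul_prod_erase univ δ (Finset.mem_univ (Sum.inr (Sum.inl (some j)) : PV ℓ n))]
    congr 1
    rw [← Finset.prod_filter]
    congr 1
    ext p
    simp
  have h0 : ∀ j, ∏ q : {q : PV ℓ n × Bool // pres S T (j, 0) q}, δ q.1.1 = A (S j) * δ (Sum.inr (Sum.inl (some j))) := by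
    intro j
    rw [hsub]
    have e1 : ∀ p : PV ℓ n, (if pres S T (j, 0) (p, true) then δ p else 1) = 1 := by
      intro p
      rw [if_neg]
      simp [pres]
    have e2 : ∀ p : PV ℓ n, (if pres S T (j, 0) (p, false) then δ p else 1) =
        (if zs (S j) p then δ p else 1) * (if p = Sum.inr (Sum.inl (some j)) then δ p else 1) := by
      intro p
      by_cases hp : p = Sum.inr (Sum.inl (some j))
      · subst hp
        simp [pres, zs]
      · simp [pres, hp]
    rw [Finset.prod_congr rfl (fun p _ => e1 p), Finset.prod_const_one, mul_one,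
      Finset.prod_congr rfl (fun p _ => e2 p), Finset.prod_mul_distrib]
    congr 1
    rw [Finset.prod_ite_eq' univ (Sum.inr (Sum.inl (some j)) : PV ℓ n) δ]
    simp
  have h1 : ∀ j, ∏ q : {q : PV ℓ n × Bool // pres S T (j, 1) q}, δ q.1.1 = B j := by
    intro j
    rw [hsub]
    have e1 : ∀ p : PV ℓ n, (if pres S T (j, 1) (p, true) then δ p else 1) = 1 := by
      intro p
      rw [if_neg]
      simp [pres]
    have e2 : ∀ p : PV ℓ n, (if pres S T (j, 1) (p, false) then δ p else 1) =
        if p ≠ (Sum.inr (Sum.inl (some j)) : PV ℓ n) then δ p else 1 := by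
      intro p
      simp [pres]
    rw [Finset.prod_congr rfl (fun p _ => e1 p), Finset.prod_const_one, mul_one,
      Finset.prod_congr rfl (fun p _ => e2 p)]
  have h2 : ∀ j, ∏ q : {q : PV ℓ n × Bool // pres S T (j, 2) q}, δ q.1.1 = D * A' (T j) := by
    intro j
    rw [hsub]
    have e1 : ∀ p : PV ℓ n, (if pres S T (j, 2) (p, true) then δ p else 1) =
        if ¬ zs (T j) p then δ p else 1 := by
      intro p
      simp [pres]
    have e2 : ∀ p : PV ℓ n, (if pres S T (j, 2) (p, false) then δ p else 1) = δ p := by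
      intro p
      simp [pres]
    rw [Finset.prod_congr rfl (fun p _ => e1 p), Finset.prod_congr rfl (fun p _ => e2 p)]
  have hbal : ∏ j, A (S j) = ∏ j, A (T j) := by
    rw [hA]
    simp only
    rw [Finset.prod_comm, Finset.prod_comm (s := univ) (t := univ) (f := fun j p => if zs (ℓ := ℓ) (T j) p then δ p else 1)]
    refine Finset.prod_congr rfl fun p _ => ?_
    rcases p with u | (o | i)
    · simp [zs]
    · simp [zs]
    · have e : ∀ U : Finset (Fin n), (if zs (ℓ := ℓ) U (Sum.inr (Sum.inr i)) then δ (Sum.inr (Sum.inr i)) else 1) =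
          if i ∈ U then δ (Sum.inr (Sum.inr i)) else 1 := by
        intro U
        by_cases h : i ∈ U <;> simp [zs, h]
      rw [Finset.prod_congr rfl (fun j _ => e (S j)), Finset.prod_congr rfl (fun j _ => e (T j)),
        ← Finset.prod_filter, ← Finset.prod_filter, Finset.prod_const, Finset.prod_const, hb i]
  rw [Fintype.prod_prod_type, Fintype.prod_prod_type]
  simp only [Fin.prod_univ_three, h0, h1, h2]
  have e3 : ∀ j, A (S j) * δ (Sum.inr (Sum.inl (some j))) * B j * (D * A' (T j)) = A (S j) * (D * D * A' (T j)) := by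
    intro j
    rw [← hBD j]
    ring
  rw [Finset.prod_congr rfl (fun j _ => e3 j), Finset.prod_mul_distrib, hbal, ← Finset.prod_mul_distrib]
  refine Finset.prod_congr rfl fun j _ => ?_
  rw [← hAA' (T j)]
  ring

end Pool.Agent.H211F52
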