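import Mathlib
import Pool.Agent.H211F52.Pattern

/-!
# Weighted blow-ups and the dominating homomorphisms
-/

set_option autoImplicit false

namespace Pool.Agent.H211F52

open Finset Classical

/-! ### Blow-ups with integer weights -/

section blow

variable {V Ω : Type} [Fintype V] [Fintype Ω]

/-- The weighted number of homomorphisms. -/
noncomputable def ws (w : Ω → ℕ) (G : SimpleGraph V) (W : SimpleGraph Ω) : ℝ :=
  ∑ f : V → Ω, (∏ a, (w (f a) : ℝ)) * ind (IsHom G W f)

/-- Maps into a blow-up. -/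
def blowEquiv (w : Ω → ℕ) : (V → Σ ω, Fin (w ω)) ≃ Σ f : V → Ω, ∀ a, Fin (w (f a)) where
  toFun F := ⟨fun a => (F a).1, fun a => (F a).2⟩
  invFun p := fun a => ⟨p.1 a, p.2 a⟩
  left_inv _ := rfl
  right_inv _ := rfl

lemma t_blow (w : Ω → ℕ) (G : SimpleGraph V) (W : SimpleGraph Ω) :
    t G (W.comap (Sigma.fst : (Σ ω, Fin (w ω)) → Ω)) = ws w G W / ((∑ ω, w ω : ℕ) : ℝ) ^ Fintype.card V := by
  unfold t ws
  rw [av_eq, Fintype.card_fun, Fintype.card_sigma]
  simp only [Fintype.card_fin]
  push_cast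
  congr 1
  rw [← Equiv.sum_comp (blowEquiv w).symm, Fintype.sum_sigma]
  refine Finset.sum_congr rfl fun f _ => ?_
  have : ∀ m : (∀ a, Fin (w (f a))), ind (IsHom G (W.comap (Sigma.fst : (Σ ω, Fin (w ω)) → Ω))
      ((blowEquiv w).symm ⟨f, m⟩)) = ind (IsHom G W f) := fun m => rfl
  rw [Finset.sum_congr rfl (fun m _ => this m), Finset.sum_const, Finset.card_univ, Fintype.card_pi, nsmul_eq_mul]
  simp only [Fintype.card_fin]
  push_cast
  rfl

lemma ws_nonneg (w : Ω → ℕ) (G : SimpleGraph V) (W : SimpleGraph Ω) : 0 ≤ ws w G W :=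
  Finset.sum_nonneg fun _ _ => mul_nonneg (Finset.prod_nonneg fun _ _ => Nat.cast_nonneg _) (ind_nonneg _)

end blow

/-! ### Weights of labels -/

/-- The exponent of the weight of a vertex of the main pattern. -/
def om {ℓ n : ℕ} : PV ℓ n → ℕ
  | Sum.inl _ => 0
  | Sum.inr v => rk v + 1

/-- A proper colouring of the main pattern. -/
def col {ℓ n : ℕ} : PV ℓ n → Fin (ℓ + n + 4)
  | Sum.inl u => u
  | Sum.inr (Sum.inl _) => ⟨1, by omega⟩
  | Sum.inr (Sum.inr _) => ⟨0, by omega⟩

lemma col_proper {ℓ n : ℕ} {S : Fin ℓ → Finset (Fin n)} {p q : PV ℓ n} (h : padj S p q) : col p ≠ col q := by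
  rcases p with u | (o | i) <;> rcases q with u' | (o' | i') <;> simp only [padj, col] at h ⊢
  · exact h
  · intro hh; rw [hh] at h; simp only at h; omega
  · intro hh; rw [hh] at h; simp only at h; omega
  · intro hh; rw [← hh] at h; simp only at h; omega
  · intro hh
    have := congrArg Fin.val hh
    simp only at this
    omega
  · intro hh; rw [← hh] at h; simp only at h; omega
  · intro hh
    have := congrArg Fin.val hh
    simp only at this
    omega

section top

variable {ℓ n : ℕ} {S : Fin ℓ → Finset (Fin n)} {V : Type}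

/-- The structure of homomorphisms from a pattern that contains the clique. -/
lemma top_analysis (T : SimpleGraph V) (lab : V → PV ℓ n) (core : Fin (ℓ + n + 4) → V)
    (ha : ∀ u, lab (core u) = Sum.inl u) (hb : ∀ u a, padj S (Sum.inl u) (lab a) → T.Adj (core u) a)
    (θ : V → PV ℓ n) (hθ : ∀ a b, T.Adj a b → padj S (θ a) (θ b)) :
    (∀ u, θ (core u) = Sum.inl (col (θ (core u)))) ∧
      ∀ a v, lab a = Sum.inr v → om (θ a) ≤ rk v + 1 ∧ (om (θ a) = rk v + 1 → θ a = Sum.inr v) := by
  have hcl : ∀ u u', u ≠ u' → padj S (θ (core u)) (θ (core u')) := by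
    intro u u' hne
    apply hθ
    apply hb
    rw [ha]
    exact hne
  have hinj : Function.Injective (fun u => col (θ (core u))) := by
    intro u u' h
    by_contra hne
    exact col_proper (hcl u u' hne) h
  have hsurj : Function.Surjective (fun u => col (θ (core u))) := Finite.surjective_of_injective hinj
  obtain ⟨u2, hu2⟩ := hsurj ⟨2, by omega⟩
  have hu2' : θ (core u2) = Sum.inl ⟨2, by omega⟩ := by
    simp only at hu2
    rcases hθ2 : θ (core u2) with u | (o | i)
    · rw [hθ2] at hu2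
      simp only [col] at hu2
      rw [hu2]
    · rw [hθ2] at hu2
      have := congrArg Fin.val hu2
      simp only [col] at this
      omega
    · rw [hθ2] at hu2
      have := congrArg Fin.val hu2
      simp only [col] at this
      omega
  have h1 : ∀ u, θ (core u) = Sum.inl (col (θ (core u))) := by
    intro u
    by_cases hu : u = u2
    · rw [hu, hu2']
      rfl
    · have h2 := hcl u u2 hu
      rw [hu2'] at h2
      rcases hθu : θ (core u) with u' | v
      · rfl
      · rw [hθu] at h2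
        simp only [padj] at h2
        omega
  refine ⟨h1, ?_⟩
  intro a v hav
  rcases hθa : θ a with u' | v'
  · simp only [om]
    exact ⟨by omega, fun h => by omega⟩
  · have h3 : ∀ u : Fin (ℓ + n + 4), rk v + 3 ≤ u → rk v' + 3 ≤ (col (θ (core u)) : ℕ) := by
      intro u hu
      have h4 : T.Adj (core u) a := hb u a (by rw [hav]; exact hu)
      have h5 := hθ _ _ h4
      rw [h1 u, hθa] at h5
      exact h5
    have h4 : rk v' ≤ rk v := by
      have hc : (univ.filter (fun u : Fin (ℓ + n + 4) => rk v + 3 ≤ (u : ℕ))).card ≤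
          (univ.filter (fun u : Fin (ℓ + n + 4) => rk v' + 3 ≤ (u : ℕ))).card := by
        refine Finset.card_le_card_of_injOn (fun u => col (θ (core u))) ?_ (fun u _ u' _ h => hinj h)
        intro u hu
        simp only [Finset.coe_filter, Finset.mem_univ, true_and, Set.mem_ofPred_eq] at hu ⊢
        exact h3 u hu
      have hcount : ∀ r : ℕ, r ≤ ℓ + n + 4 →
          (univ.filter (fun u : Fin (ℓ + n + 4) => r ≤ (u : ℕ))).card = ℓ + n + 4 - r := by
        intro r hr
        have : (univ.filter (fun u : Fin (ℓ + n + 4) => r ≤ (u : ℕ))).card = (Finset.Ico r (ℓ + n + 4)).card := by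
          refine Finset.card_bij (fun u _ => (u : ℕ)) ?_ ?_ ?_
          · intro u hu
            simp only [Finset.mem_filter, Finset.mem_univ, true_and] at hu
            exact Finset.mem_Ico.mpr ⟨hu, u.2⟩
          · intro u _ u' _ h
            exact Fin.ext h
          · intro b hb
            rw [Finset.mem_Ico] at hb
            exact ⟨⟨b, hb.2⟩, by simp [hb.1], rfl⟩
        rw [this, Nat.card_Ico]
      have h5 := rk_lt v
      have h6 := rk_lt v'
      rw [hcount _ (by omega), hcount _ (by omega)] at hc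
      omega
    simp only [om]
    refine ⟨by omega, fun h => ?_⟩
    have : rk v' = rk v := by omega
    rw [rk_injective this]

variable {Γ β : Type}

/-- The graph built from functions `F i` on `Γ`. -/
def WG (S : Fin ℓ → Finset (Fin n)) (F : Fin n → Γ → β) : SimpleGraph (PV ℓ n × Γ) where
  Adj a b := padj S a.1 b.1 ∧ (∀ i v, a.1 = Sum.inr (Sum.inr i) → b.1 = Sum.inr v → F i a.2 = F i b.2) ∧
    (∀ i v, b.1 = Sum.inr (Sum.inr i) → a.1 = Sum.inr v → F i b.2 = F i a.2)
  symm := ⟨fun _ _ h => ⟨padj_symm S _ _ h.1, h.2.2, h.2.1⟩⟩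
  loopless := ⟨fun _ h => padj_irrefl S _ h.1⟩

/-- The compatibility of an assignment with a labelled pattern. -/
def Cmp (T : SimpleGraph V) (lab : V → PV ℓ n) (F : Fin n → Γ → β) (γ : V → Γ) : Prop :=
  ∀ a b, T.Adj a b → ∀ i v, lab a = Sum.inr (Sum.inr i) → lab b = Sum.inr v → F i (γ a) = F i (γ b)

/-- The number of dominating homomorphisms. -/
noncomputable def topn [Fintype V] (S : Fin ℓ → Finset (Fin n)) (T : SimpleGraph V) (lab : V → PV ℓ n)
    (F : Fin n → Γ → β) : ℕ :=
  Nat.card {f : V → PV ℓ n × Γ // IsHom T (WG S F) f ∧ ∑ a, om (f a).1 = ∑ a, om (lab a)}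

lemma wt_le [Fintype V] (T : SimpleGraph V) (lab : V → PV ℓ n) (core : Fin (ℓ + n + 4) → V)
    (ha : ∀ u, lab (core u) = Sum.inl u) (hb : ∀ u a, padj S (Sum.inl u) (lab a) → T.Adj (core u) a)
    (hc : ∀ u a, lab a = Sum.inl u → a = core u) (F : Fin n → Γ → β) (f : V → PV ℓ n × Γ)
    (hf : IsHom T (WG S F) f) :
    (∀ a, om (f a).1 ≤ om (lab a)) ∧
      (∑ a, om (f a).1 = ∑ a, om (lab a) → ∀ a v, lab a = Sum.inr v → (f a).1 = Sum.inr v) := by
  obtain ⟨h1, h2⟩ := top_analysis T lab core ha hb (fun a => (f a).1) (fun a b hab => (hf a b hab).1)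
  have hle : ∀ a, om (f a).1 ≤ om (lab a) := by
    intro a
    rcases hl : lab a with u | v
    · have := h1 u
      rw [← hc u a hl] at this
      rw [this]
      simp [om]
    · exact (h2 a v hl).1
  refine ⟨hle, fun heq a v hl => ?_⟩
  apply (h2 a v hl).2
  have h3 := (Finset.sum_eq_sum_iff_of_le (fun a _ => hle a)).mp heq a (Finset.mem_univ a)
  rw [h3, hl]
  rfl

lemma topn_le [Fintype V] [Finite Γ] (T : SimpleGraph V) (lab : V → PV ℓ n) (core : Fin (ℓ + n + 4) → V)
    (ha : ∀ u, lab (core u) = Sum.inl u) (hb : ∀ u a, padj S (Sum.inl u) (lab a) → T.Adj (core u) a)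
    (hc : ∀ u a, lab a = Sum.inl u → a = core u) (F : Fin n → Γ → β) :
    topn S T lab F ≤ (ℓ + n + 4) ^ (ℓ + n + 4) * Nat.card {γ : V → Γ // Cmp T lab F γ} := by
  have hcard : (ℓ + n + 4) ^ (ℓ + n + 4) * Nat.card {γ : V → Γ // Cmp T lab F γ} =
      Nat.card ((Fin (ℓ + n + 4) → Fin (ℓ + n + 4)) × {γ : V → Γ // Cmp T lab F γ}) := by
    rw [Nat.card_prod, Nat.card_fun]
    simp
  rw [hcard]
  unfold topn
  have hcmp : ∀ f : {f : V → PV ℓ n × Γ // IsHom T (WG S F) f ∧ ∑ a, om (f a).1 = ∑ a, om (lab a)},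
      Cmp T lab F (fun a => (f.1 a).2) := by
    rintro ⟨f, hf, heq⟩ a b hab i v hla hlb
    have h1 := (wt_le T lab core ha hb hc F f hf).2 heq
    exact (hf a b hab).2.1 i v (h1 a _ hla) (h1 b _ hlb)
  refine Nat.card_le_card_of_injective (fun f => (fun u => col (f.1 (core u)).1, ⟨fun a => (f.1 a).2, hcmp f⟩)) ?_
  rintro ⟨f, hf, heq⟩ ⟨f', hf', heq'⟩ h
  simp only [Prod.mk.injEq, Subtype.mk.injEq] at h
  apply Subtype.ext
  funext a
  apply Prod.ext
  · rcases hl : lab a with u | v
    · have h1 := (top_analysis T lab core ha hb (fun a => (f a).1) (fun a b hab => (hf a b hab).1)).1 u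
      have h2 := (top_analysis T lab core ha hb (fun a => (f' a).1) (fun a b hab => (hf' a b hab).1)).1 u
      have h3 := congrFun h.1 u
      simp only at h1 h2 h3 ⊢
      rw [hc u a hl, h1, h2, h3]
    · rw [(wt_le T lab core ha hb hc F f hf).2 heq a v hl, (wt_le T lab core ha hb hc F f' hf').2 heq' a v hl]
  · exact congrFun h.2 a

lemma le_topn [Finite Γ] (F : Fin n → Γ → β) :
    Nat.card {γ : PV ℓ n → Γ // Cmp (PG S) id F γ} ≤ topn S (PG S) id F := by
  unfold topn
  refine Nat.card_le_card_of_injective (fun γ => ⟨fun p => (p, γ.1 p), ?_, rfl⟩) ?_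
  · intro a b hab
    refine ⟨hab, fun i v h1 h2 => γ.2 a b hab i v h1 h2, fun i v h1 h2 => ?_⟩
    exact γ.2 b a (padj_symm S _ _ hab) i v h1 h2
  · intro γ γ' h
    apply Subtype.ext
    funext p
    have := congrFun (Subtype.mk.inj h) p
    exact (Prod.mk.inj this).2

/-- As the weights grow, only the dominating homomorphisms count. -/
lemma tendsto_ws [Fintype V] [Fintype Γ] (T : SimpleGraph V) (lab : V → PV ℓ n) (core : Fin (ℓ + n + 4) → V)
    (ha : ∀ u, lab (core u) = Sum.inl u) (hb : ∀ u a, padj S (Sum.inl u) (lab a) → T.Adj (core u) a)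
    (hc : ∀ u a, lab a = Sum.inl u → a = core u) (F : Fin n → Γ → β) :
    Filter.Tendsto (fun M : ℕ => ws (fun a : PV ℓ n × Γ => (M + 1) ^ om a.1) T (WG S F) /
      ∏ a, ((M + 1 : ℕ) : ℝ) ^ om (lab a)) Filter.atTop (nhds (topn S T lab F : ℝ)) := by
  have h1 : (topn S T lab F : ℝ) = ∑ f : V → PV ℓ n × Γ,
      ind (IsHom T (WG S F) f ∧ ∑ a, om (f a).1 = ∑ a, om (lab a)) := by
    unfold topn
    rw [Nat.card_eq_fintype_card, Fintype.card_subtype, Finset.card_filter]
    push_cast
    refine Finset.sum_congr rfl fun f _ => ?_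
    unfold ind
    split_ifs <;> rfl
  rw [h1]
  have h2 : ∀ M : ℕ, ws (fun a : PV ℓ n × Γ => (M + 1) ^ om a.1) T (WG S F) /
      ∏ a, ((M + 1 : ℕ) : ℝ) ^ om (lab a) = ∑ f : V → PV ℓ n × Γ,
        (((M + 1 : ℕ) : ℝ) ^ (∑ a, om (f a).1) / ((M + 1 : ℕ) : ℝ) ^ (∑ a, om (lab a))) * ind (IsHom T (WG S F) f) := by
    intro M
    unfold ws
    rw [Finset.prod_pow_eq_pow_sum, Finset.sum_div]
    refine Finset.sum_congr rfl fun f _ => ?_
    push_cast
    rw [Finset.prod_pow_eq_pow_sum]
    ring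
  simp only [h2]
  apply tendsto_finsetSum
  intro f _
  by_cases hf : IsHom T (WG S F) f
  · rw [ind_true hf]
    simp only [mul_one]
    have hle : ∑ a, om (f a).1 ≤ ∑ a, om (lab a) :=
      Finset.sum_le_sum fun a _ => (wt_le T lab core ha hb hc F f hf).1 a
    rcases Nat.lt_or_ge (∑ a, om (f a).1) (∑ a, om (lab a)) with hlt | hge
    · rw [ind_false (fun h => hlt.ne h.2)]
      obtain ⟨c, hc'⟩ := Nat.exists_eq_add_of_lt hlt
      have h3 : ∀ M : ℕ, ((M + 1 : ℕ) : ℝ) ^ (∑ a, om (f a).1) / ((M + 1 : ℕ) : ℝ) ^ (∑ a, om (lab a)) =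
          (1 / ((M : ℝ) + 1)) ^ (c + 1) := by
        intro M
        rw [hc', pow_add, pow_add, one_div, inv_pow, pow_add]
        push_cast
        have : (0 : ℝ) < (M : ℝ) + 1 := by positivity
        field_simp
      simp only [h3]
      have h4 := (tendsto_one_div_add_atTop_nhds_zero_nat (𝕜 := ℝ)).pow (c + 1)
      rwa [zero_pow (by omega)] at h4
    · have heq : ∑ a, om (f a).1 = ∑ a, om (lab a) := le_antisymm hle hge
      rw [ind_true ⟨hf, heq⟩, heq]
      have h3 : ∀ M : ℕ, ((M + 1 : ℕ) : ℝ) ^ (∑ a, om (lab a)) / ((M + 1 : ℕ) : ℝ) ^ (∑ a, om (lab a)) = 1 := by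
        intro M
        exact div_self (by positivity)
      simp only [h3]
      exact tendsto_const_nhds
  · rw [ind_false hf, ind_false (fun h => hf h.1)]
    simp only [mul_zero]
    exact tendsto_const_nhds

end top

end Pool.Agent.H211F52
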