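import Mathlib
import Pool.Agent.H211F52.Top

/-!
# From a valid inequality between densities back to quasi-uniform systems
-/

set_option autoImplicit false

namespace Pool.Agent.H211F52

open Finset Classical

section

variable {ℓ n : ℕ} {S T : Fin ℓ → Finset (Fin n)}

/-- The label of a vertex of a component. -/
def labk (S T : Fin ℓ → Finset (Fin n)) (k : Fin ℓ × Fin 3) (q : {q : PV ℓ n × Bool // pres S T k q}) : PV ℓ n :=
  q.1.1

lemma pres_core (k : Fin ℓ × Fin 3) (u : Fin (ℓ + n + 4)) : pres S T k (Sum.inl u, false) := by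
  obtain ⟨j, r⟩ := k
  fin_cases r
  · exact Or.inl ⟨rfl, rfl, Or.inl trivial⟩
  · exact Or.inr (Or.inl ⟨rfl, rfl, by simp⟩)
  · exact Or.inr (Or.inr ⟨rfl, Or.inl rfl⟩)

/-- The clique in a component. -/
def corek (S T : Fin ℓ → Finset (Fin n)) (k : Fin ℓ × Fin 3) (u : Fin (ℓ + n + 4)) :
    {q : PV ℓ n × Bool // pres S T k q} := ⟨(Sum.inl u, false), pres_core k u⟩

lemma corek_a (k : Fin ℓ × Fin 3) (u : Fin (ℓ + n + 4)) : labk S T k (corek S T k u) = Sum.inl u := rfl

lemma corek_b (k : Fin ℓ × Fin 3) (u : Fin (ℓ + n + 4)) (a : {q : PV ℓ n × Bool // pres S T k q})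
    (h : padj S (Sum.inl u) (labk S T k a)) : (CG S T k).Adj (corek S T k u) a :=
  ⟨h, Or.inr (Or.inl trivial)⟩

lemma corek_c (k : Fin ℓ × Fin 3) (u : Fin (ℓ + n + 4)) (a : {q : PV ℓ n × Bool // pres S T k q})
    (h : labk S T k a = Sum.inl u) : a = corek S T k u := by
  obtain ⟨⟨p, b⟩, hq⟩ := a
  simp only [labk] at h
  subst h
  have hb : b = false := by
    rcases hq with ⟨_, h, _⟩ | ⟨_, h, _⟩ | ⟨_, h | h⟩
    · exact h
    · exact h
    · exact h
    · exact absurd trivial h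
  subst hb
  rfl

/-- The inequality between the numbers of compatible assignments. -/
theorem top_ineq (hb : Bal S T) (hv : Valid (G1 S T) (G2 S)) {Γ β : Type} [Fintype Γ] [Nonempty Γ]
    (F : Fin n → Γ → β) :
    ∏ _k : Fin ℓ × Fin 3, (Nat.card {γ : PV ℓ n → Γ // Cmp (PG S) id F γ} : ℝ) ≤
      ∏ k, ((((ℓ + n + 4) ^ (ℓ + n + 4) : ℕ) : ℝ) * Nat.card {γ // Cmp (CG S T k) (labk S T k) F γ}) := by
  have hid_b : ∀ (u : Fin (ℓ + n + 4)) (a : PV ℓ n), padj S (Sum.inl u) (id a) → (PG S).Adj (Sum.inl u) a :=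
    fun u a h => h
  have hid_c : ∀ (u : Fin (ℓ + n + 4)) (a : PV ℓ n), id a = Sum.inl u → a = Sum.inl u := fun u a h => h
  have hlimP := tendsto_finsetProd (univ : Finset (Fin ℓ × Fin 3)) (fun k _ =>
    tendsto_ws (PG S) id (fun u => Sum.inl u) (fun u => rfl) hid_b hid_c F)
  have hlimC := tendsto_finsetProd (univ : Finset (Fin ℓ × Fin 3)) (fun k _ =>
    tendsto_ws (CG S T k) (labk S T k) (corek S T k) (corek_a k) (corek_b k) (corek_c k) F)
  have hle : ∀ M : ℕ, ∏ _k : Fin ℓ × Fin 3, (ws (fun a : PV ℓ n × Γ => (M + 1) ^ om a.1) (PG S) (WG S F) /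
      ∏ a : PV ℓ n, ((M + 1 : ℕ) : ℝ) ^ om (id a)) ≤ ∏ k : Fin ℓ × Fin 3,
      (ws (fun a : PV ℓ n × Γ => (M + 1) ^ om a.1) (CG S T k) (WG S F) /
      ∏ a, ((M + 1 : ℕ) : ℝ) ^ om (labk S T k a)) := by
    intro M
    rw [Finset.prod_div_distrib, Finset.prod_div_distrib]
    have h1 := label_balance hb (fun p => ((M + 1 : ℕ) : ℝ) ^ om p)
    have h2 : (∏ k : Fin ℓ × Fin 3, ∏ a, ((M + 1 : ℕ) : ℝ) ^ om (labk S T k a)) =
        ∏ _k : Fin ℓ × Fin 3, ∏ a : PV ℓ n, ((M + 1 : ℕ) : ℝ) ^ om (id a) := h1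
    rw [h2]
    apply div_le_div_of_nonneg_right _ (Finset.prod_nonneg fun _ _ => Finset.prod_nonneg fun _ _ => by positivity)
    -- compare the densities in the blow-up
    set w : PV ℓ n × Γ → ℕ := fun a => (M + 1) ^ om a.1 with hw
    have hne : Nonempty (Σ a : PV ℓ n × Γ, Fin (w a)) := by
      obtain ⟨g⟩ := (inferInstance : Nonempty Γ)
      exact ⟨⟨(Sum.inl ⟨0, by omega⟩, g), ⟨0, by rw [hw]; positivity⟩⟩⟩
    have h3 := hv.le ((WG S F).comap (Sigma.fst : (Σ a : PV ℓ n × Γ, Fin (w a)) → PV ℓ n × Γ))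
    unfold G1 G2 at h3
    rw [t_sg, t_sg] at h3
    simp only [t_blow] at h3
    rw [Finset.prod_div_distrib, Finset.prod_div_distrib] at h3
    have hN : 0 < ∑ a, w a := by
      obtain ⟨g⟩ := (inferInstance : Nonempty Γ)
      refine Finset.sum_pos (fun a _ => ?_) ⟨(Sum.inl ⟨0, by omega⟩, g), Finset.mem_univ _⟩
      rw [hw]; positivity
    have hN' : (0 : ℝ) < ((∑ a, w a : ℕ) : ℝ) := by exact_mod_cast hN
    have hden : (∏ k : Fin ℓ × Fin 3, ((∑ a, w a : ℕ) : ℝ) ^ Fintype.card {q : PV ℓ n × Bool // pres S T k q}) =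
        ∏ _k : Fin ℓ × Fin 3, ((∑ a, w a : ℕ) : ℝ) ^ Fintype.card (PV ℓ n) := by
      have := label_balance hb (fun _ => ((∑ a, w a : ℕ) : ℝ))
      simpa only [Finset.prod_const, Finset.card_univ] using this
    rw [hden, div_le_div_iff_of_pos_right (Finset.prod_pos fun _ _ => by positivity)] at h3
    exact h3
  have hlim := le_of_tendsto_of_tendsto' hlimP hlimC hle
  calc ∏ _k : Fin ℓ × Fin 3, (Nat.card {γ : PV ℓ n → Γ // Cmp (PG S) id F γ} : ℝ)
      ≤ ∏ _k : Fin ℓ × Fin 3, (topn S (PG S) id F : ℝ) := by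
        apply Finset.prod_le_prod (fun _ _ => Nat.cast_nonneg _)
        intro _ _
        exact_mod_cast le_topn F
    _ ≤ ∏ k, (topn S (CG S T k) (labk S T k) F : ℝ) := hlim
    _ ≤ _ := by
        apply Finset.prod_le_prod (fun _ _ => Nat.cast_nonneg _)
        intro k _
        exact_mod_cast topn_le (CG S T k) (labk S T k) (corek S T k) (corek_a k) (corek_b k) (corek_c k) F

end

/-! ### Averages over stars -/

section star

variable {V Γ : Type} [Fintype V] [Fintype Γ]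

lemma av_star (root : V) (c : V → Γ → Γ → Prop) (e : Γ → ℝ) (dv : V → ℝ)
    (h : ∀ v r, v ≠ root → av (fun g => ind (c v r g)) = dv v) :
    av (fun γ : V → Γ => e (γ root) * ∏ v : {v // v ≠ root}, ind (c v (γ root) (γ v))) =
      av e * ∏ v : {v // v ≠ root}, dv v := by
  have h1 : av (fun γ : V → Γ => e (γ root) * ∏ v : {v // v ≠ root}, ind (c v (γ root) (γ v))) =
      av (fun p : Γ × ({v // v ≠ root} → Γ) => e p.1 * ∏ v : {v // v ≠ root}, ind (c v p.1 (p.2 v))) :=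
    av_equiv (Equiv.funSplitAt root Γ) (fun p : Γ × ({v // v ≠ root} → Γ) =>
      e p.1 * ∏ v : {v // v ≠ root}, ind (c v p.1 (p.2 v)))
  rw [h1, av_prod]
  have h2 : ∀ r : Γ, av (fun y : {v // v ≠ root} → Γ => e r * ∏ v : {v // v ≠ root}, ind (c v r (y v))) =
      e r * ∏ v : {v // v ≠ root}, dv v := by
    intro r
    rw [av_mul_left, av_pi (fun (v : {v // v ≠ root}) g => ind (c v r g))]
    congr 1
    exact Finset.prod_congr rfl fun v _ => h v r v.2
  simp only [h2]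
  rw [av_mul_right]

lemma prod_root {V : Type} [Fintype V] (root : V) (δ : V → ℝ) : ∏ v, δ v = δ root * ∏ v : {v // v ≠ root}, δ v := by
  rw [← Finset.mul_prod_erase univ δ (Finset.mem_univ root)]
  congr 1
  exact (Finset.prod_subtype (univ.erase root) (fun v => by simp) δ)

lemma av_star_le [Nonempty Γ] (root : V) (c : V → Γ → Γ → Prop) (δ : V → ℝ) (P : (V → Γ) → Prop)
    (hroot : 0 ≤ δ root) (h : ∀ v r, v ≠ root → av (fun g => ind (c v r g)) = δ v)
    (hP : ∀ γ, P γ → ∀ v, v ≠ root → c v (γ root) (γ v)) :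
    δ root * av (fun γ => ind (P γ)) ≤ ∏ v, δ v := by
  rw [prod_root root]
  apply mul_le_mul_of_nonneg_left _ hroot
  have h1 := av_star (Γ := Γ) root c (fun _ => 1) δ h
  rw [av_const, one_mul] at h1
  rw [← h1]
  apply av_mono
  intro γ
  rw [one_mul, ← ind_forall]
  exact ind_mono (fun hh v => hP γ hh v v.2)

lemma le_av_star [Nonempty Γ] (root : V) (c : V → Γ → Γ → Prop) (δ : V → ℝ) (P : (V → Γ) → Prop)
    (hroot : 0 ≤ δ root) (h : ∀ v r, v ≠ root → av (fun g => ind (c v r g)) = δ v)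
    (hP : ∀ γ, (∀ v, v ≠ root → c v (γ root) (γ v)) → P γ) :
    ∏ v, δ v ≤ δ root * av (fun γ => ind (P γ)) := by
  rw [prod_root root]
  apply mul_le_mul_of_nonneg_left _ hroot
  have h1 := av_star (Γ := Γ) root c (fun _ => 1) δ h
  rw [av_const, one_mul] at h1
  rw [← h1]
  apply av_mono
  intro γ
  rw [one_mul, ← ind_forall]
  exact ind_mono (fun hh => hP γ (fun v hv => hh ⟨v, hv⟩))

/-- Two stars, the root of the second being constrained by the root of the first. -/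
lemma av_two_stars_le {A B : Type} [Fintype A] [Fintype B] [Nonempty Γ] (rA : A) (rB : B) (cA : A → Γ → Γ → Prop)
    (cB : B → Γ → Γ → Prop) (δA : A → ℝ) (δB : B → ℝ) (e : Γ → Γ → Prop) (d : ℝ) (P : (A → Γ) → (B → Γ) → Prop)
    (hrA : δA rA = 1) (hrB : δB rB = 1)
    (hA : ∀ v r, v ≠ rA → av (fun g => ind (cA v r g)) = δA v)
    (hB : ∀ v r, v ≠ rB → av (fun g => ind (cB v r g)) = δB v) (he : ∀ r, av (fun g => ind (e r g)) = d)
    (hPA : ∀ α β, P α β → ∀ v, v ≠ rA → cA v (α rA) (α v))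
    (hPB : ∀ α β, P α β → ∀ v, v ≠ rB → cB v (β rB) (β v)) (hPe : ∀ α β, P α β → e (α rA) (β rB)) :
    av (fun α : A → Γ => av (fun β : B → Γ => ind (P α β))) ≤ d * ((∏ v, δA v) * ∏ v, δB v) := by
  have h1 : ∀ α : A → Γ, av (fun β : B → Γ => ind (P α β)) ≤
      (∏ v : {v // v ≠ rA}, ind (cA v (α rA) (α v))) * (d * ∏ v : {v // v ≠ rB}, δB v) := by
    intro α
    rw [← he (α rA), ← av_star (Γ := Γ) rB cB (fun g => ind (e (α rA) g)) δB hB, ← av_mul_left]
    apply av_mono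
    intro β
    rw [← ind_forall, ← ind_forall, ← ind_and, ← ind_and]
    apply ind_mono
    intro hP
    exact ⟨fun v => hPA α β hP v v.2, hPe α β hP, fun v => hPB α β hP v v.2⟩
  refine (av_mono h1).trans ?_
  rw [av_mul_right]
  have h2 := av_star (Γ := Γ) rA cA (fun _ => 1) δA hA
  rw [av_const, one_mul] at h2
  simp only [one_mul] at h2
  rw [h2, prod_root rA δA, prod_root rB δB, hrA, hrB]
  apply le_of_eq
  ring

lemma card_cmp_eq (P : (V → Γ) → Prop) :
    (Nat.card {γ : V → Γ // P γ} : ℝ) = (Fintype.card Γ : ℝ) ^ Fintype.card V * av (fun γ => ind (P γ)) := by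
  rcases isEmpty_or_nonempty (V → Γ) with hE | hE
  · have h0 : Nat.card {γ : V → Γ // P γ} = 0 := by
      have : IsEmpty {γ : V → Γ // P γ} := ⟨fun γ => hE.elim γ.1⟩
      exact Nat.card_of_isEmpty
    rw [h0, av_eq]
    simp
  rw [av_eq, Nat.card_eq_fintype_card, Fintype.card_subtype, Finset.card_filter, Fintype.card_fun]
  push_cast
  have hc : ((Fintype.card Γ : ℝ) ^ Fintype.card V) ≠ 0 := by
    have := Fintype.card_ne_zero (α := V → Γ)
    rw [Fintype.card_fun] at this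
    exact_mod_cast this
  rw [mul_div_cancel₀ _ hc]
  refine Finset.sum_congr rfl fun f _ => ?_
  unfold ind
  split_ifs <;> rfl

end star

end Pool.Agent.H211F52
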