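import Mathlib
import Pool.Agent.H211F52.Pattern

/-!
# A valid information inequality gives a valid inequality between homomorphism densities
-/

set_option autoImplicit false

namespace Pool.Agent.H211F52

open Finset Classical

section

variable {ℓ n : ℕ} {Y : Type} [Fintype Y]

/-- Homomorphisms from the main pattern. -/
abbrev HM (S : Fin ℓ → Finset (Fin n)) (W : SimpleGraph Y) : Type := {φ : PV ℓ n → Y // IsHom (PG S) W φ}

/-- Restriction to the clique and the variables in `U`. -/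
def rz {S : Fin ℓ → Finset (Fin n)} {W : SimpleGraph Y} (U : Finset (Fin n)) (φ : HM S W) :
    {p : PV ℓ n // zs U p} → Y := fun p => φ.1 p.1

/-- Restriction to a component. -/
def rc {S : Fin ℓ → Finset (Fin n)} {W : SimpleGraph Y} (T : Fin ℓ → Finset (Fin n)) (k : Fin ℓ × Fin 3)
    (φ : HM S W) : {q : PV ℓ n × Bool // pres S T k q} → Y := fun q => φ.1 q.1.1

lemma rz_eq {S : Fin ℓ → Finset (Fin n)} {W : SimpleGraph Y} (U : Finset (Fin n)) (φ φ' : HM S W) :
    rz U φ' = rz U φ ↔ ∀ p, zs U p → φ'.1 p = φ.1 p := by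
  constructor
  · intro h p hp
    exact congrFun h ⟨p, hp⟩
  · intro h
    funext p
    exact h p.1 p.2

lemma rc_eq {S : Fin ℓ → Finset (Fin n)} {W : SimpleGraph Y} (T : Fin ℓ → Finset (Fin n)) (k : Fin ℓ × Fin 3)
    (φ φ' : HM S W) : rc T k φ' = rc T k φ ↔ ∀ q, pres S T k q → φ'.1 q.1 = φ.1 q.1 := by
  constructor
  · intro h q hq
    exact congrFun h ⟨q, hq⟩
  · intro h
    funext q
    exact h q.1 q.2

lemma rc_hom {S : Fin ℓ → Finset (Fin n)} {W : SimpleGraph Y} (T : Fin ℓ → Finset (Fin n)) (k : Fin ℓ × Fin 3)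
    (φ : HM S W) : IsHom (CG S T k) W (rc T k φ) := by
  intro q q' h
  exact φ.2 _ _ h.1

lemma image_rc_card (S : Fin ℓ → Finset (Fin n)) (W : SimpleGraph Y) (T : Fin ℓ → Finset (Fin n))
    (k : Fin ℓ × Fin 3) : Nat.card (Set.range (rc (S := S) (W := W) T k)) ≤ hc (CG S T k) W := by
  unfold hc
  have h : ∀ f : Set.range (rc (S := S) (W := W) T k), IsHom (CG S T k) W f.1 := by
    rintro ⟨f, φ, rfl⟩
    exact rc_hom T k φ
  exact Nat.card_le_card_of_injective (fun f => (⟨f.1, h f⟩ :
    {f : {q : PV ℓ n × Bool // pres S T k q} → Y // IsHom (CG S T k) W f}))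
    (fun a b hab => Subtype.ext (Subtype.mk.inj hab))

lemma sl_sub (S T : Fin ℓ → Finset (Fin n)) (W : SimpleGraph Y) (j : Fin ℓ) :
    sl (rc (S := S) (W := W) T (j, 0)) + sl (rc (S := S) (W := W) T (j, 1)) ≤ sl (rz (S := S) (W := W) (S j)) := by
  have h := sl_submod (rz (S := S) (W := W) (S j)) (rc (S := S) (W := W) T (j, 0)) (rc (S := S) (W := W) T (j, 1))
    (by
      intro φ φ' h
      rw [rc_eq] at h
      rw [rz_eq]
      intro p hp
      exact h (p, false) (Or.inl ⟨rfl, rfl, Or.inl hp⟩))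
    (by
      intro φ φ' h
      rw [rc_eq] at h
      rw [rz_eq]
      intro p hp
      refine h (p, false) (Or.inr (Or.inl ⟨rfl, rfl, ?_⟩))
      rintro rfl
      exact hp)
  have h0 : sl (fun φ : HM S W => (rc (S := S) (W := W) T (j, 0) φ, rc (S := S) (W := W) T (j, 1) φ)) = 0 := by
    unfold sl
    apply Finset.sum_eq_zero
    intro φ _
    have : cs (fun φ : HM S W => (rc (S := S) (W := W) T (j, 0) φ, rc (S := S) (W := W) T (j, 1) φ)) φ = 1 := by
      unfold cs
      rw [Finset.card_eq_one]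
      refine ⟨φ, ?_⟩
      ext φ'
      simp only [Finset.mem_filter, Finset.mem_univ, true_and, Prod.mk.injEq, Finset.mem_singleton]
      constructor
      · rintro ⟨h1, h2⟩
        rw [rc_eq] at h1 h2
        apply Subtype.ext
        funext p
        by_cases hp : p = Sum.inr (Sum.inl (some j))
        · exact h1 (p, false) (Or.inl ⟨rfl, rfl, Or.inr hp⟩)
        · exact h2 (p, false) (Or.inr (Or.inl ⟨rfl, rfl, hp⟩))
      · rintro rfl
        exact ⟨rfl, rfl⟩
    rw [this]
    simp
  rw [h0, add_zero] at h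
  exact h

/-- Pairs of homomorphisms that agree on `T j` and the clique. -/
abbrev PP (S T : Fin ℓ → Finset (Fin n)) (W : SimpleGraph Y) (j : Fin ℓ) : Type :=
  Σ φ : HM S W, {φ' : HM S W // rz (T j) φ' = rz (T j) φ}

/-- The homomorphism from the glued pattern given by a pair. -/
noncomputable def glue (S T : Fin ℓ → Finset (Fin n)) (W : SimpleGraph Y) (j : Fin ℓ) (a : PP S T W j) :
    {q : PV ℓ n × Bool // pres S T (j, 2) q} → Y :=
  fun q => if q.1.2 = false then a.1.1 q.1.1 else a.2.1.1 q.1.1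

lemma pres_two {S T : Fin ℓ → Finset (Fin n)} {j : Fin ℓ} {q : PV ℓ n × Bool} :
    pres S T (j, 2) q ↔ (q.2 = false ∨ ¬ zs (T j) q.1) := by
  unfold pres
  simp

lemma glue_hom (S T : Fin ℓ → Finset (Fin n)) (W : SimpleGraph Y) (j : Fin ℓ) (a : PP S T W j) :
    IsHom (CG S T (j, 2)) W (glue S T W j a) := by
  intro q q' h
  have hag := (rz_eq (T j) a.1 a.2.1).mp a.2.2
  obtain ⟨h1, h2⟩ := h
  have hq := pres_two.mp q.2
  have hq' := pres_two.mp q'.2
  unfold glue
  by_cases hb : q.1.2 = false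
  · by_cases hb' : q'.1.2 = false
    · rw [if_pos hb, if_pos hb']
      exact a.1.2 _ _ h1
    · rw [if_pos hb, if_neg hb']
      have hz' : ¬ zs (T j) q'.1.1 := hq'.resolve_left hb'
      have hz : zs (T j) q.1.1 := by
        rcases h2 with h2 | h2 | h2
        · rw [hb] at h2
          exact absurd h2.symm hb'
        · exact h2
        · exact absurd h2 hz'
      rw [← hag _ hz]
      exact a.2.1.2 _ _ h1
  · have hz : ¬ zs (T j) q.1.1 := hq.resolve_left hb
    by_cases hb' : q'.1.2 = false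
    · rw [if_neg hb, if_pos hb']
      have hz' : zs (T j) q'.1.1 := by
        rcases h2 with h2 | h2 | h2
        · rw [hb'] at h2
          exact absurd h2 hb
        · exact absurd h2 hz
        · exact h2
      rw [← hag _ hz']
      exact a.2.1.2 _ _ h1
    · rw [if_neg hb, if_neg hb']
      exact a.2.1.2 _ _ h1

lemma glue_inj (S T : Fin ℓ → Finset (Fin n)) (W : SimpleGraph Y) (j : Fin ℓ) :
    Function.Injective (glue S T W j) := by
  rintro ⟨φ, φ', h⟩ ⟨ψ, ψ', h'⟩ heq
  have h1 : φ = ψ := by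
    apply Subtype.ext
    funext p
    have := congrFun heq ⟨(p, false), pres_two.mpr (Or.inl rfl)⟩
    simpa [glue] using this
  subst h1
  have h2 : φ' = ψ' := by
    apply Subtype.ext
    funext p
    by_cases hp : zs (T j) p
    · rw [rz_eq] at h h'
      rw [h p hp, h' p hp]
    · have := congrFun heq ⟨(p, true), pres_two.mpr (Or.inr hp)⟩
      simpa [glue] using this
  subst h2
  rfl

lemma sum_cs_le (S T : Fin ℓ → Finset (Fin n)) (W : SimpleGraph Y) (j : Fin ℓ) :
    ∑ φ, cs (rz (S := S) (W := W) (T j)) φ ≤ hc (CG S T (j, 2)) W := by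
  have h1 : ∑ φ, cs (rz (S := S) (W := W) (T j)) φ = Nat.card (PP S T W j) := by
    rw [Nat.card_sigma]
    refine Finset.sum_congr rfl fun φ _ => ?_
    unfold cs
    rw [Nat.card_eq_fintype_card, Fintype.card_subtype]
    congr 1
    ext φ'
    simp
  rw [h1]
  unfold hc
  exact Nat.card_le_card_of_injective (fun a => (⟨glue S T W j a, glue_hom S T W j a⟩ :
    {f : {q : PV ℓ n × Bool // pres S T (j, 2) q} → Y // IsHom (CG S T (j, 2)) W f}))
    (fun a b hab => glue_inj S T W j (congrArg Subtype.val hab))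

lemma sl_rz (S : Fin ℓ → Finset (Fin n)) (W : SimpleGraph Y) (U : Finset (Fin n)) :
    sl (rz (S := S) (W := W) U) = sl (fun φ : HM S W => ((fun u : Fin (ℓ + n + 4) => φ.1 (Sum.inl u)),
      tup (fun i (φ : HM S W) => φ.1 (Sum.inr (Sum.inr i))) U φ)) := by
  apply sl_congr
  intro φ φ'
  rw [rz_eq, Prod.mk.injEq, tup_eq]
  constructor
  · intro h
    exact ⟨funext fun u => h (Sum.inl u) trivial, fun i hi => h (Sum.inr (Sum.inr i)) hi⟩
  · rintro ⟨h1, h2⟩ p hp
    rcases p with u | (o | i)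
    · exact congrFun h1 u
    · exact absurd hp (fun h => h)
    · exact h2 i hp

theorem fwd_hc {S T : Fin ℓ → Finset (Fin n)} (hU : UValid S T) (W : SimpleGraph Y) (hm : 0 < hc (PG S) W) :
    (∏ _k : Fin ℓ × Fin 3, (hc (PG S) W : ℝ)) ≤ ∏ k, (hc (CG S T k) W : ℝ) := by
  set m : ℕ := hc (PG S) W with hmdef
  have hmc : Fintype.card (HM S W) = m := by
    rw [hmdef]
    unfold hc
    rw [Nat.card_eq_fintype_card]
  have hne : Nonempty (HM S W) := by
    rw [← Fintype.card_pos_iff, hmc]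
    exact hm
  have hm' : (0 : ℝ) < m := by exact_mod_cast hm
  have himg : ∀ k, 0 < hc (CG S T k) W := by
    intro k
    unfold hc
    rw [Nat.card_pos_iff]
    obtain ⟨φ⟩ := hne
    exact ⟨⟨⟨rc T k φ, rc_hom T k φ⟩⟩, inferInstance⟩
  have himg' : ∀ k, (0 : ℝ) < hc (CG S T k) W := fun k => by exact_mod_cast himg k
  have h0 : ∀ k, (m : ℝ) * Real.log m - sl (rc (S := S) (W := W) T k) ≤ m * Real.log (hc (CG S T k) W) := by
    intro k
    have := sl_ge (rc (S := S) (W := W) T k) (hc (CG S T k) W) (by exact_mod_cast image_rc_card S W T k)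
    rw [hmc] at this
    exact this
  have h2 : ∀ j, (m : ℝ) * Real.log m + sl (rz (S := S) (W := W) (T j)) ≤ m * Real.log (hc (CG S T (j, 2)) W) := by
    intro j
    have h3 := sl_le (rz (S := S) (W := W) (T j)) ((hc (CG S T (j, 2)) W : ℝ) / m) (div_pos (himg' _) hm') (by
      rw [hmc, mul_div_cancel₀ _ hm'.ne']
      exact_mod_cast sum_cs_le S T W j)
    rw [hmc, Real.log_div (himg' _).ne' hm'.ne'] at h3
    linarith
  have hcond := hU.cond (fun (φ : HM S W) (u : Fin (ℓ + n + 4)) => φ.1 (Sum.inl u))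
    (fun i (φ : HM S W) => φ.1 (Sum.inr (Sum.inr i)))
  simp only [← sl_rz] at hcond
  have hsum : ∑ _j : Fin ℓ, (3 * ((m : ℝ) * Real.log m)) ≤ m * ∑ j, (Real.log (hc (CG S T (j, 0)) W) +
      Real.log (hc (CG S T (j, 1)) W) + Real.log (hc (CG S T (j, 2)) W)) := by
    have h5 : ∀ j, 3 * ((m : ℝ) * Real.log m) - sl (rz (S := S) (W := W) (S j)) + sl (rz (S := S) (W := W) (T j)) ≤
        m * (Real.log (hc (CG S T (j, 0)) W) + Real.log (hc (CG S T (j, 1)) W) + Real.log (hc (CG S T (j, 2)) W)) := by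
      intro j
      have := h0 (j, 0)
      have := h0 (j, 1)
      have := h2 j
      have := sl_sub S T W j
      linarith
    rw [Finset.mul_sum]
    refine le_trans ?_ (Finset.sum_le_sum fun j _ => h5 j)
    rw [Finset.sum_add_distrib, Finset.sum_sub_distrib]
    linarith
  rw [Fintype.prod_prod_type, Fintype.prod_prod_type]
  simp only [Fin.prod_univ_three]
  have hposL : 0 < ∏ _j : Fin ℓ, ((m : ℝ) * m * m) := Finset.prod_pos fun j _ => by positivity
  have hposR : 0 < ∏ j : Fin ℓ, ((hc (CG S T (j, 0)) W : ℝ) * hc (CG S T (j, 1)) W * hc (CG S T (j, 2)) W) :=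
    Finset.prod_pos fun j _ => mul_pos (mul_pos (himg' _) (himg' _)) (himg' _)
  rw [← Real.log_le_log_iff hposL hposR, Real.log_prod (fun j _ => by positivity),
    Real.log_prod (fun j _ => (mul_pos (mul_pos (himg' _) (himg' _)) (himg' _)).ne')]
  have e1 : ∀ j : Fin ℓ, Real.log ((m : ℝ) * m * m) = 3 * Real.log m := by
    intro j
    rw [Real.log_mul (by positivity) hm'.ne', Real.log_mul hm'.ne' hm'.ne']
    ring
  have e2 : ∀ j : Fin ℓ, Real.log ((hc (CG S T (j, 0)) W : ℝ) * hc (CG S T (j, 1)) W * hc (CG S T (j, 2)) W) =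
      Real.log (hc (CG S T (j, 0)) W) + Real.log (hc (CG S T (j, 1)) W) + Real.log (hc (CG S T (j, 2)) W) := by
    intro j
    rw [Real.log_mul (mul_pos (himg' _) (himg' _)).ne' (himg' _).ne', Real.log_mul (himg' _).ne' (himg' _).ne']
  rw [Finset.sum_congr rfl (fun j _ => e1 j), Finset.sum_congr rfl (fun j _ => e2 j)]
  have h6 : ∑ _j : Fin ℓ, (3 * ((m : ℝ) * Real.log m)) = m * ∑ _j : Fin ℓ, 3 * Real.log m := by
    rw [Finset.mul_sum]
    exact Finset.sum_congr rfl fun j _ => by ring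
  rw [h6] at hsum
  exact le_of_mul_le_mul_left hsum hm'

end

/-- A valid balanced information inequality gives a valid inequality between densities. -/
theorem fwd {ℓ n : ℕ} {S T : Fin ℓ → Finset (Fin n)} (hb : Bal S T) (hU : UValid S T) :
    Valid (G1 S T) (G2 S) := by
  intro k W
  unfold G1 G2
  rw [t_sg, t_sg]
  simp only [t_eq_hc, Fintype.card_fin]
  rw [Finset.prod_div_distrib, Finset.prod_div_distrib]
  have hden : (∏ k' : Fin ℓ × Fin 3, ((k + 1 : ℕ) : ℝ) ^ Fintype.card {q : PV ℓ n × Bool // pres S T k' q}) =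
      ∏ _k : Fin ℓ × Fin 3, ((k + 1 : ℕ) : ℝ) ^ Fintype.card (PV ℓ n) := by
    have := label_balance hb (fun _ => ((k + 1 : ℕ) : ℝ))
    simpa only [Finset.prod_const, Finset.card_univ] using this
  rw [hden]
  apply div_le_div_of_nonneg_right _ (Finset.prod_nonneg fun _ _ => by positivity)
  rcases Nat.eq_zero_or_pos (hc (PG S) W) with h | h
  · rcases isEmpty_or_nonempty (Fin ℓ × Fin 3) with he | he
    · simp
    · rw [h]
      simp only [Nat.cast_zero]
      rw [Finset.prod_const, zero_pow (by rw [Finset.card_univ]; exact Fintype.card_ne_zero)]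
      exact Finset.prod_nonneg fun _ _ => Nat.cast_nonneg _
  · exact fwd_hc hU W h

end Pool.Agent.H211F52
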