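import Mathlib
import Pool.Agent.H211F52.Ent

/-!
# Quasi-uniform systems from permutations, and their asymptotics
-/

set_option autoImplicit false

namespace Pool.Agent.H211F52

open Finset Classical Filter

/-! ### Asymptotics of factorials -/

lemma tendsto_log_factorial (m : ℕ) (hm : 0 < m) :
    Tendsto (fun k : ℕ => Real.log ((((k + 1) * m).factorial : ℕ) : ℝ) / ((k : ℝ) + 1) - m * Real.log ((k : ℝ) + 1))
      atTop (nhds (m * Real.log m - m)) := by
  have hm' : (0 : ℝ) < m := by exact_mod_cast hm
  -- Stirling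
  have h1 : ∀ k : ℕ, Real.log ((((k + 1) * m).factorial : ℕ) : ℝ) / ((k : ℝ) + 1) - m * Real.log ((k : ℝ) + 1) =
      Real.log (Stirling.stirlingSeq ((k + 1) * m)) * (1 / ((k : ℝ) + 1)) +
        (1 / 2) * (Real.log (2 * m) * (1 / ((k : ℝ) + 1)) + Real.log ((k : ℝ) + 1) / ((k : ℝ) + 1)) +
        (m * Real.log m - m) := by
    intro k
    have hk : (0 : ℝ) < (k : ℝ) + 1 := by positivity
    have h2 := Stirling.log_stirlingSeq_formula ((k + 1) * m)
    rw [h2]
    push_cast
    rw [Real.log_div (by positivity) (Real.exp_pos 1).ne', Real.log_exp,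
      Real.log_mul hk.ne' hm'.ne',
      show (2 : ℝ) * (((k : ℝ) + 1) * m) = (2 * m) * ((k : ℝ) + 1) by ring,
      Real.log_mul (by positivity) hk.ne']
    field_simp
    ring
  simp only [h1]
  have hinv : Tendsto (fun k : ℕ => 1 / ((k : ℝ) + 1)) atTop (nhds 0) := tendsto_one_div_add_atTop_nhds_zero_nat
  have hst : Tendsto (fun k : ℕ => Real.log (Stirling.stirlingSeq ((k + 1) * m))) atTop (nhds (Real.log (√Real.pi))) := by
    have h3 : Tendsto (fun k : ℕ => (k + 1) * m) atTop atTop := by
      apply tendsto_atTop_mono (f := fun k : ℕ => k) _ tendsto_id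
      intro k
      nlinarith
    have h4 := Stirling.tendsto_stirlingSeq_sqrt_pi.comp h3
    exact (Real.continuousAt_log (by positivity)).tendsto.comp h4
  have hlog : Tendsto (fun k : ℕ => Real.log ((k : ℝ) + 1) / ((k : ℝ) + 1)) atTop (nhds 0) := by
    have h5 := Real.tendsto_pow_log_div_mul_add_atTop 1 0 1 one_ne_zero
    have h6 : Tendsto (fun k : ℕ => ((k : ℝ) + 1)) atTop atTop :=
      tendsto_atTop_add_const_right _ _ tendsto_natCast_atTop_atTop
    have h7 := h5.comp h6
    refine h7.congr fun k => ?_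
    simp
  have hlim := ((hst.mul hinv).add (((hinv.const_mul (Real.log (2 * m))).add hlog).const_mul (1 / 2))).add_const
    ((m : ℝ) * Real.log m - m)
  have e : Real.log (√Real.pi) * 0 + 1 / 2 * (Real.log (2 * m) * 0 + 0) + ((m : ℝ) * Real.log m - m) =
      (m : ℝ) * Real.log m - m := by ring
  rw [e] at hlim
  exact hlim

/-! ### The systems -/

section

variable {Ω β : Type} [Fintype Ω] {n : ℕ}

/-- The permutations of `k + 1` copies of `Ω`. -/
abbrev PS (Ω : Type) (k : ℕ) : Type := Equiv.Perm (Ω × Fin (k + 1))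

/-- The system of functions on the permutations. -/
def PF (X : Fin n → Ω → β) (k : ℕ) (i : Fin n) (σ : PS Ω k) : Ω × Fin (k + 1) → β := fun p => X i (σ p).1

/-- The class sizes of the system. -/
noncomputable def pc (X : Fin n → Ω → β) (k : ℕ) (U : Finset (Fin n)) : ℕ :=
  ∏ v ∈ univ.image (tup X U), ((k + 1) * (univ.filter (fun ω => tup X U ω = v)).card).factorial

lemma tup_PF (X : Fin n → Ω → β) (k : ℕ) (U : Finset (Fin n)) (σ σ' : PS Ω k) :
    tup (PF X k) U σ' = tup (PF X k) U σ ↔
      (fun p : Ω × Fin (k + 1) => tup X U p.1) ∘ σ' = (fun p : Ω × Fin (k + 1) => tup X U p.1) ∘ σ := by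
  rw [tup_eq]
  constructor
  · intro h
    funext p
    simp only [Function.comp]
    rw [tup_eq]
    intro i hi
    exact congrFun (h i hi) p
  · intro h i hi
    funext p
    have := congrFun h p
    simp only [Function.comp] at this
    rw [tup_eq] at this
    exact this i hi

lemma cs_PF (X : Fin n → Ω → β) (k : ℕ) (U : Finset (Fin n)) (σ : PS Ω k) :
    cs (tup (PF X k) U) σ = pc X k U := by
  set g : Ω × Fin (k + 1) → (U → β) := fun p => tup X U p.1 with hg
  have h1 : cs (tup (PF X k) U) σ = Fintype.card {τ : Equiv.Perm (Ω × Fin (k + 1)) // g ∘ τ = g} := by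
    unfold cs
    rw [← Fintype.card_subtype]
    apply Fintype.card_congr
    refine Equiv.subtypeEquiv (Equiv.mulRight σ⁻¹) ?_
    intro σ'
    rw [tup_PF]
    simp only [Equiv.coe_mulRight]
    constructor
    · intro h
      funext p
      have := congrFun h (σ⁻¹ p)
      simpa [Function.comp, hg] using this
    · intro h
      funext p
      have := congrFun h (σ p)
      simpa [Function.comp, hg] using this
  have h2 := DomMulAct.stabilizer_card' g
  rw [h1]
  have h3 : Fintype.card {τ : Equiv.Perm (Ω × Fin (k + 1)) // g ∘ τ = g} =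
      ∏ i ∈ Finset.univ.image g, (Fintype.card ({a // g a = i})).factorial := by
    rw [← h2]
  rw [h3]
  unfold pc
  have himg : Finset.univ.image g = Finset.univ.image (tup X U) := by
    ext v
    simp only [Finset.mem_image, Finset.mem_univ, true_and]
    constructor
    · rintro ⟨p, rfl⟩
      exact ⟨p.1, rfl⟩
    · rintro ⟨ω, rfl⟩
      exact ⟨(ω, 0), rfl⟩
  rw [himg]
  refine Finset.prod_congr rfl fun v _ => ?_
  congr 1
  rw [Fintype.card_subtype]
  have : (univ.filter (fun a : Ω × Fin (k + 1) => g a = v)) =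
      (univ.filter (fun ω => tup X U ω = v)) ×ˢ (univ : Finset (Fin (k + 1))) := by
    ext ⟨ω, i⟩
    simp [hg]
  rw [this, Finset.card_product, Finset.card_univ, Fintype.card_fin, mul_comm]

lemma pc_pos (X : Fin n → Ω → β) (k : ℕ) (U : Finset (Fin n)) : 0 < pc X k U :=
  Finset.prod_pos fun _ _ => Nat.factorial_pos _

/-- The asymptotics of the class sizes. -/
lemma tendsto_pc (X : Fin n → Ω → β) (U : Finset (Fin n)) :
    Tendsto (fun k : ℕ => Real.log (pc X k U) / ((k : ℝ) + 1) - Fintype.card Ω * Real.log ((k : ℝ) + 1)) atTop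
      (nhds (sl (tup X U) - Fintype.card Ω)) := by
  have hcard : (Fintype.card Ω : ℝ) = ∑ v ∈ univ.image (tup X U), ((univ.filter (fun ω => tup X U ω = v)).card : ℝ) := by
    have := Finset.card_eq_sum_card_image (tup X U) (univ : Finset Ω)
    rw [Finset.card_univ] at this
    rw [this]
    push_cast
    rfl
  have hsl : sl (tup X U) = ∑ v ∈ univ.image (tup X U), ((univ.filter (fun ω => tup X U ω = v)).card : ℝ) *
      Real.log ((univ.filter (fun ω => tup X U ω = v)).card : ℝ) := by
    unfold sl
    rw [← Finset.sum_fiberwise_of_maps_to (s := univ) (t := univ.image (tup X U)) (g := tup X U)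
      (fun ω _ => Finset.mem_image_of_mem _ (Finset.mem_univ ω))]
    refine Finset.sum_congr rfl fun v _ => ?_
    have : ∀ ω ∈ univ.filter (fun ω => tup X U ω = v), Real.log (cs (tup X U) ω) =
        Real.log ((univ.filter (fun ω => tup X U ω = v)).card : ℝ) := by
      intro ω hω
      have hω' := (Finset.mem_filter.mp hω).2
      unfold cs
      rw [hω']
      refine congrArg (fun m : ℕ => Real.log (m : ℝ)) ?_
      congr 1
      ext ω'
      simp
    rw [Finset.sum_congr rfl this, Finset.sum_const, nsmul_eq_mul]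
  have hterm : ∀ k : ℕ, Real.log (pc X k U) / ((k : ℝ) + 1) - Fintype.card Ω * Real.log ((k : ℝ) + 1) =
      ∑ v ∈ univ.image (tup X U),
        (Real.log ((((k + 1) * (univ.filter (fun ω => tup X U ω = v)).card).factorial : ℕ) : ℝ) / ((k : ℝ) + 1) -
          (univ.filter (fun ω => tup X U ω = v)).card * Real.log ((k : ℝ) + 1)) := by
    intro k
    rw [Finset.sum_sub_distrib, ← Finset.sum_mul, ← hcard, ← Finset.sum_div]
    congr 2
    unfold pc
    push_cast
    rw [Real.log_prod]
    intro v _
    exact_mod_cast (Nat.factorial_pos _).ne'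
  simp only [hterm]
  have hlim : sl (tup X U) - Fintype.card Ω = ∑ v ∈ univ.image (tup X U),
      (((univ.filter (fun ω => tup X U ω = v)).card : ℝ) * Real.log ((univ.filter (fun ω => tup X U ω = v)).card : ℝ) -
        (univ.filter (fun ω => tup X U ω = v)).card) := by
    rw [Finset.sum_sub_distrib, ← hcard, ← hsl]
  rw [hlim]
  apply tendsto_finsetSum
  intro v hv
  apply tendsto_log_factorial
  obtain ⟨ω, _, hω⟩ := Finset.mem_image.mp hv
  exact Finset.card_pos.mpr ⟨ω, by simp [hω]⟩

/-- A linear inequality between logarithms of class sizes, up to a constant, passes to the limit. -/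
lemma sl_le_of_pc {ι : Type} (s t : Finset ι) (US UT : ι → Finset (Fin n)) (hst : s.card = t.card)
    (X : Fin n → Ω → β) (C : ℝ)
    (h : ∀ k : ℕ, ∑ j ∈ s, Real.log (pc X k (US j)) ≤ C + ∑ j ∈ t, Real.log (pc X k (UT j))) :
    ∑ j ∈ s, sl (tup X (US j)) ≤ ∑ j ∈ t, sl (tup X (UT j)) := by
  have h1 := tendsto_finsetSum s (fun j _ => tendsto_pc X (US j))
  have h2 := tendsto_finsetSum t (fun j _ => tendsto_pc X (UT j))
  have h3 : Tendsto (fun k : ℕ => C * (1 / ((k : ℝ) + 1))) atTop (nhds (C * 0)) :=
    tendsto_one_div_add_atTop_nhds_zero_nat.const_mul C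
  have h4 := le_of_tendsto_of_tendsto' h1 (h3.add h2) (fun k => by
    have hk : (0 : ℝ) < (k : ℝ) + 1 := by positivity
    rw [Finset.sum_sub_distrib, Finset.sum_sub_distrib, Finset.sum_const, Finset.sum_const, hst, ← Finset.sum_div,
      ← Finset.sum_div]
    have := div_le_div_of_nonneg_right (h k) hk.le
    rw [add_div] at this
    rw [mul_one_div]
    linarith)
  rw [Finset.sum_sub_distrib, Finset.sum_sub_distrib, Finset.sum_const, Finset.sum_const, hst] at h4
  linarith

end

end Pool.Agent.H211F52
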