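import Mathlib
import Pool.Agent.H211F52.Bwd

/-!
# The inequality for quasi-uniform systems
-/

set_option autoImplicit false

namespace Pool.Agent.H211F52

open Finset Classical

section

variable {ℓ n : ℕ} {S T : Fin ℓ → Finset (Fin n)} {Γ β : Type} [Fintype Γ] [Nonempty Γ]

/-- The constraint on the value at a vertex with label `p`, given the value `r` at the root. -/
def CC (S : Fin ℓ → Finset (Fin n)) (F : Fin n → Γ → β) (p : PV ℓ n) (r g : Γ) : Prop :=
  match p with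
  | Sum.inl _ => True
  | Sum.inr (Sum.inl none) => True
  | Sum.inr (Sum.inl (some j)) => tup F (S j) g = tup F (S j) r
  | Sum.inr (Sum.inr i) => tup F {i} g = tup F {i} r

/-- The densities of the constraints. -/
noncomputable def del (S : Fin ℓ → Finset (Fin n)) (d : Finset (Fin n) → ℝ) (p : PV ℓ n) : ℝ :=
  match p with
  | Sum.inl _ => 1
  | Sum.inr (Sum.inl none) => 1
  | Sum.inr (Sum.inl (some j)) => d (S j)
  | Sum.inr (Sum.inr i) => d {i}

lemma av_tup (F : Fin n → Γ → β) (U : Finset (Fin n)) (r : Γ) :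
    av (fun g => ind (tup F U g = tup F U r)) = (cs (tup F U) r : ℝ) / Fintype.card Γ := by
  rw [av_eq]
  congr 1
  unfold cs
  rw [Finset.card_filter]
  push_cast
  refine Finset.sum_congr rfl fun g _ => ?_
  unfold ind
  split_ifs <;> rfl

lemma av_one' : av (fun _ : Γ => ind True) = 1 := by
  rw [ind_true trivial]
  exact av_const 1

lemma av_CC (F : Fin n → Γ → β) (c : Finset (Fin n) → ℕ) (hq : ∀ U γ, cs (tup F U) γ = c U)
    (p : PV ℓ n) (r : Γ) : av (fun g => ind (CC S F p r g)) = del S (fun U => (c U : ℝ) / Fintype.card Γ) p := by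
  rcases p with u | ((_ | j) | i)
  · exact av_one'
  · exact av_one'
  · simp only [CC, del]
    rw [av_tup, hq]
  · simp only [CC, del]
    rw [av_tup, hq]

lemma tup_single (F : Fin n → Γ → β) (i : Fin n) (r g : Γ) : tup F {i} g = tup F {i} r ↔ F i g = F i r := by
  rw [tup_eq]
  simp

/-- The root vertex of the main pattern. -/
def star0 : PV ℓ n := Sum.inr (Sum.inl none)

lemma del_nonneg (c : Finset (Fin n) → ℕ) (p : PV ℓ n) :
    0 ≤ del S (fun U => (c U : ℝ) / Fintype.card Γ) p := by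
  rcases p with u | ((_ | j) | i) <;> simp only [del] <;> positivity

/-- The main pattern. -/
lemma av_PG (F : Fin n → Γ → β) (c : Finset (Fin n) → ℕ) (hq : ∀ U γ, cs (tup F U) γ = c U) :
    ∏ p, del S (fun U => (c U : ℝ) / Fintype.card Γ) p ≤ av (fun γ : PV ℓ n → Γ => ind (Cmp (PG S) id F γ)) := by
  have h0 : del S (fun U => (c U : ℝ) / Fintype.card Γ) (star0 : PV ℓ n) = 1 := rfl
  refine (le_av_star (star0 : PV ℓ n) (fun p r g => CC S F p r g) _ (fun γ => Cmp (PG S) id F γ)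
    (del_nonneg c _) (fun v r _ => av_CC F c hq v r) ?_).trans (le_of_eq (by rw [h0, one_mul]))
  intro γ h a b hab i v hla hlb
  simp only [id] at hla hlb
  subst hla hlb
  have hx : F i (γ (Sum.inr (Sum.inr i))) = F i (γ star0) :=
    (tup_single F i _ _).mp (h (Sum.inr (Sum.inr i)) (by simp [star0]))
  rcases v with (_ | j) | i'
  · exact hx
  · have hy := h (Sum.inr (Sum.inl (some j))) (by simp [star0])
    simp only [CC] at hy
    have hi : i ∈ S j := hab j rfl
    rw [hx]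
    exact ((tup_eq F (S j) _ _).mp hy i hi).symm
  · exact absurd hab (fun h => h)

/-- The pattern of the tuple `S j`. -/
lemma av_C0 (F : Fin n → Γ → β) (c : Finset (Fin n) → ℕ) (hq : ∀ U γ, cs (tup F U) γ = c U) (j : Fin ℓ) :
    ((c (S j) : ℝ) / Fintype.card Γ) * av (fun γ => ind (Cmp (CG S T (j, 0)) (labk S T (j, 0)) F γ)) ≤
      ∏ q : {q : PV ℓ n × Bool // pres S T (j, 0) q}, del S (fun U => (c U : ℝ) / Fintype.card Γ) q.1.1 := by
  let root : {q : PV ℓ n × Bool // pres S T (j, 0) q} :=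
    ⟨(Sum.inr (Sum.inl (some j)), false), Or.inl ⟨rfl, rfl, Or.inr rfl⟩⟩
  refine le_trans (le_of_eq ?_) (av_star_le root (fun q r g => CC S F q.1.1 r g)
    (fun q => del S (fun U => (c U : ℝ) / Fintype.card Γ) q.1.1) (fun γ => Cmp (CG S T (j, 0)) (labk S T (j, 0)) F γ)
    (del_nonneg c _) (fun v r _ => av_CC F c hq v.1.1 r) ?_)
  · rfl
  rintro γ h ⟨⟨p, b⟩, hpres⟩ hne
  have hb : b = false ∧ (zs (S j) p ∨ p = Sum.inr (Sum.inl (some j))) := by
    rcases hpres with ⟨_, h1, h2⟩ | ⟨h1, _⟩ | ⟨h1, _⟩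
    · exact ⟨h1, h2⟩
    · exact absurd h1 (by simp)
    · exact absurd h1 (by simp)
  obtain ⟨hb, hp⟩ := hb
  subst hb
  rcases p with u | ((_ | j') | i)
  · trivial
  · trivial
  · exfalso
    rcases hp with hp | hp
    · exact hp
    · simp only [Sum.inr.injEq, Sum.inl.injEq, Option.some.injEq] at hp
      subst hp
      exact hne rfl
  · simp only [CC]
    rw [tup_single]
    have hi : i ∈ S j := by
      rcases hp with hp | hp
      · exact hp
      · simp at hp
    refine h ⟨(Sum.inr (Sum.inr i), false), hpres⟩ root ⟨?_, Or.inl rfl⟩ i (Sum.inl (some j)) rfl rfl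
    intro j' hj'
    simp only [Option.some.injEq] at hj'
    rw [← hj']
    exact hi

/-- The main pattern without one tuple. -/
lemma av_C1 (F : Fin n → Γ → β) (c : Finset (Fin n) → ℕ) (hq : ∀ U γ, cs (tup F U) γ = c U) (j : Fin ℓ) :
    av (fun γ => ind (Cmp (CG S T (j, 1)) (labk S T (j, 1)) F γ)) ≤
      ∏ q : {q : PV ℓ n × Bool // pres S T (j, 1) q}, del S (fun U => (c U : ℝ) / Fintype.card Γ) q.1.1 := by
  have hpr : ∀ p : PV ℓ n, p ≠ Sum.inr (Sum.inl (some j)) → pres S T (j, 1) (p, false) :=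
    fun p hp => Or.inr (Or.inl ⟨rfl, rfl, hp⟩)
  let root : {q : PV ℓ n × Bool // pres S T (j, 1) q} :=
    ⟨(Sum.inr (Sum.inl none), false), hpr _ (by simp)⟩
  have h0 : del S (fun U => (c U : ℝ) / Fintype.card Γ) root.1.1 = 1 := rfl
  refine le_trans (le_of_eq ?_) (av_star_le root (fun q r g => CC S F q.1.1 r g)
    (fun q => del S (fun U => (c U : ℝ) / Fintype.card Γ) q.1.1) (fun γ => Cmp (CG S T (j, 1)) (labk S T (j, 1)) F γ)
    (del_nonneg c _) (fun v r _ => av_CC F c hq v.1.1 r) ?_)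
  · rw [h0, one_mul]
  intro γ h
  have hx : ∀ i, F i (γ ⟨(Sum.inr (Sum.inr i), false), hpr _ (by simp)⟩) = F i (γ root) := fun i =>
    h ⟨(Sum.inr (Sum.inr i), false), hpr _ (by simp)⟩ root ⟨fun j' hj' => by simp at hj', Or.inl rfl⟩ i
      (Sum.inl none) rfl rfl
  rintro ⟨⟨p, b⟩, hpres⟩ hne
  have hb : b = false := by
    rcases hpres with ⟨h1, _⟩ | ⟨_, h1, _⟩ | ⟨h1, _⟩
    · exact absurd h1 (by simp)
    · exact h1
    · exact absurd h1 (by simp)
  subst hb
  rcases p with u | ((_ | j') | i)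
  · trivial
  · trivial
  · simp only [CC]
    rw [tup_eq]
    intro i hi
    rw [← hx i]
    exact (h ⟨(Sum.inr (Sum.inr i), false), hpr _ (by simp)⟩ ⟨(Sum.inr (Sum.inl (some j')), false), hpres⟩
      ⟨fun j'' hj'' => by
        simp only [Option.some.injEq] at hj''
        rw [← hj'']; exact hi, Or.inl rfl⟩ i (Sum.inl (some j')) rfl rfl).symm
  · simp only [CC]
    rw [tup_single]
    exact hx i

/-- The two glued copies. -/
lemma av_C2 (F : Fin n → Γ → β) (c : Finset (Fin n) → ℕ) (hq : ∀ U γ, cs (tup F U) γ = c U) (j : Fin ℓ) :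
    av (fun γ => ind (Cmp (CG S T (j, 2)) (labk S T (j, 2)) F γ)) ≤
      ((c (T j) : ℝ) / Fintype.card Γ) * ∏ q : {q : PV ℓ n × Bool // pres S T (j, 2) q},
        del S (fun U => (c U : ℝ) / Fintype.card Γ) q.1.1 := by
  set δ : PV ℓ n → ℝ := del S (fun U => (c U : ℝ) / Fintype.card Γ) with hδ
  let VV := {q : PV ℓ n × Bool // pres S T (j, 2) q}
  -- the two copies
  let B := {p : PV ℓ n // ¬ zs (T j) p}
  let eq : PV ℓ n ⊕ B ≃ VV :=
    { toFun := fun x => match x with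
        | Sum.inl p => ⟨(p, false), Or.inr (Or.inr ⟨rfl, Or.inl rfl⟩)⟩
        | Sum.inr p => ⟨(p.1, true), Or.inr (Or.inr ⟨rfl, Or.inr p.2⟩)⟩
      invFun := fun q => if h : q.1.2 = false then Sum.inl q.1.1 else Sum.inr ⟨q.1.1, by
        rcases q.2 with ⟨h1, _⟩ | ⟨h1, _⟩ | ⟨_, h1 | h1⟩
        · exact absurd h1 (by simp)
        · exact absurd h1 (by simp)
        · exact absurd h1 h
        · exact h1⟩
      left_inv := by
        rintro (p | p)
        · simp
        · simp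
      right_inv := by
        rintro ⟨⟨p, b⟩, hp⟩
        cases b <;> simp }
  have hprod : ∏ q : VV, δ q.1.1 = (∏ p, δ p) * ∏ p : B, δ p.1 := by
    rw [← Equiv.prod_comp eq, Fintype.prod_sum_type]
    rfl
  have hav : av (fun γ : VV → Γ => ind (Cmp (CG S T (j, 2)) (labk S T (j, 2)) F γ)) =
      av (fun α : PV ℓ n → Γ => av (fun β' : B → Γ =>
        ind (Cmp (CG S T (j, 2)) (labk S T (j, 2)) F (Sum.elim α β' ∘ eq.symm)))) := by
    rw [← av_sum_type (fun x : PV ℓ n ⊕ B → Γ => ind (Cmp (CG S T (j, 2)) (labk S T (j, 2)) F (x ∘ eq.symm)))]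
    have := av_equiv (Equiv.arrowCongr eq.symm (Equiv.refl Γ))
      (fun x : PV ℓ n ⊕ B → Γ => ind (Cmp (CG S T (j, 2)) (labk S T (j, 2)) F (x ∘ eq.symm)))
    rw [← this]
    congr 1
    funext γ
    congr 2
    funext q
    simp
  rw [hav, hprod]
  have hsL : ∀ (α : PV ℓ n → Γ) (β' : B → Γ) (p : PV ℓ n),
      (Sum.elim α β' ∘ eq.symm) ⟨(p, false), Or.inr (Or.inr ⟨rfl, Or.inl rfl⟩)⟩ = α p := by
    intro α β' p
    have : eq.symm ⟨(p, false), Or.inr (Or.inr ⟨rfl, Or.inl rfl⟩)⟩ = Sum.inl p := by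
      rw [Equiv.symm_apply_eq]
      rfl
    simp [this]
  have hsR : ∀ (α : PV ℓ n → Γ) (β' : B → Γ) (p : B),
      (Sum.elim α β' ∘ eq.symm) ⟨(p.1, true), Or.inr (Or.inr ⟨rfl, Or.inr p.2⟩)⟩ = β' p := by
    intro α β' p
    have : eq.symm ⟨(p.1, true), Or.inr (Or.inr ⟨rfl, Or.inr p.2⟩)⟩ = Sum.inr p := by
      rw [Equiv.symm_apply_eq]
      rfl
    simp [this]
  have hzs : ¬ zs (T j) (Sum.inr (Sum.inl none) : PV ℓ n) := fun h => h
  -- consequences of compatibility
  have key1 : ∀ (α : PV ℓ n → Γ) (β' : B → Γ), Cmp (CG S T (j, 2)) (labk S T (j, 2)) F (Sum.elim α β' ∘ eq.symm) →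
      ∀ i, F i (α (Sum.inr (Sum.inr i))) = F i (α star0) := by
    intro α β' h i
    have h1 := h ⟨(Sum.inr (Sum.inr i), false), Or.inr (Or.inr ⟨rfl, Or.inl rfl⟩)⟩
      ⟨(Sum.inr (Sum.inl none), false), Or.inr (Or.inr ⟨rfl, Or.inl rfl⟩)⟩ ⟨fun j' hj' => by simp at hj', Or.inl rfl⟩
      i (Sum.inl none) rfl rfl
    rw [hsL, hsL] at h1
    exact h1
  have key2 : ∀ (α : PV ℓ n → Γ) (β' : B → Γ), Cmp (CG S T (j, 2)) (labk S T (j, 2)) F (Sum.elim α β' ∘ eq.symm) →
      ∀ i ∈ T j, F i (β' ⟨Sum.inr (Sum.inl none), hzs⟩) = F i (α (Sum.inr (Sum.inr i))) := by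
    intro α β' h i hi
    have h1 := h ⟨(Sum.inr (Sum.inr i), false), Or.inr (Or.inr ⟨rfl, Or.inl rfl⟩)⟩
      ⟨(Sum.inr (Sum.inl none), true), Or.inr (Or.inr ⟨rfl, Or.inr hzs⟩)⟩ ⟨fun j' hj' => by simp at hj', Or.inr (Or.inl hi)⟩
      i (Sum.inl none) rfl rfl
    rw [hsL] at h1
    rw [h1]
    have := hsR α β' ⟨Sum.inr (Sum.inl none), hzs⟩
    rw [← this]
  refine av_two_stars_le (star0 : PV ℓ n) (⟨Sum.inr (Sum.inl none), hzs⟩ : B) (fun p r g => CC S F p r g)
    (fun p r g => CC S F p.1 r g) δ (fun p => δ p.1) (fun r g => tup F (T j) g = tup F (T j) r) _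
    (fun α β' => Cmp (CG S T (j, 2)) (labk S T (j, 2)) F (Sum.elim α β' ∘ eq.symm)) rfl rfl
    (fun v r _ => av_CC F c hq v r) (fun v r _ => av_CC F c hq v.1 r)
    (fun r => by rw [av_tup, hq]) ?_ ?_ ?_
  · -- first copy
    intro α β' h p _
    rcases p with u | ((_ | j') | i)
    · trivial
    · trivial
    · simp only [CC]
      rw [tup_eq]
      intro i hi
      rw [← key1 α β' h i]
      have h1 := h ⟨(Sum.inr (Sum.inr i), false), Or.inr (Or.inr ⟨rfl, Or.inl rfl⟩)⟩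
        ⟨(Sum.inr (Sum.inl (some j')), false), Or.inr (Or.inr ⟨rfl, Or.inl rfl⟩)⟩
        ⟨fun j'' hj'' => by
          simp only [Option.some.injEq] at hj''
          rw [← hj'']; exact hi, Or.inl rfl⟩ i (Sum.inl (some j')) rfl rfl
      rw [hsL, hsL] at h1
      exact h1.symm
    · simp only [CC]
      rw [tup_single]
      exact key1 α β' h i
  · -- second copy
    rintro α β' h ⟨p, hp⟩ _
    have key3 : ∀ i, ∀ hi : ¬ zs (T j) (Sum.inr (Sum.inr i) : PV ℓ n),
        F i (β' ⟨Sum.inr (Sum.inr i), hi⟩) = F i (β' ⟨Sum.inr (Sum.inl none), hzs⟩) := by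
      intro i hi
      have h1 := h ⟨(Sum.inr (Sum.inr i), true), Or.inr (Or.inr ⟨rfl, Or.inr hi⟩)⟩
        ⟨(Sum.inr (Sum.inl none), true), Or.inr (Or.inr ⟨rfl, Or.inr hzs⟩)⟩ ⟨fun j' hj' => by simp at hj', Or.inl rfl⟩
        i (Sum.inl none) rfl rfl
      have h2 := hsR α β' ⟨Sum.inr (Sum.inr i), hi⟩
      have h3 := hsR α β' ⟨Sum.inr (Sum.inl none), hzs⟩
      rw [← h2, ← h3]
      exact h1
    rcases p with u | ((_ | j') | i)
    · trivial
    · trivial
    · simp only [CC]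
      rw [tup_eq]
      intro i hi
      by_cases hiT : i ∈ T j
      · have h1 := h ⟨(Sum.inr (Sum.inr i), false), Or.inr (Or.inr ⟨rfl, Or.inl rfl⟩)⟩
          ⟨(Sum.inr (Sum.inl (some j')), true), Or.inr (Or.inr ⟨rfl, Or.inr hp⟩)⟩
          ⟨fun j'' hj'' => by
            simp only [Option.some.injEq] at hj''
            rw [← hj'']; exact hi, Or.inr (Or.inl hiT)⟩ i (Sum.inl (some j')) rfl rfl
        rw [hsL] at h1
        have h2 := hsR α β' ⟨Sum.inr (Sum.inl (some j')), hp⟩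
        rw [key2 α β' h i hiT, h1, ← h2]
      · have h1 := h ⟨(Sum.inr (Sum.inr i), true), Or.inr (Or.inr ⟨rfl, Or.inr hiT⟩)⟩
          ⟨(Sum.inr (Sum.inl (some j')), true), Or.inr (Or.inr ⟨rfl, Or.inr hp⟩)⟩
          ⟨fun j'' hj'' => by
            simp only [Option.some.injEq] at hj''
            rw [← hj'']; exact hi, Or.inl rfl⟩ i (Sum.inl (some j')) rfl rfl
        have h2 := hsR α β' ⟨Sum.inr (Sum.inl (some j')), hp⟩
        have h3 := hsR α β' ⟨Sum.inr (Sum.inr i), hiT⟩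
        rw [← key3 i hiT, ← h2, ← h3]
        exact h1.symm
    · simp only [CC]
      rw [tup_single]
      exact key3 i hp
  · intro α β' h
    rw [tup_eq]
    intro i hi
    rw [key2 α β' h i hi, key1 α β' h i]

lemma del_pos (c : Finset (Fin n) → ℕ) (hc : ∀ U, 0 < c U) (p : PV ℓ n) :
    0 < del S (fun U => (c U : ℝ) / Fintype.card Γ) p := by
  have hG : (0 : ℝ) < Fintype.card Γ := by exact_mod_cast Fintype.card_pos
  have hc' : ∀ U, (0 : ℝ) < c U := fun U => by exact_mod_cast hc U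
  rcases p with u | ((_ | j) | i) <;> simp only [del]
  · exact one_pos
  · exact one_pos
  · exact div_pos (hc' _) hG
  · exact div_pos (hc' _) hG

/-- The constant lost in the comparison. -/
def kc (ℓ n : ℕ) : ℕ := ((ℓ + n + 4) ^ (ℓ + n + 4)) ^ (ℓ * 3)

lemma kc_pos (ℓ n : ℕ) : 0 < kc ℓ n := by unfold kc; positivity

/-- **The inequality for class sizes of quasi-uniform systems.** -/
theorem qu_ineq (hb : Bal S T) (hv : Valid (G1 S T) (G2 S)) (F : Fin n → Γ → β) (c : Finset (Fin n) → ℕ)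
    (hq : ∀ U γ, cs (tup F U) γ = c U) : ∏ j, (c (S j) : ℝ) ≤ kc ℓ n * ∏ j, (c (T j) : ℝ) := by
  have hcpos : ∀ U, 0 < c U := by
    intro U
    obtain ⟨g⟩ := (inferInstance : Nonempty Γ)
    rw [← hq U g]
    exact cs_pos _ _
  have hG : (0 : ℝ) < Fintype.card Γ := by exact_mod_cast Fintype.card_pos
  set RR : ℝ := (((ℓ + n + 4) ^ (ℓ + n + 4) : ℕ) : ℝ) with hRR
  have hRRpos : 0 < RR := by rw [hRR]; positivity
  set δ : PV ℓ n → ℝ := del S (fun U => (c U : ℝ) / Fintype.card Γ) with hδ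
  have hδpos : ∀ p, 0 < δ p := fun p => del_pos c hcpos p
  set D := ∏ p, δ p with hD
  have hDpos : 0 < D := Finset.prod_pos fun p _ => hδpos p
  set a : Fin ℓ × Fin 3 → ℝ := fun k => av (fun γ => ind (Cmp (CG S T k) (labk S T k) F γ)) with ha
  have ha0 : ∀ k, 0 ≤ a k := fun k => av_nonneg fun _ => ind_nonneg _
  have h1 := top_ineq hb hv F
  simp only [card_cmp_eq] at h1
  rw [Finset.prod_mul_distrib] at h1
  have hden : (∏ k : Fin ℓ × Fin 3, (Fintype.card Γ : ℝ) ^ Fintype.card {q : PV ℓ n × Bool // pres S T k q}) =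
      ∏ _k : Fin ℓ × Fin 3, (Fintype.card Γ : ℝ) ^ Fintype.card (PV ℓ n) := by
    have := label_balance hb (fun _ => (Fintype.card Γ : ℝ))
    simpa only [Finset.prod_const, Finset.card_univ] using this
  have h2 : (∏ _k : Fin ℓ × Fin 3, av (fun γ : PV ℓ n → Γ => ind (Cmp (PG S) id F γ))) ≤
      ∏ k, (RR * a k) := by
    have e1 : ∀ k : Fin ℓ × Fin 3, RR * ((Fintype.card Γ : ℝ) ^ Fintype.card {q : PV ℓ n × Bool // pres S T k q} * a k) =
        (Fintype.card Γ : ℝ) ^ Fintype.card {q : PV ℓ n × Bool // pres S T k q} * (RR * a k) := fun k => by ring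
    have h3 : (∏ _k : Fin ℓ × Fin 3, (Fintype.card Γ : ℝ) ^ Fintype.card (PV ℓ n)) *
        (∏ _k : Fin ℓ × Fin 3, av (fun γ : PV ℓ n → Γ => ind (Cmp (PG S) id F γ))) ≤
        (∏ _k : Fin ℓ × Fin 3, (Fintype.card Γ : ℝ) ^ Fintype.card (PV ℓ n)) * ∏ k, (RR * a k) := by
      refine h1.trans (le_of_eq ?_)
      rw [Finset.prod_congr rfl (fun k _ => e1 k), Finset.prod_mul_distrib, hden]
    exact le_of_mul_le_mul_left h3 (Finset.prod_pos fun _ _ => by positivity)
  have h3 : (∏ _k : Fin ℓ × Fin 3, D) ≤ ∏ k, (RR * a k) := by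
    refine le_trans ?_ h2
    exact Finset.prod_le_prod (fun _ _ => hDpos.le) fun _ _ => av_PG F c hq
  have hlab : ∏ k : Fin ℓ × Fin 3, ∏ q : {q : PV ℓ n × Bool // pres S T k q}, δ q.1.1 = ∏ _k : Fin ℓ × Fin 3, D :=
    label_balance hb δ
  have h4 : (∏ j : Fin ℓ, ((c (S j) : ℝ) / Fintype.card Γ)) * (∏ _k : Fin ℓ × Fin 3, D) ≤
      (RR ^ (ℓ * 3) * ∏ j : Fin ℓ, ((c (T j) : ℝ) / Fintype.card Γ)) * ∏ _k : Fin ℓ × Fin 3, D := by
    calc (∏ j : Fin ℓ, ((c (S j) : ℝ) / Fintype.card Γ)) * (∏ _k : Fin ℓ × Fin 3, D)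
        ≤ (∏ j : Fin ℓ, ((c (S j) : ℝ) / Fintype.card Γ)) * ∏ k, (RR * a k) :=
          mul_le_mul_of_nonneg_left h3 (Finset.prod_nonneg fun _ _ => by positivity)
      _ = RR ^ (ℓ * 3) * ∏ j : Fin ℓ, ((((c (S j) : ℝ) / Fintype.card Γ) * a (j, 0)) * a (j, 1) * a (j, 2)) := by
          rw [Finset.prod_mul_distrib, Finset.prod_const, Finset.card_univ, Fintype.card_prod, Fintype.card_fin,
            Fintype.card_fin, Fintype.prod_prod_type]
          simp only [Fin.prod_univ_three]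
          rw [mul_left_comm, ← Finset.prod_mul_distrib]
          congr 1
          exact Finset.prod_congr rfl fun j _ => by ring
      _ ≤ RR ^ (ℓ * 3) * ∏ j : Fin ℓ, ((∏ q : {q : PV ℓ n × Bool // pres S T (j, 0) q}, δ q.1.1) *
            (∏ q : {q : PV ℓ n × Bool // pres S T (j, 1) q}, δ q.1.1) *
            (((c (T j) : ℝ) / Fintype.card Γ) * ∏ q : {q : PV ℓ n × Bool // pres S T (j, 2) q}, δ q.1.1)) := by
          apply mul_le_mul_of_nonneg_left _ (by positivity)
          apply Finset.prod_le_prod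
          · intro j _
            exact mul_nonneg (mul_nonneg (mul_nonneg (by positivity) (ha0 _)) (ha0 _)) (ha0 _)
          · intro j _
            have h5 := av_C0 (S := S) (T := T) F c hq j
            have h6 := av_C1 (S := S) (T := T) F c hq j
            have h7 := av_C2 (S := S) (T := T) F c hq j
            have p0 : 0 ≤ ∏ q : {q : PV ℓ n × Bool // pres S T (j, 0) q}, δ q.1.1 :=
              Finset.prod_nonneg fun _ _ => (hδpos _).le
            have p1 : 0 ≤ ∏ q : {q : PV ℓ n × Bool // pres S T (j, 1) q}, δ q.1.1 :=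
              Finset.prod_nonneg fun _ _ => (hδpos _).le
            exact mul_le_mul (mul_le_mul h5 h6 (ha0 _) p0) h7 (ha0 _) (mul_nonneg p0 p1)
      _ = (RR ^ (ℓ * 3) * ∏ j : Fin ℓ, ((c (T j) : ℝ) / Fintype.card Γ)) * ∏ _k : Fin ℓ × Fin 3, D := by
          rw [← hlab, Fintype.prod_prod_type]
          simp only [Fin.prod_univ_three]
          rw [mul_assoc, ← Finset.prod_mul_distrib]
          congr 1
          exact Finset.prod_congr rfl fun j _ => by ring
  have h5 := le_of_mul_le_mul_right h4 (Finset.prod_pos fun _ _ => hDpos)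
  rw [Finset.prod_div_distrib, Finset.prod_div_distrib, Finset.prod_const, ← mul_div_assoc,
    div_le_div_iff_of_pos_right (by positivity)] at h5
  refine h5.trans (le_of_eq ?_)
  unfold kc
  rw [hRR]
  push_cast
  rfl

end

end Pool.Agent.H211F52
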