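import Mathlib
import Pool.Agent.H211F52.Fwd
import Pool.Agent.H211F52.QU
import Pool.Agent.H211F52.PermSys

/-!
# Balanced information inequalities and homomorphism density inequalities
-/

set_option autoImplicit false

namespace Pool.Agent.H211F52

open Finset Classical

/-- A valid inequality between densities gives a valid information inequality. -/
theorem bwd {ℓ n : ℕ} {S T : Fin ℓ → Finset (Fin n)} (hb : Bal S T) (hv : Valid (G1 S T) (G2 S)) :
    UValid S T := by
  intro Ω _ X
  apply sl_le_of_pc (univ : Finset (Fin ℓ)) univ S T rfl X (Real.log (kc ℓ n))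
  intro k
  have h := qu_ineq hb hv (PF X k) (pc X k) (fun U σ => cs_PF X k U σ)
  have hS : ∀ j, (0 : ℝ) < pc X k (S j) := fun j => by exact_mod_cast pc_pos X k (S j)
  have hT : ∀ j, (0 : ℝ) < pc X k (T j) := fun j => by exact_mod_cast pc_pos X k (T j)
  have hk : (0 : ℝ) < kc ℓ n := by exact_mod_cast kc_pos ℓ n
  have h1 := Real.log_le_log (Finset.prod_pos fun j _ => hS j) h
  rw [Real.log_mul hk.ne' (Finset.prod_pos fun j _ => hT j).ne', Real.log_prod (fun j _ => (hS j).ne'),
    Real.log_prod (fun j _ => (hT j).ne')] at h1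
  exact h1

/-- **The equivalence for balanced inequalities.** -/
theorem balanced_iff {ℓ n : ℕ} {S T : Fin ℓ → Finset (Fin n)} (hb : Bal S T) :
    UValid S T ↔ Valid (G1 S T) (G2 S) :=
  ⟨fwd hb, bwd hb⟩

end Pool.Agent.H211F52
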