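import Mathlib
import Pool.Agent.H211F52.Comp

/-!
# Decidability when one of the two graphs has bounded size: the algorithm
-/

set_option autoImplicit false

namespace Pool.Agent.H211F52

open Finset Classical

/-- Codes. -/
abbrev Code : Type := ℕ × List (ℕ × ℕ)

/-- `p` is a code of the graph `G` on `Fin a`. -/
def IsCode {a : ℕ} (G : SimpleGraph (Fin a)) (p : Code) : Prop :=
  p.1 = a ∧ ∀ x y : Fin a, G.Adj x y ↔ adj p x y

lemma IsCode.t_eq {a : ℕ} {G : SimpleGraph (Fin a)} {p : Code} (h : IsCode G p) {Ω : Type} [Fintype Ω]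
    (W : SimpleGraph Ω) : t (gr p) W = t G W := by
  obtain ⟨n, L⟩ := p
  obtain ⟨h1, h2⟩ := h
  simp only at h1
  subst h1
  have : G = gr (n, L) := by
    ext x y
    rw [h2]
    exact (gr_adj (n, L) x y).symm
  rw [this]

lemma primrec_isCode {a : ℕ} (G : SimpleGraph (Fin a)) : PrimrecPred (fun p : Code => IsCode G p) := by
  unfold IsCode
  apply PrimrecPred.and
  · exact Primrec.eq.comp Primrec.fst (Primrec.const a)
  · apply primrec_univ_forall
    intro x
    apply primrec_univ_forall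
    intro y
    exact primrec_iff (primrec_const _) (primrec_adj Primrec.id (Primrec.const _) (Primrec.const _))

/-- `H` embeds in the graph with code `p`, the vertices being listed by `w`. -/
def Emb {c : ℕ} (H : SimpleGraph (Fin c)) (p : Code) : Prop :=
  ∃ w : List ℕ, w.length = c ∧ (∀ x ∈ w, x < p.1) ∧ ((∀ i j : Fin c, i ≠ j → w.getD i 0 ≠ w.getD j 0) ∧
    ∀ i j : Fin c, H.Adj i j → adj p (w.getD i 0) (w.getD j 0))

lemma getD_ofFn {c : ℕ} (g : Fin c → ℕ) (i : Fin c) : (List.ofFn g).getD i 0 = g i := by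
  have : (i : ℕ) < (List.ofFn g).length := by rw [List.length_ofFn]; exact i.2
  rw [List.getD_eq_getElem _ _ this, List.getElem_ofFn]

lemma getD_mem {c : ℕ} {w : List ℕ} (hw : w.length = c) (i : Fin c) : w.getD i 0 ∈ w := by
  have : (i : ℕ) < w.length := by rw [hw]; exact i.2
  rw [List.getD_eq_getElem _ _ this]
  exact List.getElem_mem this

lemma mem_iff_getD {c : ℕ} {w : List ℕ} (hw : w.length = c) (x : ℕ) : x ∈ w ↔ ∃ i : Fin c, w.getD i 0 = x := by
  constructor
  · intro h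
    obtain ⟨i, hi, rfl⟩ := List.mem_iff_getElem.mp h
    exact ⟨⟨i, by rw [← hw]; exact hi⟩, List.getD_eq_getElem _ _ hi⟩
  · rintro ⟨i, rfl⟩
    exact getD_mem hw i

lemma emb_iff {c : ℕ} (H : SimpleGraph (Fin c)) (p : Code) :
    Emb H p ↔ ∃ f : Fin c → Fin p.1, Function.Injective f ∧ ∀ i j, H.Adj i j → (gr p).Adj (f i) (f j) := by
  constructor
  · rintro ⟨w, hw, hwn, hinj, hadj⟩
    refine ⟨fun i => ⟨w.getD i 0, hwn _ (getD_mem hw i)⟩, ?_, ?_⟩
    · intro i j hij
      by_contra hne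
      exact hinj i j hne (Fin.mk.inj_iff.mp hij)
    · intro i j hij
      rw [gr_adj]
      exact hadj i j hij
  · rintro ⟨f, hf, hadj⟩
    refine ⟨List.ofFn (fun i => (f i).1), List.length_ofFn, ?_, ?_, ?_⟩
    · intro x hx
      obtain ⟨i, rfl⟩ := (List.mem_ofFn' _ _).mp hx
      exact (f i).2
    · intro i j hne
      rw [getD_ofFn, getD_ofFn]
      exact fun h => hne (hf (Fin.ext h))
    · intro i j hij
      rw [getD_ofFn, getD_ofFn]
      exact (gr_adj _ _ _).mp (hadj i j hij)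

lemma primrec_getD (α : Type) [Primcodable α] (i : ℕ) : Primrec (fun q : List ℕ × α => q.1.getD i 0) :=
  (Primrec.list_getD 0).comp Primrec.fst (Primrec.const i)

lemma primrec_emb {c : ℕ} (H : SimpleGraph (Fin c)) : PrimrecPred (fun p : Code => Emb H p) := by
  unfold Emb
  apply primrec_exists_list' (fun p : Code => p.1) Primrec.fst c (fun w p =>
    (∀ i j : Fin c, i ≠ j → w.getD i 0 ≠ w.getD j 0) ∧ ∀ i j : Fin c, H.Adj i j → adj p (w.getD i 0) (w.getD j 0))
  apply PrimrecPred.and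
  · apply primrec_univ_forall
    intro i
    apply primrec_univ_forall
    intro j
    exact primrec_imp (primrec_const _) (Primrec.eq.comp (primrec_getD _ _) (primrec_getD _ _)).not
  · apply primrec_univ_forall
    intro i
    apply primrec_univ_forall
    intro j
    exact primrec_imp (primrec_const _) (primrec_adj Primrec.snd (primrec_getD _ _) (primrec_getD _ _))

/-- A bound for the kernels of all graphs with at most `m` vertices. -/
lemma exists_bound (m : ℕ) : ∃ B : ℕ, ∀ a ≤ m, ∀ (G : SimpleGraph (Fin a)) (X : Type) [Fintype X]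
    (G2 : SimpleGraph X), Valid G G2 →
      ∃ Y : Finset X, Y.card ≤ B ∧ Valid G (G2.comap (Subtype.val : Y → X)) := by
  have h : ∀ a : ℕ, ∃ B : ℕ, ∀ (G : SimpleGraph (Fin a)) (X : Type) [Fintype X]
    (G2 : SimpleGraph X), Valid G G2 →
      ∃ Y : Finset X, Y.card ≤ B ∧ Valid G (G2.comap (Subtype.val : Y → X)) := fun a => kernel_theorem (Fin a)
  choose B hB using h
  refine ⟨(Finset.range (m + 1)).sup B, ?_⟩
  intro a ha G X _ G2 hv
  obtain ⟨Y, hY1, hY2⟩ := hB a G X G2 hv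
  exact ⟨Y, hY1.trans (Finset.le_sup (f := B) (Finset.mem_range.mpr (by omega))), hY2⟩

/-- The valid pairs with small first graph. -/
lemma case1 (m : ℕ) : PrimrecPred (fun p : Code × Code => p.1.1 ≤ m ∧ Valid (gr p.1) (gr p.2)) := by
  obtain ⟨B, hB⟩ := exists_bound m
  have hfin : ∀ a : ℕ, Fintype (SimpleGraph (Fin a)) := fun a => Fintype.ofFinite _
  have hP : PrimrecPred (fun p : Code × Code => ∃ a : Fin (m + 1), ∃ G : SimpleGraph (Fin a),
      ∃ c : Fin (B + 1), ∃ H : SimpleGraph (Fin c), Valid G H ∧ IsCode G p.1 ∧ Emb H p.2) := by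
    apply primrec_univ_exists
    intro a
    apply primrec_univ_exists
    intro G
    apply primrec_univ_exists
    intro c
    apply primrec_univ_exists
    intro H
    exact (primrec_const _).and (((primrec_isCode G).comp Primrec.fst).and ((primrec_emb H).comp Primrec.snd))
  refine hP.of_eq fun p => ?_
  constructor
  · rintro ⟨a, G, c, H, hv, hcode, hemb⟩
    refine ⟨by rw [hcode.1]; omega, ?_⟩
    intro k W
    rw [hcode.t_eq]
    obtain ⟨f, hf, hadj⟩ := (emb_iff H p.2).mp hemb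
    exact (t_le_of_embed W f hf hadj).trans (hv k W)
  · rintro ⟨ha, hv⟩
    obtain ⟨Y, hY1, hY2⟩ := hB p.1.1 ha (gr p.1) (Fin p.2.1) (gr p.2) hv
    let e : Fin Y.card ≃ Y := Y.equivFin.symm
    refine ⟨⟨p.1.1, by omega⟩, gr p.1, ⟨Y.card, by omega⟩, (gr p.2).comap (fun i => (e i : Fin p.2.1)), ?_,
      ⟨rfl, fun x y => gr_adj p.1 x y⟩, ?_⟩
    · intro k W
      refine le_trans (le_of_eq ?_) (hY2 k W)
      exact (t_eq_of_embed W (fun i => e i) e.injective (fun a b => Iff.rfl)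
        (fun x y _ => ⟨e.symm x, e.apply_symm_apply x⟩)).symm
    · rw [emb_iff]
      exact ⟨fun i => (e i : Fin p.2.1), fun i j hij => e.injective (Subtype.ext hij), fun i j hij => hij⟩

/-- `p` codes the graph `G` on `Fin b` up to isolated vertices. -/
def Cov {b : ℕ} (G : SimpleGraph (Fin b)) (p : Code) : Prop :=
  ∃ w : List ℕ, w.length = b ∧ (∀ x ∈ w, x < p.1 + b) ∧ ((∀ i j : Fin b, i ≠ j → w.getD i 0 ≠ w.getD j 0) ∧
    (∀ e ∈ p.2, e.1 < p.1 → e.2 < p.1 → e.1 ≠ e.2 → (∃ i : Fin b, w.getD i 0 = e.1) ∧ ∃ i : Fin b, w.getD i 0 = e.2) ∧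
    ∀ i j : Fin b, G.Adj i j ↔ (w.getD i 0 < p.1 ∧ w.getD j 0 < p.1 ∧ adj p (w.getD i 0) (w.getD j 0)))

lemma primrec_cov {b : ℕ} (G : SimpleGraph (Fin b)) : PrimrecPred (fun p : Code => Cov G p) := by
  unfold Cov
  apply primrec_exists_list' (fun p : Code => p.1 + b) (Primrec.nat_add.comp Primrec.fst (Primrec.const b)) b
    (fun w p => (∀ i j : Fin b, i ≠ j → w.getD i 0 ≠ w.getD j 0) ∧
    (∀ e ∈ p.2, e.1 < p.1 → e.2 < p.1 → e.1 ≠ e.2 → (∃ i : Fin b, w.getD i 0 = e.1) ∧ ∃ i : Fin b, w.getD i 0 = e.2) ∧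
    ∀ i j : Fin b, G.Adj i j ↔ (w.getD i 0 < p.1 ∧ w.getD j 0 < p.1 ∧ adj p (w.getD i 0) (w.getD j 0)))
  apply PrimrecPred.and
  · apply primrec_univ_forall
    intro i
    apply primrec_univ_forall
    intro j
    exact primrec_imp (primrec_const _) (Primrec.eq.comp (primrec_getD _ _) (primrec_getD _ _)).not
  apply PrimrecPred.and
  · have hR : PrimrecRel (fun (e : ℕ × ℕ) (q : List ℕ × Code) => e.1 < q.2.1 → e.2 < q.2.1 → e.1 ≠ e.2 →
        (∃ i : Fin b, q.1.getD i 0 = e.1) ∧ ∃ i : Fin b, q.1.getD i 0 = e.2) := by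
      have h1 : Primrec (fun s : (ℕ × ℕ) × (List ℕ × Code) => s.1.1) := Primrec.fst.comp Primrec.fst
      have h2 : Primrec (fun s : (ℕ × ℕ) × (List ℕ × Code) => s.1.2) := Primrec.snd.comp Primrec.fst
      have h3 : Primrec (fun s : (ℕ × ℕ) × (List ℕ × Code) => s.2.2.1) :=
        Primrec.fst.comp (Primrec.snd.comp Primrec.snd)
      have h4 : ∀ i : ℕ, Primrec (fun s : (ℕ × ℕ) × (List ℕ × Code) => s.2.1.getD i 0) := fun i =>
        (primrec_getD Code i).comp Primrec.snd
      apply primrec_imp (Primrec.nat_lt.comp h1 h3)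
      apply primrec_imp (Primrec.nat_lt.comp h2 h3)
      apply primrec_imp (Primrec.eq.comp h1 h2).not
      apply PrimrecPred.and
      · apply primrec_univ_exists
        intro i
        exact Primrec.eq.comp (h4 i) h1
      · apply primrec_univ_exists
        intro i
        exact Primrec.eq.comp (h4 i) h2
    exact (PrimrecRel.forall_mem_list hR).comp (Primrec.snd.comp Primrec.snd) Primrec.id
  · apply primrec_univ_forall
    intro i
    apply primrec_univ_forall
    intro j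
    have h3 : Primrec (fun s : List ℕ × Code => s.2.1) := Primrec.fst.comp Primrec.snd
    exact primrec_iff (primrec_const _) ((Primrec.nat_lt.comp (primrec_getD _ _) h3).and
      ((Primrec.nat_lt.comp (primrec_getD _ _) h3).and
      (primrec_adj Primrec.snd (primrec_getD _ _) (primrec_getD _ _))))

lemma Cov.t_eq {b : ℕ} {G : SimpleGraph (Fin b)} {p : Code} (h : Cov G p) {Ω : Type} [Fintype Ω] [Nonempty Ω]
    (W : SimpleGraph Ω) : t (gr p) W = t G W := by
  obtain ⟨w, hw, hwn, hinj, hcov, hadj⟩ := h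
  let A := {i : Fin b // w.getD i 0 < p.1}
  let f1 : A → Fin b := Subtype.val
  let f2 : A → Fin p.1 := fun i => ⟨w.getD i.1 0, i.2⟩
  have hf2 : Function.Injective f2 := by
    intro i j hij
    by_contra hne
    exact hinj i.1 j.1 (fun h => hne (Subtype.ext h)) (Fin.mk.inj_iff.mp hij)
  have h1 : t G W = t (G.comap f1) W := by
    apply t_eq_of_embed W f1 Subtype.val_injective (fun a b => Iff.rfl)
    intro x y hxy
    exact ⟨⟨x, ((hadj x y).mp hxy).1⟩, rfl⟩
  have h2 : t (gr p) W = t (G.comap f1) W := by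
    apply t_eq_of_embed W f2 hf2
    · intro i j
      rw [gr_adj, SimpleGraph.comap_adj, hadj]
      exact ⟨fun h => h.2.2, fun h => ⟨i.2, j.2, h⟩⟩
    · intro x y hxy
      have h3 := (gr_adj p x y).mp hxy
      have h4 : ∃ i : Fin b, w.getD i 0 = x := by
        rcases h3.2 with h | h
        · exact (hcov _ h x.2 y.2 h3.1).1
        · exact (hcov _ h y.2 x.2 (Ne.symm h3.1)).2
      obtain ⟨i, hi⟩ := h4
      exact ⟨⟨i, by rw [hi]; exact x.2⟩, Fin.ext hi⟩
  rw [h1, h2]

lemma exists_cov (b : ℕ) (p : Code) (h : (univ.filter (fun v => ∃ u, (gr p).Adj v u)).card ≤ b) :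
    ∃ G : SimpleGraph (Fin b), Cov G p := by
  set N := (univ.filter (fun v => ∃ u, (gr p).Adj v u)).image (fun v : Fin p.1 => v.1) with hN
  have hNc : N.card ≤ b := Finset.card_image_le.trans h
  have hNs : N ⊆ Finset.range (p.1 + b) := by
    intro x hx
    obtain ⟨v, _, rfl⟩ := Finset.mem_image.mp hx
    exact Finset.mem_range.mpr (by omega)
  obtain ⟨U, hU1, hU2, hU3⟩ := Finset.exists_subsuperset_card_eq hNs hNc (by rw [Finset.card_range]; omega)
  let g : Fin b → ℕ := U.orderEmbOfFin hU3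
  have hg : Function.Injective g := (U.orderEmbOfFin hU3).injective
  have hgU : ∀ x, x ∈ U → ∃ i, g i = x := by
    intro x hx
    have : x ∈ Set.range (U.orderEmbOfFin hU3) := by rw [Finset.range_orderEmbOfFin]; exact hx
    exact this
  let G : SimpleGraph (Fin b) :=
    { Adj := fun i j => g i < p.1 ∧ g j < p.1 ∧ adj p (g i) (g j)
      symm := ⟨fun i j h => ⟨h.2.1, h.1, h.2.2.1.symm, h.2.2.2.symm⟩⟩
      loopless := ⟨fun i h => h.2.2.1 rfl⟩ }
  have key : ∀ e : ℕ × ℕ, e ∈ p.2 → e.1 < p.1 → e.2 < p.1 → e.1 ≠ e.2 → (∃ i, g i = e.1) ∧ ∃ i, g i = e.2 := by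
    intro e he h1 h2 hne
    constructor
    · apply hgU
      apply hU1
      refine Finset.mem_image.mpr ⟨⟨e.1, h1⟩, ?_, rfl⟩
      refine Finset.mem_filter.mpr ⟨Finset.mem_univ _, ⟨e.2, h2⟩, ?_⟩
      rw [gr_adj]
      exact ⟨hne, Or.inl he⟩
    · apply hgU
      apply hU1
      refine Finset.mem_image.mpr ⟨⟨e.2, h2⟩, ?_, rfl⟩
      refine Finset.mem_filter.mpr ⟨Finset.mem_univ _, ⟨e.1, h1⟩, ?_⟩
      rw [gr_adj]
      exact ⟨hne.symm, Or.inr he⟩
  refine ⟨G, List.ofFn g, List.length_ofFn, ?_, ?_, ?_, ?_⟩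
  · intro x hx
    obtain ⟨i, rfl⟩ := (List.mem_ofFn' _ _).mp hx
    exact Finset.mem_range.mp (hU2 (Finset.orderEmbOfFin_mem U hU3 i))
  · intro i j hne
    rw [getD_ofFn, getD_ofFn]
    exact fun h => hne (hg h)
  · intro e he h1 h2 hne
    obtain ⟨⟨i, hi⟩, ⟨j, hj⟩⟩ := key e he h1 h2 hne
    exact ⟨⟨i, by rw [getD_ofFn]; exact hi⟩, ⟨j, by rw [getD_ofFn]; exact hj⟩⟩
  · intro i j
    rw [getD_ofFn, getD_ofFn]

/-- The valid pairs with small second graph. -/
lemma case2 (m : ℕ) : PrimrecPred (fun p : Code × Code => p.2.1 ≤ m ∧ Valid (gr p.1) (gr p.2)) := by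
  have hfin : ∀ a : ℕ, Fintype (SimpleGraph (Fin a)) := fun a => Fintype.ofFinite _
  have hP : PrimrecPred (fun p : Code × Code => ∃ b : Fin (m + 1), ∃ H : SimpleGraph (Fin b),
      ∃ G : SimpleGraph (Fin b), Valid G H ∧ IsCode H p.2 ∧ Cov G p.1) := by
    apply primrec_univ_exists
    intro b
    apply primrec_univ_exists
    intro H
    apply primrec_univ_exists
    intro G
    exact (primrec_const _).and (((primrec_isCode H).comp Primrec.snd).and ((primrec_cov G).comp Primrec.fst))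
  refine hP.of_eq fun p => ?_
  constructor
  · rintro ⟨b, H, G, hv, hcode, hcov⟩
    refine ⟨by rw [hcode.1]; omega, ?_⟩
    intro k W
    rw [hcode.t_eq, hcov.t_eq]
    exact hv k W
  · rintro ⟨hb, hv⟩
    have h1 := card_nonisolated_le hv
    rw [Fintype.card_fin] at h1
    obtain ⟨G, hG⟩ := exists_cov p.2.1 p.1 (by convert h1)
    refine ⟨⟨p.2.1, by omega⟩, gr p.2, G, ?_, ⟨rfl, fun x y => gr_adj p.2 x y⟩, hG⟩
    intro k W
    rw [← hG.t_eq]
    exact hv k W

theorem slice (m : ℕ) : PrimrecPred (fun p : Code × Code => (p.1.1 ≤ m ∨ p.2.1 ≤ m) ∧ Fro p) := by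
  refine ((case1 m).or (case2 m)).of_eq fun p => ?_
  rw [fro_iff]
  tauto

end Pool.Agent.H211F52
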